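import Pool.Agent.Work.MP_e487d8_al.Mo.Head
import Pool.Agent.Work.MP_e487d8_al.Mod.Fd
import Pool.Agent.Work.MP_e487d8_al.Conv.KZ

/-! MP_e487d8_al, module side, item ASM: the mirror of AS. -/

set_option autoImplicit false
set_option linter.unusedSectionVars false

namespace Pool.Agent.KLR

variable {K I : Type} [Field K] [Fintype I] [DecidableEq I] (D : Datum K I)

namespace XASM

variable {D}

theorem sConv (hb : S_basis D) : S_conv D :=
  fun _ _ _ _ _ _ _ _ _ _ _ _ hM hN => Conv.fdMod_chrQ hb hM hN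

/-- the number of strands of a nonzero quotient -/
theorem n_eq {m n : ℕ} {M N : Type} [AddCommGroup M] [Module (KLRAlg D) M] [AddCommGroup N]
    [Module (KLRAlg D) N] [Nontrivial N] (hM : IsStrand D m M) (hN : IsStrand D n N)
    (f : M →ₗ[KLRAlg D] N) (hf : Function.Surjective f) : m = n := by
  have hM' : IsStrand D m N := IsStrand.of_surjective hM f hf
  obtain ⟨u, hu⟩ := exists_ne (0 : N)
  rcases lt_trichotomy m n with h | h | h
  · exact absurd ((hN.one m h u).symm.trans (hM'.E_smul_zero le_rfl u)) hu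
  · exact h
  · exact absurd ((hM'.one n h u).symm.trans (hN.E_smul_zero le_rfl u)) hu

end XASM

theorem Mo.I_ASM : StAsm D := by
  intro Lp hB A B AB C W S hAB hW hS
  obtain ⟨hb, hC⟩ := hB
  obtain ⟨f, hf⟩ := hW
  obtain ⟨g, hg⟩ := hS
  obtain ⟨e⟩ := Sm.iso_conv' hC (XASM.sConv hb) hAB
  have : IsSimpleModule (KLRAlg D) W.M := W.smp.simple
  have : Nontrivial W.M := IsSimpleModule.nontrivial (KLRAlg D) W.M
  have hn : C.n + A.n = W.n :=
    XASM.n_eq (Conv.isStrand C.smp.strand A.smp.strand) W.smp.strand f hf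
  have h1 : Function.Surjective (Conv.map hn f (LinearMap.id : B.M →ₗ[KLRAlg D] B.M)) :=
    Conv.map_surjective hn _ _ hf Function.surjective_id
  have h2 : Function.Surjective (Conv.map (rfl : C.n = C.n)
      (LinearMap.id : C.M →ₗ[KLRAlg D] C.M) e.symm.toLinearMap) :=
    Conv.map_surjective rfl _ _ Function.surjective_id e.symm.surjective
  refine ⟨g ∘ₗ (Conv.map hn f (LinearMap.id : B.M →ₗ[KLRAlg D] B.M)) ∘ₗ
    (Conv.assoc D C.n A.n C.M A.M B.M).symm.toLinearMap ∘ₗ
    (Conv.map (rfl : C.n = C.n) (LinearMap.id : C.M →ₗ[KLRAlg D] C.M) e.symm.toLinearMap), ?_⟩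
  exact hg.comp (h1.comp ((Conv.assoc D C.n A.n C.M A.M B.M).symm.surjective.comp h2))

end Pool.Agent.KLR
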