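import Pool.Agent.Work.MP_e487d8_al.Mo.Head
import Pool.Agent.Work.MP_e487d8_al.Cry.Main

/-! MP_e487d8_al, module side: DS, a second constituent of `C ∘ S` if `C ∘ S` is not simple. -/

set_option autoImplicit false
set_option linter.unusedSectionVars false

open scoped TensorProduct

open Pool.Agent.E487.Hopf

namespace Pool.Agent.KLR

variable {K I : Type} [Field K] [Fintype I] [DecidableEq I]

namespace XDS

variable {D : Datum K I}

/-- the map `C ∘ S → (C ∘ B) ∘ T` attached to an injective map `S → B ∘ T` is injective -/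
theorem exists_emb (hb : S_basis D) (C B T S : SMod D) {ι : S.M →ₗ[KLRAlg D] B.conv T}
    (hn : S.n = B.n + T.n) (hι : Function.Injective ι) :
    ∃ g : C.conv S →ₗ[KLRAlg D] Conv D (C.n + B.n) (C.conv B) T.M, Function.Injective g := by
  have hs : IsStrand D (B.n + T.n) S.M := by
    rw [← hn]
    exact S.smp.strand
  refine ⟨(Conv.assoc D C.n B.n C.M B.M T.M).symm.toLinearMap ∘ₗ
    Conv.map (rfl : C.n = C.n) (LinearMap.id : C.M →ₗ[KLRAlg D] C.M) ι, ?_⟩
  rw [LinearMap.coe_comp]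
  refine (Conv.assoc D C.n B.n C.M B.M T.M).symm.injective.comp ?_
  exact Conv.map_injective hb rfl C.smp.strand hs C.smp.strand
    (Conv.isStrand B.smp.strand T.smp.strand) _ _ Function.injective_id hι

/-- a module which is not simple has a simple submodule in the kernel of each simple quotient -/
theorem exists_sub {n : ℕ} {M : Type} [AddCommGroup M] [Module K M] [Module (KLRAlg D) M]
    [IsScalarTower K (KLRAlg D) M] (hM : FdMod D n M) (Z : SMod D) (p : M →ₗ[KLRAlg D] Z.M)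
    (hp : Function.Surjective p) (hs : ¬ IsSimpleModule (KLRAlg D) M) :
    ∃ (Y : SMod D) (j : Y.M →ₗ[KLRAlg D] LinearMap.ker p), Function.Injective j := by
  have hne : LinearMap.ker p ≠ ⊥ := by
    intro h
    apply hs
    have e : M ≃ₗ[KLRAlg D] Z.M := LinearEquiv.ofBijective p ⟨LinearMap.ker_eq_bot.1 h, hp⟩
    have := Z.smp.simple
    exact IsSimpleModule.congr e
  have hnt : Nontrivial (LinearMap.ker p) := (Submodule.nontrivial_iff_ne_bot).2 hne
  have hN := hM.sub (LinearMap.ker p)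
  have := hN.fd
  obtain ⟨Y0, hY0⟩ := exists_simple_sub (M := LinearMap.ker p) (D := D)
  exact ⟨⟨n, Y0, ⟨hN.sub Y0, hY0⟩⟩, Y0.subtype, Y0.subtype_injective⟩

/-- a submodule is a subquotient -/
theorem subQ_of_inj {M : Type} [AddCommGroup M] [Module (KLRAlg D) M] (Y : SMod D)
    (j : Y.M →ₗ[KLRAlg D] M) (hj : Function.Injective j) : SubQ D Y.M M :=
  ⟨LinearMap.range j, (LinearEquiv.ofInjective j hj).symm.toLinearMap,
    (LinearEquiv.ofInjective j hj).symm.surjective⟩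

end XDS

theorem Mo.I_DS (D : Datum K I) (hW : StSwap D) (hS : StSsub D) (hM : StMsub D) (hQ : StMsq D) :
    StDs D := by
  classical
  intro Lp h hconv T B C S S' hSq hS'q hnc
  have _ := hM
  -- the embedding
  obtain ⟨ι, hι⟩ := (hW h.1 Lp h.2 T.rep B.rep S.rep).1 hSq
  have hn : S.rep.n = B.rep.n + T.rep.n := by
    rw [quo_strand (Sm.fd_conv hconv T.rep B.rep) hSq, Nat.add_comm]
  obtain ⟨g, hg⟩ := XDS.exists_emb h.1 C.rep B.rep T.rep S.rep hn hι
  -- the simple submodule of the kernel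
  obtain ⟨p, hp⟩ := hS'q
  have hfd := Sm.fd_conv hconv C.rep S.rep
  obtain ⟨Y, j, hj⟩ := XDS.exists_sub hfd S'.rep p hp hnc
  -- the constituent of `C ∘ B`
  have hsub : Sub D Y.M (Conv D (C.rep.n + B.rep.n) (C.rep.conv B.rep) T.rep.M) := by
    refine ⟨g ∘ₗ (LinearMap.ker p).subtype ∘ₗ j, ?_⟩
    rw [LinearMap.coe_comp, LinearMap.coe_comp]
    exact hg.comp ((LinearMap.ker p).subtype_injective.comp hj)
  obtain ⟨V, hV1, hV2⟩ := hS Lp h (C.rep.n + B.rep.n) (C.rep.conv B.rep)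
    (Sm.fd_conv hconv C.rep B.rep) T.rep Y hsub
  have hV3 : Quo D Y.M (T.rep.conv V) := (hW h.1 Lp h.2 T.rep V Y).2 hV2
  have hiV : V.Iso (Sm.cls V).rep := Sm.iso_rep h.2 (Sm.ch_rep_cls V).symm
  have hiY : Y.Iso (Sm.cls Y).rep := Sm.iso_rep h.2 (Sm.ch_rep_cls Y).symm
  -- multiplicities
  have hm : Sm.mult h.2 (hfd.sub (LinearMap.ker p)) (Sm.cls Y) ≠ 0 :=
    (hQ Lp h _ _ (hfd.sub (LinearMap.ker p)) Y).1 (XDS.subQ_of_inj Y j hj)
  have hle : Finsupp.single (Sm.cls Y) 1 ≤ Sm.mult h.2 (hfd.sub (LinearMap.ker p)) := by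
    rw [Finsupp.single_le_iff]
    exact Nat.one_le_iff_ne_zero.2 hm
  refine ⟨Sm.cls V, Sm.cls Y, Sm.mult h.2 (hfd.sub (LinearMap.ker p)) -
    Finsupp.single (Sm.cls Y) 1, ?_, ?_, ?_⟩
  · exact (hQ Lp h _ _ (Sm.fd_conv hconv C.rep B.rep) V).1 hV1
  · exact SMod.quo_congr (SMod.Iso.refl _) hiV hiY hV3
  · have h1 : Sm.co h.2 hconv C S = Sm.mult h.2 (hfd.sub (LinearMap.ker p)) +
        Finsupp.single (Sm.cls S'.rep) 1 := Sm.mult_quo h.2 hfd p hp
    rw [h1, Sm.cls_rep, add_comm (Sm.mult h.2 (hfd.sub (LinearMap.ker p))), add_assoc]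
    congr 1
    exact (add_tsub_cancel_of_le hle).symm

end Pool.Agent.KLR
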