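import Pool.Agent.Work.MP_e487d8_al.Mo.Cf

/-! MP_e487d8_al, module side, item DUCHR: the character of the dual module. -/

set_option autoImplicit false
set_option linter.unusedSectionVars false

namespace Pool.Agent.KLR

variable {K I : Type} [Field K] [Fintype I] [DecidableEq I] (D : Datum K I)

namespace XDUCHR

theorem an_x_pow (k N : ℕ) : D.an (D.x k ^ N) = D.x k ^ N := by
  induction N with
  | zero => rw [pow_zero, D.an_one]
  | succ N ih => rw [pow_succ, D.an_mul, ih, D.an_x, ← pow_succ', ← pow_succ]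

theorem wordSp_du (M : Type) [AddCommGroup M] [Module K M] [Module (KLRAlg D) M]
    [IsScalarTower K (KLRAlg D) M] (ν : List I) :
    wordSp D (Du D M) ν = (LinearMap.range
      (Algebra.lsmul K K M (D.eW ν)).dualMap).map (Du.mk D M).toLinearMap := by
  ext φ
  constructor
  · rintro ⟨ψ, rfl⟩
    refine ⟨(Algebra.lsmul K K M (D.eW ν)).dualMap ((Du.mk D M).symm ψ), ⟨_, rfl⟩, ?_⟩
    refine Du.ext fun u => ?_
    change Du.ev ψ (D.eW ν • u) = Du.ev (D.eW ν • ψ) u
    rw [Du.ev_smul, D.an_eW]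
  · rintro ⟨_, ⟨ψ, rfl⟩, rfl⟩
    refine ⟨Du.mk D M ψ, Du.ext fun u => ?_⟩
    change Du.ev (D.eW ν • Du.mk D M ψ) u = Du.ev (Du.mk D M ψ) (D.eW ν • u)
    rw [Du.ev_smul, D.an_eW]

end XDUCHR

theorem Mo.I_DUCHR : StDuChr D := by
  intro n M _ _ _ _ hM
  haveI := hM.fd
  refine ⟨⟨Du.isStrand hM.strand, inferInstance, fun k => ?_⟩, fun ν => ?_⟩
  · obtain ⟨N, hN⟩ := hM.nilp k
    refine ⟨N, fun φ => Du.ext fun u => ?_⟩
    rw [Du.ev_smul, XDUCHR.an_x_pow, hN, map_zero, Du.ev_zero]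
  · unfold chr
    split_ifs
    · rw [XDUCHR.wordSp_du, LinearEquiv.finrank_map_eq,
        LinearMap.finrank_range_dualMap_eq_finrank_range]
      rfl
    · rfl

end Pool.Agent.KLR
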