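import Pool.Agent.Work.MP_e487d8_al.Mo.Cf

/-! MP_e487d8_al, module side: the dual of a convolution product. -/

set_option autoImplicit false
set_option linter.unusedSectionVars false

open scoped TensorProduct

namespace Pool.Agent.KLR

variable {K I : Type} [Field K] [Fintype I] [DecidableEq I]

namespace XDUCONV

section

variable {M N : Type} [AddCommGroup M] [Module K M] [AddCommGroup N] [Module K N]

/-- the product of two functionals -/
noncomputable def pr (f : M →ₗ[K] K) (g : N →ₗ[K] K) : M ⊗[K] N →ₗ[K] K :=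
  LinearMap.mul' K K ∘ₗ TensorProduct.map f g

theorem pr_tmul (f : M →ₗ[K] K) (g : N →ₗ[K] K) (u : M) (v : N) :
    pr f g (u ⊗ₜ v) = f u * g v := rfl

theorem pr_add_left (f f' : M →ₗ[K] K) (g : N →ₗ[K] K) (t : M ⊗[K] N) :
    pr (f + f') g t = pr f g t + pr f' g t := by
  unfold pr
  rw [TensorProduct.map_add_left, LinearMap.comp_add, LinearMap.add_apply]

theorem pr_add_right (f : M →ₗ[K] K) (g g' : N →ₗ[K] K) (t : M ⊗[K] N) :
    pr f (g + g') t = pr f g t + pr f g' t := by
  unfold pr
  rw [TensorProduct.map_add_right, LinearMap.comp_add, LinearMap.add_apply]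

theorem pr_smul_left (r : K) (f : M →ₗ[K] K) (g : N →ₗ[K] K) (t : M ⊗[K] N) :
    pr (r • f) g t = r • pr f g t := by
  unfold pr
  rw [TensorProduct.map_smul_left, LinearMap.comp_smul, LinearMap.smul_apply]

theorem pr_smul_right (r : K) (f : M →ₗ[K] K) (g : N →ₗ[K] K) (t : M ⊗[K] N) :
    pr f (r • g) t = r • pr f g t := by
  unfold pr
  rw [TensorProduct.map_smul_right, LinearMap.comp_smul, LinearMap.smul_apply]

theorem pr_comp (f : M →ₗ[K] K) (g : N →ₗ[K] K) (a : M →ₗ[K] M) (b : N →ₗ[K] N)
    (t : M ⊗[K] N) : pr (f ∘ₗ a) (g ∘ₗ b) t = pr f g (TensorProduct.map a b t) := by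
  unfold pr
  rw [TensorProduct.map_comp]
  rfl

/-- the products of functionals separate points -/
theorem pr_sep [FiniteDimensional K M] [FiniteDimensional K N] (t : M ⊗[K] N)
    (h : ∀ (f : M →ₗ[K] K) (g : N →ₗ[K] K), pr f g t = 0) : t = 0 := by
  rw [← Module.forall_dual_apply_eq_zero_iff K]
  intro φ
  obtain ⟨x, rfl⟩ := (TensorProduct.dualDistribEquiv K M N).surjective φ
  induction x using TensorProduct.induction_on with
  | zero => rw [map_zero, LinearMap.zero_apply]
  | add x y hx hy => rw [map_add, LinearMap.add_apply, hx, hy, add_zero]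
  | tmul f g =>
    have h1 : (TensorProduct.dualDistribEquiv K M N) (f ⊗ₜ g) = pr f g := by
      refine TensorProduct.ext' fun u v => ?_
      rw [pr_tmul]
      rfl
    rw [h1]
    exact h f g

end

section

variable {D : Datum K I} {m n : ℕ} {M N : Type} [AddCommGroup M] [Module K M]
  [Module (KLRAlg D) M] [IsScalarTower K (KLRAlg D) M] [AddCommGroup N] [Module K N]
  [Module (KLRAlg D) N] [IsScalarTower K (KLRAlg D) N]

/-- the functional on the convolution product given by two functionals -/
noncomputable def fn (hb : S_basis D) (hM : IsStrand D m M) (hN : IsStrand D n N)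
    (g : Du D N) (f : Du D M) : Du D (Conv D m M N) :=
  Du.mk D _ ((pr (Du.ev f) (Du.ev g)).comp (Conv.Tp hb hM hN))

theorem ev_fn (hb : S_basis D) (hM : IsStrand D m M) (hN : IsStrand D n N)
    (g : Du D N) (f : Du D M) (z : Conv D m M N) :
    Du.ev (fn hb hM hN g f) z = pr (Du.ev f) (Du.ev g) (Conv.Tp hb hM hN z) := rfl

/-- the bilinear map -/
noncomputable def bet (hb : S_basis D) (hM : IsStrand D m M) (hN : IsStrand D n N) :
    Du D N →ₗ[K] Du D M →ₗ[K] Du D (Conv D m M N) :=
  LinearMap.mk₂ K (fn hb hM hN)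
    (fun g g' f => Du.ext fun _ => pr_add_right (Du.ev f) (Du.ev g) (Du.ev g') _)
    (fun r g f => Du.ext fun _ => pr_smul_right r (Du.ev f) (Du.ev g) _)
    (fun g f f' => Du.ext fun _ => pr_add_left (Du.ev f) (Du.ev f') (Du.ev g) _)
    (fun r g f => Du.ext fun _ => pr_smul_left r (Du.ev f) (Du.ev g) _)

theorem bet_apply (hb : S_basis D) (hM : IsStrand D m M) (hN : IsStrand D n N)
    (g : Du D N) (f : Du D M) : bet hb hM hN g f = fn hb hM hN g f := rfl

theorem bet_bal (h1 : StTpTr D) (h2 : StTpShn D) (hb : S_basis D) (hM : IsStrand D m M)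
    (hN : IsStrand D n N) : Balanced D n (bet hb hM hN) where
  left a g f := by
    refine Du.ext fun z => ?_
    rw [Du.ev_smul, bet_apply, bet_apply, ev_fn, ev_fn, D.an_tr, h1]
    have e1 : Du.ev (a • g) = (Du.ev g).comp (Algebra.lsmul K K N (D.an a)) := rfl
    rw [e1]
    exact (pr_comp (Du.ev f) (Du.ev g) LinearMap.id (Algebra.lsmul K K N (D.an a)) _).symm
  right a g f := by
    refine Du.ext fun z => ?_
    rw [Du.ev_smul, bet_apply, bet_apply, ev_fn, ev_fn, D.an_shn, h2]
    have e1 : Du.ev (a • f) = (Du.ev f).comp (Algebra.lsmul K K M (D.an a)) := rfl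
    rw [e1]
    exact (pr_comp (Du.ev f) (Du.ev g) (Algebra.lsmul K K M (D.an a)) LinearMap.id _).symm

end

end XDUCONV

open XDUCONV in
/-- the dual of a convolution product -/
theorem Mo.I_DUCONV (D : Datum K I) (h1 : StTpTr D) (h2 : StTpShn D) (h3 : StTpNd D) :
    StDuConv D := by
  intro hb m n M N _ _ _ _ _ _ _ _ hM hN _ _
  have _ : FiniteDimensional K (Conv D m M N) := Conv.finiteDimensional hb hM hN
  have _ : FiniteDimensional K (Conv D n (Du D N) (Du D M)) :=
    Conv.finiteDimensional hb (Du.isStrand hN) (Du.isStrand hM)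
  set T : Conv D n (Du D N) (Du D M) →ₗ[KLRAlg D] Du D (Conv D m M N) :=
    Conv.lift (bet hb hM hN) (bet_bal h1 h2 hb hM hN) with hT
  have hTm : ∀ (a : KLRAlg D) (g : Du D N) (f : Du D M),
      T (a • Conv.mk D n (Du D N) (Du D M) g f) = a • fn hb hM hN g f := by
    intro a g f
    rw [map_smul, hT, Conv.lift_mk, bet_apply]
  have hsur : Function.Surjective (Conv.toK T) := by
    rw [← LinearMap.range_eq_top]
    by_contra hne
    obtain ⟨F, hF0, hF⟩ := Submodule.exists_dual_map_eq_bot_of_lt_top
      (lt_of_le_of_ne le_top hne) inferInstance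
    obtain ⟨z, rfl⟩ := (Module.evalEquiv K (Conv D m M N)).surjective F
    have hz : z = 0 := by
      refine h3 hb m n M N hM hN z fun a => pr_sep _ fun f g => ?_
      have h4 : Du.ev (T (D.an a • Conv.mk D n (Du D N) (Du D M) (Du.mk D N g) (Du.mk D M f))) z
          = 0 := by
        have h5 := Submodule.mem_map_of_mem
          (f := (Module.evalEquiv K (Conv D m M N)) z) (LinearMap.mem_range_self (Conv.toK T)
          (D.an a • Conv.mk D n (Du D N) (Du D M) (Du.mk D N g) (Du.mk D M f)))
        exact (Submodule.mem_bot K).1 (hF.le h5)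
      rw [hTm, Du.ev_smul, D.an_an, ev_fn] at h4
      exact h4
    exact hF0 ((congrArg _ hz).trans (map_zero _))
  have hfr : Module.finrank K (Conv D n (Du D N) (Du D M)) =
      Module.finrank K (Du D (Conv D m M N)) := by
    have e1 : Module.finrank K (Du D (Conv D m M N)) = Module.finrank K (Conv D m M N) :=
      Subspace.dual_finrank_eq
    have e2 : Module.finrank K (Du D M) = Module.finrank K M := Subspace.dual_finrank_eq
    have e3 : Module.finrank K (Du D N) = Module.finrank K N := Subspace.dual_finrank_eq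
    rw [e1, Conv.finrank hb (Du.isStrand hN) (Du.isStrand hM), Conv.finrank hb hM hN, e2, e3,
      Nat.add_comm n m, ← Nat.choose_symm_add, mul_comm (Module.finrank K N)]
  have hinj : Function.Injective (Conv.toK T) :=
    (LinearMap.injective_iff_surjective_of_finrank_eq_finrank hfr).2 hsur
  exact ⟨LinearEquiv.ofBijective T ⟨hinj, hsur⟩⟩

end Pool.Agent.KLR
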