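import Pool.Agent.Work.MP_e487d8_al.Mo.Cf

/-! MP_e487d8_al, module side: a simple module is isomorphic to its dual. -/

set_option autoImplicit false

namespace Pool.Agent.KLR

variable {K I : Type} [Field K] [Fintype I] [DecidableEq I] (D : Datum K I)

theorem Mo.I_DUISO (h1 : StDuChr D) (h2 : StDuSmp D) : StDuIso D := by
  intro Lp hC X
  let X' : SMod D := { n := X.n, M := Du D X.M, smp := h2 X.n X.M X.smp }
  have h : X'.ch = X.ch := funext fun ν => (h1 X.n X.M X.smp.toFdMod).2 ν
  exact SMod.iso_of_ch hC X.n (rfl : X'.n = X.n) h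

end Pool.Agent.KLR
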