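import Pool.Agent.Work.MP_e487d8_al.Mo.Cf

/-! MP_e487d8_al, item DUSMP: the dual of a simple module is simple. -/

set_option autoImplicit false
set_option linter.unusedSectionVars false

namespace Pool.Agent.KLR

variable {K I : Type} [Field K] [Fintype I] [DecidableEq I] (D : Datum K I)

namespace XDUSMP

variable {M : Type} [AddCommGroup M] [Module K M] [Module (KLRAlg D) M]
  [IsScalarTower K (KLRAlg D) M] [FiniteDimensional K M]

/-- restriction of `u` (as a functional on the dual) to a submodule of the dual -/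
noncomputable def res (P : Submodule (KLRAlg D) (Du D M)) : M →ₗ[KLRAlg D] Du D P :=
  (Du.map P.subtype).comp (Du.dd (D := D) (M := M)).toLinearMap

theorem ev_res (P : Submodule (KLRAlg D) (Du D M)) (u : M) (φ : P) :
    Du.ev (res D P u) φ = Du.ev φ.1 u := rfl

theorem eq_top (P : Submodule (KLRAlg D) (Du D M)) (h : Function.Injective (res D P)) :
    P = ⊤ := by
  by_contra hP
  have h1 : P.restrictScalars K < ⊤ := by
    refine lt_top_iff_ne_top.2 fun h2 => hP ?_
    rwa [Submodule.restrictScalars_eq_top_iff] at h2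
  obtain ⟨f, hf, hPf⟩ := Submodule.exists_le_ker_of_lt_top _ h1
  refine hf ?_
  obtain ⟨u, hu⟩ := (Du.dd (D := D) (M := M)).surjective (Du.mk D (Du D M) f)
  have h3 : res D P u = 0 := by
    refine Du.ext fun φ => ?_
    have h4 : Du.ev (Du.dd (D := D) u) φ.1 = f φ.1 := by
      rw [hu]
      rfl
    rw [ev_res, Du.ev_zero, ← Du.ev_dd (D := D), h4]
    exact hPf φ.2
  have h5 : u = 0 := h (by rw [h3, map_zero])
  have h6 : Du.mk D (Du D M) f = 0 := by rw [← hu, h5, map_zero]
  exact (Du.mk D (Du D M)).injective (by rw [h6, map_zero])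

end XDUSMP

theorem Mo.I_DUSMP (h : StDuChr D) : StDuSmp D := by
  intro n M _ _ _ _ hM
  have := hM.fd
  have := hM.simple
  refine { (h n M hM.toFdMod).1 with simple := ?_ }
  have hnt : Nontrivial M := IsSimpleModule.nontrivial (KLRAlg D) M
  have : Nontrivial (Du D M) := by
    obtain ⟨u, hu⟩ := exists_ne (0 : M)
    by_contra hc
    rw [not_nontrivial_iff_subsingleton] at hc
    refine hu ((Module.forall_dual_apply_eq_zero_iff K u).1 fun f => ?_)
    have h1 : Du.mk D M f = 0 := Subsingleton.elim _ _
    have h2 : f = 0 := (Du.mk D M).injective (by rw [h1, map_zero])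
    rw [h2, LinearMap.zero_apply]
  rw [isSimpleModule_iff]
  refine { toNontrivial := ?_, eq_bot_or_eq_top := fun P => ?_ }
  · exact (Submodule.nontrivial_iff (KLRAlg D)).2 inferInstance
  · by_cases hP : P = ⊥
    · exact Or.inl hP
    · refine Or.inr (XDUSMP.eq_top D P ?_)
      rcases LinearMap.injective_or_eq_zero (XDUSMP.res D P) with h1 | h1
      · exact h1
      · exfalso
        refine hP ((Submodule.eq_bot_iff P).2 fun φ hφ => ?_)
        refine Du.ext fun u => ?_
        rw [Du.ev_zero, ← XDUSMP.ev_res D P u ⟨φ, hφ⟩, h1, LinearMap.zero_apply, Du.ev_zero]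

end Pool.Agent.KLR
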