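import Pool.Agent.Work.MP_e487d8_al.Mo.Head
import Pool.Agent.Work.MP_e487d8_al.Cry.Ind

/-! MP_e487d8_al, block MO, item HDC: if `C` commutes with `L(i)` then `ε_i` is additive on the
simple quotients of `C ∘ X`. -/

set_option autoImplicit false

open Pool.Agent.E487.Hopf

namespace Pool.Agent.KLR

variable {K I : Type} [Field K] [Fintype I] [DecidableEq I] (D : Datum K I)

namespace XHDC

section

variable {D} {m m' n : ℕ} {A B M M' N N' : Type}
  [AddCommGroup A] [Module (KLRAlg D) A] [AddCommGroup B] [Module (KLRAlg D) B]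
  [AddCommGroup M] [Module K M] [Module (KLRAlg D) M] [IsScalarTower K (KLRAlg D) M]
  [AddCommGroup N] [Module K N] [Module (KLRAlg D) N] [IsScalarTower K (KLRAlg D) N]
  [AddCommGroup M'] [Module K M'] [Module (KLRAlg D) M'] [IsScalarTower K (KLRAlg D) M']
  [AddCommGroup N'] [Module K N'] [Module (KLRAlg D) N'] [IsScalarTower K (KLRAlg D) N']

theorem quo_refl : Quo D A A := ⟨LinearMap.id, Function.surjective_id⟩

theorem quo_equiv (e : A ≃ₗ[KLRAlg D] B) : Quo D B A := ⟨e.toLinearMap, e.surjective⟩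

theorem quo_trans {C : Type} [AddCommGroup C] [Module (KLRAlg D) C] (h : Quo D A B)
    (h' : Quo D B C) : Quo D A C := by
  obtain ⟨f, hf⟩ := h
  obtain ⟨g, hg⟩ := h'
  exact ⟨f.comp g, hf.comp hg⟩

theorem quo_map (h : m = m') (hM : Quo D M' M) (hN : Quo D N' N) :
    Quo D (Conv D m' M' N') (Conv D m M N) := by
  obtain ⟨f, hf⟩ := hM
  obtain ⟨g, hg⟩ := hN
  exact ⟨Conv.map h f g, Conv.map_surjective h f g hf hg⟩

end

theorem chLp_mul' (i : I) (b a : ℕ) :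
    (chLp i b * chLp i a : Sh I ℚ) = chLp i (b + a) := by
  induction b with
  | zero => rw [chLp_zero, one_mul, Nat.zero_add]
  | succ b ih =>
    rw [Nat.add_comm b 1, ← chLp_mul, mul_assoc, ih, chLp_mul]
    congr 1
    omega

variable {D}

theorem chq_Lp {Lp : I → ℕ → SMod D} (hC : CFacts D Lp) (i : I) (a : ℕ) :
    (Lp i a).chq = chLp i a := by
  apply Sh.ext'
  intro w
  show (((Lp i a).ch w : ℕ) : ℚ) = _
  rw [hC.ch_Lp]
  unfold chLp
  split_ifs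
  · rfl
  · exact Nat.cast_zero

/-- `X` is a quotient of `L(i^b) ∘ X'` -/
theorem quo_of_emax {Lp : I → ℕ → SMod D} (hC : CFacts D Lp) {i : I} {b : ℕ} {X X' : SMod D}
    (h : SMod.Emax i b X X') : Quo D X.M ((Lp i b).conv X') := by
  obtain ⟨a, Y, h1, h2⟩ := hC.res i X
  obtain ⟨h3, h4⟩ := SMod.Emax.unique rfl h1 h
  subst h3
  exact SMod.quo_congr (SMod.Iso.refl _) (Sm.iso_rep hC h4) (SMod.Iso.refl _) h2

theorem L_chq {i : I} {X : SMod D} (h : ∀ ν, X.ch (i :: ν) = 0) : Sh.L i X.chq = 0 := by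
  apply Sh.ext'
  intro w
  show ((X.ch (i :: w) : ℕ) : ℚ) = 0
  rw [h, Nat.cast_zero]

end XHDC

open XHDC in
theorem Mo.I_HDC (hL : StLphd D) (hP : StLpic D) : StHdc D := by
  intro Lp hB i a b C C' X X' Z hIC hEC hEX hZ
  obtain ⟨hb, hC⟩ := id hB
  have hconv : S_conv D := fun m n M N _ _ _ _ _ _ _ _ hM hN => Conv.fdMod_chrQ hb hM hN
  have hfd : FdMod D (C'.n + X'.n) (C'.conv X') := Sm.fd_conv hconv C' X'
  have hchr : ∀ ν, chr D (C'.n + X'.n) (C'.conv X') (i :: ν) = 0 := by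
    intro ν
    have h1 : chrQ D (C'.n + X'.n) (C'.conv X') (i :: ν) = 0 := by
      rw [Sm.chrQ_conv hconv, ← Sh.L_apply i (C'.chq * X'.chq) ν, Sh.L_mul, L_chq hEC.2.2,
        L_chq hEX.2.2, zero_mul, mul_zero, add_zero, Sh.zero_apply]
    rw [chrQ_apply] at h1
    exact_mod_cast h1
  obtain ⟨e⟩ := hP Lp hB i C hIC b
  obtain ⟨e'⟩ := Sm.iso_conv' hC hconv (X := Lp i b) (Y := Lp i a) (Z := Lp i (a + b))
    (by rw [chq_Lp hC, chq_Lp hC, chq_Lp hC, chLp_mul', Nat.add_comm])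
  have hnC : C.n = (Lp i a).n + C'.n := by rw [hC.n_Lp]; exact hEC.1
  -- `Z` is a quotient of `C ∘ (L(i^b) ∘ X')`
  have h1 : Quo D Z.M (Conv D C.n C.M ((Lp i b).conv X')) :=
    quo_trans hZ (quo_map rfl quo_refl (quo_of_emax hC hEX))
  -- of `(C ∘ L(i^b)) ∘ X'`
  have h2 : Quo D Z.M (Conv D (C.n + (Lp i b).n) (C.conv (Lp i b)) X'.M) :=
    quo_trans h1 (quo_equiv (Conv.assoc D C.n (Lp i b).n C.M (Lp i b).M X'.M))
  -- of `(L(i^b) ∘ C) ∘ X'`
  have h3 : Quo D Z.M (Conv D ((Lp i b).n + C.n) ((Lp i b).conv C) X'.M) :=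
    quo_trans h2 (quo_map (Nat.add_comm _ _) (quo_equiv e) quo_refl)
  -- of `L(i^b) ∘ (C ∘ X')`
  have h4 : Quo D Z.M (Conv D (Lp i b).n (Lp i b).M (C.conv X')) :=
    quo_trans h3 (quo_equiv (Conv.assoc D (Lp i b).n C.n (Lp i b).M C.M X'.M).symm)
  -- of `L(i^b) ∘ (L(i^a) ∘ (C' ∘ X'))`
  have h5 : Quo D Z.M (Conv D (Lp i b).n (Lp i b).M
      (Conv D ((Lp i a).n + C'.n) ((Lp i a).conv C') X'.M)) :=
    quo_trans h4 (quo_map rfl quo_refl (quo_map hnC.symm (quo_of_emax hC hEC) quo_refl))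
  have h6 : Quo D Z.M (Conv D (Lp i b).n (Lp i b).M
      (Conv D (Lp i a).n (Lp i a).M (C'.conv X'))) :=
    quo_trans h5 (quo_map rfl quo_refl
      (quo_equiv (Conv.assoc D (Lp i a).n C'.n (Lp i a).M C'.M X'.M).symm))
  -- of `L(i^(a+b)) ∘ (C' ∘ X')`
  have h7 : Quo D Z.M (Conv D ((Lp i b).n + (Lp i a).n) ((Lp i b).conv (Lp i a)) (C'.conv X')) :=
    quo_trans h6 (quo_equiv (Conv.assoc D (Lp i b).n (Lp i a).n (Lp i b).M (Lp i a).M
      (C'.conv X')))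
  have h8 : Quo D Z.M (Conv D (a + b) (Lp i (a + b)).M (C'.conv X')) :=
    quo_trans h7 (quo_map (by rw [hC.n_Lp, hC.n_Lp, Nat.add_comm]) (quo_equiv e'.symm) quo_refl)
  obtain ⟨Q, hQ1, hQ2, -⟩ := hL Lp hB i (a + b) (C'.n + X'.n) (C'.conv X') hfd hchr Z h8
  exact ⟨Q, hQ2, hQ1⟩

end Pool.Agent.KLR
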