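import Pool.Agent.Work.MP_e487d8_al.Mo.Head
import Pool.Agent.Work.MP_e487d8_al.Mod.Fd

/-! MP_e487d8_al, module side, item ICC: commuting simple modules. -/

set_option autoImplicit false

open Pool.Agent.E487.Hopf

namespace Pool.Agent.KLR

variable {K I : Type} [Field K] [Fintype I] [DecidableEq I] (D : Datum K I)

namespace XICC

theorem conv_of_basis (hb : S_basis D) : S_conv D :=
  fun _ _ _ _ _ _ _ _ _ _ _ _ hM hN => Conv.fdMod_chrQ hb hM hN

end XICC

theorem Mo.I_ICC : StIcc D := by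
  intro Lp h X Y hXY
  have hconv := XICC.conv_of_basis D h.1
  obtain ⟨Z, hZ⟩ := (Sm.comm_iff h.2 hconv X Y).1 hXY
  have h1 : X.chq * Y.chq = Z.rep.chq := by rw [Sm.chq_rep, hZ]
  obtain ⟨e⟩ := Sm.iso_conv' h.2 hconv h1
  obtain ⟨e'⟩ := Sm.iso_conv' h.2 hconv ((mul_comm Y.chq X.chq).trans h1)
  exact ⟨e.trans e'.symm⟩

end Pool.Agent.KLR
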