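import Pool.Agent.Work.MP_e487d8_al.Mo.Head
import Pool.Agent.Work.MP_e487d8_al.Mod.Fd
import Pool.Agent.Work.MP_e487d8_al.Conv.Assoc
import Pool.Agent.Work.MP_e487d8_al.Conv.Fin

/-! MP_e487d8_al, module side, item ICM: if `X` commutes with `A` and `B` then `X` commutes with
the simple product `AB`. -/

set_option autoImplicit false
set_option linter.unusedSectionVars false

namespace Pool.Agent.KLR

variable {K I : Type} [Field K] [Fintype I] [DecidableEq I] (D : Datum K I)

namespace XICM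

section

variable {D}
variable {m m' n : ℕ} {M M' N N' : Type}
  [AddCommGroup M] [Module K M] [Module (KLRAlg D) M] [IsScalarTower K (KLRAlg D) M]
  [AddCommGroup M'] [Module K M'] [Module (KLRAlg D) M'] [IsScalarTower K (KLRAlg D) M']
  [AddCommGroup N] [Module K N] [Module (KLRAlg D) N] [IsScalarTower K (KLRAlg D) N]
  [AddCommGroup N'] [Module K N'] [Module (KLRAlg D) N'] [IsScalarTower K (KLRAlg D) N']

/-- an isomorphism in the first factor -/
noncomputable def eqL (h : m = m') (f : M ≃ₗ[KLRAlg D] M') :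
    Conv D m M N ≃ₗ[KLRAlg D] Conv D m' M' N :=
  LinearEquiv.ofLinearMap (Conv.map h f.toLinearMap LinearMap.id)
    (Conv.map h.symm f.symm.toLinearMap LinearMap.id)
    (by apply Conv.hom_ext; intro u v; simp)
    (by apply Conv.hom_ext; intro u v; simp)

/-- an isomorphism in the second factor -/
noncomputable def eqR (g : N ≃ₗ[KLRAlg D] N') :
    Conv D m M N ≃ₗ[KLRAlg D] Conv D m M N' :=
  LinearEquiv.ofLinearMap (Conv.map rfl LinearMap.id g.toLinearMap)
    (Conv.map rfl LinearMap.id g.symm.toLinearMap)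
    (by apply Conv.hom_ext; intro u v; simp)
    (by apply Conv.hom_ext; intro u v; simp)

theorem st_unique {n m : ℕ} {M : Type} [AddCommGroup M] [Module (KLRAlg D) M] [Nontrivial M]
    (h : IsStrand D n M) (h' : IsStrand D m M) : n = m := by
  obtain ⟨u, hu⟩ := exists_ne (0 : M)
  rcases lt_trichotomy n m with h1 | h1 | h1
  · exact absurd ((h'.one n h1 u).symm.trans (h.E_smul_zero le_rfl u)) hu
  · exact h1
  · exact absurd ((h.one m h1 u).symm.trans (h'.E_smul_zero le_rfl u)) hu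

theorem st_surj {n : ℕ} {M N : Type} [AddCommGroup M] [Module (KLRAlg D) M]
    [AddCommGroup N] [Module (KLRAlg D) N] (h : IsStrand D n M) (f : M →ₗ[KLRAlg D] N)
    (hf : Function.Surjective f) : IsStrand D n N where
  one k hk u := by
    obtain ⟨u, rfl⟩ := hf u
    rw [← map_smul, h.one k hk]
  zero k hk i u := by
    obtain ⟨u, rfl⟩ := hf u
    rw [← map_smul, h.zero k hk, map_zero]

theorem nontriv (X : SMod D) : Nontrivial X.M := by
  have := X.smp.simple
  exact IsSimpleModule.nontrivial (KLRAlg D) X.M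

end

end XICM

open XICM in
theorem Mo.I_ICM : StIcm D := by
  rintro Lp hB X A B AB hc ⟨e1⟩ ⟨e2⟩
  have hconv : S_conv D := fun _ _ _ _ _ _ _ _ _ _ _ _ hM hN => Conv.fdMod_chrQ hB.1 hM hN
  obtain ⟨e⟩ := Sm.iso_conv' hB.2 hconv hc
  have := nontriv AB
  have hab : A.n + B.n = AB.n :=
    st_unique (M := AB.M) (st_surj (Conv.isStrand A.smp.strand B.smp.strand) e.toLinearMap
      e.surjective) AB.smp.strand
  have s1 : X.conv AB ≃ₗ[KLRAlg D] Conv D X.n X.M (Conv D A.n A.M B.M) := (eqR e).symm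
  have s2 : Conv D (X.n + A.n) (Conv D X.n X.M A.M) B.M ≃ₗ[KLRAlg D]
      Conv D X.n X.M (Conv D A.n A.M B.M) := Conv.assoc D X.n A.n X.M A.M B.M
  have s3 : Conv D (X.n + A.n) (Conv D X.n X.M A.M) B.M ≃ₗ[KLRAlg D]
      Conv D (A.n + X.n) (Conv D A.n A.M X.M) B.M := eqL (Nat.add_comm _ _) e1
  have s4 : Conv D (A.n + X.n) (Conv D A.n A.M X.M) B.M ≃ₗ[KLRAlg D]
      Conv D A.n A.M (Conv D X.n X.M B.M) := Conv.assoc D A.n X.n A.M X.M B.M
  have s5 : Conv D A.n A.M (Conv D X.n X.M B.M) ≃ₗ[KLRAlg D]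
      Conv D A.n A.M (Conv D B.n B.M X.M) := eqR e2
  have s6 : Conv D (A.n + B.n) (Conv D A.n A.M B.M) X.M ≃ₗ[KLRAlg D]
      Conv D A.n A.M (Conv D B.n B.M X.M) := Conv.assoc D A.n B.n A.M B.M X.M
  have s7 : Conv D (A.n + B.n) (Conv D A.n A.M B.M) X.M ≃ₗ[KLRAlg D]
      AB.conv X := eqL hab e
  exact ⟨(((((s1.trans s2.symm).trans s3).trans s4).trans s5).trans s6.symm).trans s7⟩

end Pool.Agent.KLR
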