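import Pool.Agent.Work.MP_e487d8_al.Mo.Head
import Pool.Agent.Work.MP_e487d8_al.Conv.K0

/-! MP_e487d8_al, block MO, item K0N: the composition `N ∘ A → N ∘ C ∘ M → E ∘ M` is not zero if
`C` is simple. -/

set_option autoImplicit false

namespace Pool.Agent.KLR

variable {K I : Type} [Field K] [Fintype I] [DecidableEq I] (D : Datum K I)

namespace XK0N

section

variable {D} {m n : ℕ} {M N : Type}
  [AddCommGroup M] [Module K M] [Module (KLRAlg D) M] [IsScalarTower K (KLRAlg D) M]
  [AddCommGroup N] [Module K N] [Module (KLRAlg D) N] [IsScalarTower K (KLRAlg D) N]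

omit [IsScalarTower K (KLRAlg D) M] in
theorem subL_bot : Conv.subL m (⊥ : Submodule (KLRAlg D) M) N = ⊥ := by
  rw [eq_bot_iff, Conv.subL, Submodule.span_le]
  rintro z ⟨⟨u, hu⟩, v, rfl⟩
  rw [Submodule.mem_bot] at hu
  subst hu
  simp

theorem subR_top : Conv.subR m M (⊤ : Submodule (KLRAlg D) N) = ⊤ := by
  rw [eq_top_iff]
  intro z _
  induction z using Conv.induction with
  | h0 => exact Submodule.zero_mem _
  | hadd y z hy hz => exact Submodule.add_mem _ (hy trivial) (hz trivial)
  | h a u v => exact Submodule.smul_mem _ _ (Conv.mk_mem_subR u Submodule.mem_top)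

end

end XK0N

theorem Mo.I_K0N : StK0n D := by
  intro hb n m l p q A M C N E _ _ _ _ _ _ _ _ _ _ _ _ _ _ _ _ _ _ _ _ hA hM hC hN hE hp hq hs
    f g hf hg h0
  subst hq
  have key : ∀ a : N, ∀ y ∈ LinearMap.range f, (Conv.assoc D n l N C M).symm
      (Conv.mk D n N (Conv D l C M) a y) ∈ Conv.subL (n + l) (LinearMap.ker g) M := by
    rintro a _ ⟨u, rfl⟩
    rw [← Conv.ker_map_left hb hM (Conv.isStrand hN hC) hE g, LinearMap.mem_ker]
    have h1 := LinearMap.congr_fun h0 (Conv.mk D n N A a u)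
    rw [LinearMap.comp_apply, LinearMap.comp_apply, Conv.map_mk, LinearMap.id_apply,
      LinearMap.zero_apply] at h1
    exact h1
  obtain ⟨P, h1, h2⟩ := Conv.K0' hb hN hC hM (LinearMap.ker g) (LinearMap.range f) key
  rcases eq_bot_or_eq_top P with hP | hP
  · rw [hP, XK0N.subL_bot] at h1
    exact hf (LinearMap.range_eq_bot.1 (eq_bot_iff.2 h1))
  · rw [hP, XK0N.subR_top] at h2
    exact hg (LinearMap.ker_eq_top.1 (eq_top_iff.2 h2))

end Pool.Agent.KLR
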