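import Pool.Agent.Work.MP_e487d8_al.Mo.Head
import Pool.Agent.Work.MP_e487d8_al.Mod.Fd

/-! MP_e487d8_al, module side, item K1: `C^m ∘ B` has exactly one maximal submodule. -/

set_option autoImplicit false
set_option linter.unusedSectionVars false

namespace Pool.Agent.KLR

variable {K I : Type} [Field K] [Fintype I] [DecidableEq I] (D : Datum K I)

namespace XK1

/-- two nonzero elements of a space of dimension at most one are proportional -/
theorem prop_of_finrank {V : Type} [AddCommGroup V] [Module K V] [FiniteDimensional K V]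
    (h : Module.finrank K V ≤ 1) {r r' : V} (hr : r ≠ 0) : ∃ c : K, c • r = r' := by
  have h1 : Module.finrank K V = 1 := by
    have h2 : 0 < Module.finrank K V := Module.finrank_pos_iff.2 ⟨r, 0, hr⟩
    omega
  exact (finrank_eq_one_iff_of_nonzero' r hr).1 h1 r'

end XK1

theorem Mo.I_K1 (hW : StSwap D) (hE : StK1e D) : StK1 D := by
  intro Lp hB B C T m hC hD hT
  have hb : S_basis D := hB.1
  have hconv : S_conv D := fun m n M N _ _ _ _ _ _ _ _ hM hN => Conv.fdMod_chrQ hb hM hN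
  have hfd : FdMod D (T.n + B.n) (T.conv B) := Sm.fd_conv hconv T B
  have hfd' : FdMod D (B.n + T.n) (B.conv T) := Sm.fd_conv hconv B T
  have := hfd.fd
  have := hfd'.fd
  have : Nontrivial (T.conv B) := Sm.conv_nontrivial hconv T B
  have : FiniteDimensional K (T.conv B →ₗ[KLRAlg D] B.conv T) := homFin
  obtain ⟨S, -, f, hf⟩ := Sm.exists_quo hfd
  refine ⟨S, f, hf, fun N hN => ?_⟩
  have hnoe : IsNoetherian (KLRAlg D) (T.conv B) := isNoetherian_of_tower K inferInstance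
  obtain ⟨P, hP, hNP⟩ := (eq_top_or_exists_le_coatom N).resolve_left hN
  let S' : SMod D := ⟨T.n + B.n, T.conv B ⧸ P, ⟨hfd.quot P, isSimpleModule_iff_isCoatom.2 hP⟩⟩
  obtain ⟨j, hj⟩ := (hW hb Lp hB.2 T B S).1 ⟨f, hf⟩
  obtain ⟨j', hj'⟩ := (hW hb Lp hB.2 T B S').1 ⟨P.mkQ, P.mkQ_surjective⟩
  have hk : LinearMap.ker (j ∘ₗ f) = LinearMap.ker f := by
    rw [LinearMap.ker_comp, LinearMap.ker_eq_bot.2 hj, Submodule.comap_bot]
  have hk' : LinearMap.ker (j' ∘ₗ P.mkQ) = P := by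
    rw [LinearMap.ker_comp]
    erw [LinearMap.ker_eq_bot.2 hj']
    rw [Submodule.comap_bot, Submodule.ker_mkQ]
  have hne : j' ∘ₗ P.mkQ ≠ 0 := by
    intro h0
    rw [h0, LinearMap.ker_zero] at hk'
    exact hP.1 hk'.symm
  have h1 := hE Lp hB B C T m hC hD hT
  obtain ⟨c, hc⟩ := XK1.prop_of_finrank h1 (r := j' ∘ₗ P.mkQ) (r' := j ∘ₗ f) hne
  intro u hu
  have h2 : u ∈ LinearMap.ker (j' ∘ₗ P.mkQ) := by
    rw [hk']
    exact hNP hu
  rw [← hk, LinearMap.mem_ker, ← hc]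
  show c • ((j' ∘ₗ P.mkQ) u) = 0
  rw [LinearMap.mem_ker.1 h2, smul_zero]

end Pool.Agent.KLR
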