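import Pool.Agent.Work.MP_e487d8_al.Mo.Head

/-! MP_e487d8_al, module side: K1A, the inequality for the dimensions of the homomorphism spaces. -/

set_option autoImplicit false
set_option linter.unusedSectionVars false

namespace Pool.Agent.KLR

variable {K I : Type} [Field K] [Fintype I] [DecidableEq I] (D : Datum K I)

namespace XK1A

variable {D}

theorem fin_conv (hb : S_basis D) (X Y : SMod D) : FiniteDimensional K (X.conv Y) := by
  have := X.smp.fd
  have := Y.smp.fd
  exact Conv.finiteDimensional hb X.smp.strand Y.smp.strand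

end XK1A

theorem Mo.I_K1A (h1 : StK1p D) (h2 : StK1s D) : StK1a D := by
  intro hb B S P X Q R₁ R₂ G Y Z hP hS hY hZ
  have hPf := P.smp.fd
  have hGf := G.smp.fd
  have hBR₁ := XK1A.fin_conv hb B R₁
  have hBR₂ := XK1A.fin_conv hb B R₂
  have hBZ := XK1A.fin_conv hb B Z
  have hYG := XK1A.fin_conv hb Y G
  have hf1 : FiniteDimensional K (P.M →ₗ[KLRAlg D] B.conv R₁) := homFin
  have hf2 : FiniteDimensional K (G.M →ₗ[KLRAlg D] B.conv R₂) := homFin
  have hf3 : FiniteDimensional K (Y.conv G →ₗ[KLRAlg D] B.conv Z) := homFin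
  obtain ⟨ψ, hψ⟩ := h1 hb B S P X Q R₂ G Y hP hS hY
  obtain ⟨θ, hθ⟩ := h2 hb B P R₁ R₂ Z (Module.finrank K (P.M →ₗ[KLRAlg D] B.conv R₁))
    (fun i => Module.finBasis K (P.M →ₗ[KLRAlg D] B.conv R₁) i)
    (Module.finBasis K (P.M →ₗ[KLRAlg D] B.conv R₁)).linearIndependent hZ (Y.conv G)
  have h3 : Function.Injective (θ ∘ₗ LinearMap.compLeft ψ
      (Fin (Module.finrank K (P.M →ₗ[KLRAlg D] B.conv R₁)))) := by
    rw [LinearMap.coe_comp]
    refine hθ.comp fun a b hab => ?_
    funext i
    exact hψ (congrFun hab i)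
  have h4 := LinearMap.finrank_le_finrank_of_injective h3
  rwa [Module.finrank_pi_fintype, Finset.sum_const, Finset.card_univ, Fintype.card_fin,
    smul_eq_mul] at h4

end Pool.Agent.KLR
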