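import Pool.Agent.Work.MP_e487d8_al.Mo.Head

/-! MP_e487d8_al: K1B, monotonicity of the dimensions of `Hom(P, B ∘ R)` -/

set_option autoImplicit false

open scoped TensorProduct

namespace Pool.Agent.KLR

variable {K I : Type} [Field K] [Fintype I] [DecidableEq I] (D : Datum K I)

namespace XK1B

variable {D} {m m' n : ℕ} {M M' N : Type}
  [AddCommGroup M] [Module K M] [Module (KLRAlg D) M] [IsScalarTower K (KLRAlg D) M]
  [AddCommGroup M'] [Module K M'] [Module (KLRAlg D) M'] [IsScalarTower K (KLRAlg D) M']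
  [AddCommGroup N] [Module K N] [Module (KLRAlg D) N] [IsScalarTower K (KLRAlg D) N]

theorem map_add_left (h : m = m') (f g : M →ₗ[KLRAlg D] M') :
    Conv.map h (f + g) (LinearMap.id : N →ₗ[KLRAlg D] N) =
      Conv.map h f LinearMap.id + Conv.map h g LinearMap.id := by
  apply Conv.hom_ext
  intro u v
  rw [LinearMap.add_apply, Conv.map_mk, Conv.map_mk, Conv.map_mk, LinearMap.add_apply, map_add,
    LinearMap.add_apply]

theorem map_smul_left (h : m = m') (c : K) (f : M →ₗ[KLRAlg D] M') :
    Conv.map h (c • f) (LinearMap.id : N →ₗ[KLRAlg D] N) =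
      c • Conv.map h f LinearMap.id := by
  apply Conv.hom_ext
  intro u v
  rw [homK_smul_apply, Conv.map_mk, Conv.map_mk, homK_smul_apply, map_smul, LinearMap.smul_apply]

/-- `f ↦ f ∘ id_N` -/
noncomputable def mapL (h : m = m') :
    (M →ₗ[KLRAlg D] M') →ₗ[K] (Conv D m M N →ₗ[KLRAlg D] Conv D m' M' N) where
  toFun f := Conv.map h f LinearMap.id
  map_add' f g := map_add_left h f g
  map_smul' c f := map_smul_left h c f

theorem mapL_injective (hb : S_basis D) (h : m = m') (hM' : IsStrand D m' M')
    (hN : IsStrand D n N) [Nontrivial N] :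
    Function.Injective (mapL h : (M →ₗ[KLRAlg D] M') →ₗ[K]
      (Conv D m M N →ₗ[KLRAlg D] Conv D m' M' N)) := by
  rw [injective_iff_map_eq_zero]
  intro f hf
  obtain ⟨v, hv⟩ := exists_ne (0 : N)
  ext u
  have h1 : Conv.map h f (LinearMap.id : N →ₗ[KLRAlg D] N) (Conv.mk D m M N u v) = 0 := by
    have := LinearMap.congr_fun hf (Conv.mk D m M N u v)
    exact this
  rw [Conv.map_mk] at h1
  rcases Conv.mk_eq_zero hb hM' hN h1 with h2 | h2
  · exact h2
  · exact absurd h2 hv

/-- `id_M ∘ e` for an isomorphism `e` -/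
noncomputable def congrR (m : ℕ) (M : Type) [AddCommGroup M] [Module K M] [Module (KLRAlg D) M]
    [IsScalarTower K (KLRAlg D) M] (e : M' ≃ₗ[KLRAlg D] N) :
    Conv D m M M' ≃ₗ[KLRAlg D] Conv D m M N :=
  LinearEquiv.ofLinearMap (Conv.map (rfl : m = m) (LinearMap.id : M →ₗ[KLRAlg D] M) e.toLinearMap)
    (Conv.map (rfl : m = m) (LinearMap.id : M →ₗ[KLRAlg D] M) e.symm.toLinearMap)
    (by
      apply Conv.hom_ext
      intro u v
      rw [LinearMap.comp_apply, Conv.map_mk, Conv.map_mk, LinearMap.id_apply]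
      simp)
    (by
      apply Conv.hom_ext
      intro u v
      rw [LinearMap.comp_apply, Conv.map_mk, Conv.map_mk, LinearMap.id_apply]
      simp)

theorem strand_unique {n k : ℕ} {M : Type} [AddCommGroup M] [Module (KLRAlg D) M] [Nontrivial M]
    (h : IsStrand D n M) (h' : IsStrand D k M) : n = k := by
  obtain ⟨u, hu⟩ := exists_ne (0 : M)
  rcases lt_trichotomy n k with h1 | h1 | h1
  · exfalso
    have h2 := h'.one n h1 u
    rw [h.E_smul_zero le_rfl] at h2
    exact hu h2.symm
  · exact h1
  · exfalso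
    have h2 := h.one k h1 u
    rw [h'.E_smul_zero le_rfl] at h2
    exact hu h2.symm

end XK1B

theorem Mo.I_K1B : StK1b D := by
  intro hb B C P P' R R' h1 h2
  obtain ⟨e1⟩ := h1
  obtain ⟨e2⟩ := h2
  have : FiniteDimensional K B.M := B.smp.fd
  have : FiniteDimensional K R'.M := R'.smp.fd
  have : FiniteDimensional K P'.M := P'.smp.fd
  have hPs := P.smp.simple
  have hCs := C.smp.simple
  have : Nontrivial P.M := IsSimpleModule.nontrivial (KLRAlg D) P.M
  have : Nontrivial C.M := IsSimpleModule.nontrivial (KLRAlg D) C.M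
  have hBR : IsStrand D (B.n + R.n) (B.conv R) := Conv.isStrand B.smp.strand R.smp.strand
  by_cases hn : P.n = B.n + R.n
  · have : FiniteDimensional K (B.conv R') := Conv.finiteDimensional hb B.smp.strand R'.smp.strand
    have : FiniteDimensional K (P'.M →ₗ[KLRAlg D] B.conv R') := homFin
    let e3 : Conv D (B.n + R.n) (B.conv R) C.M ≃ₗ[KLRAlg D] B.conv R' :=
      (Conv.assoc D B.n R.n B.M R.M C.M).trans (XK1B.congrR B.n B.M e2)
    let Φ : (P.M →ₗ[KLRAlg D] B.conv R) →ₗ[K] (P'.M →ₗ[KLRAlg D] B.conv R') :=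
      { toFun := fun f => e3.toLinearMap ∘ₗ
          (XK1B.mapL (N := C.M) hn f) ∘ₗ e1.symm.toLinearMap
        map_add' := fun f g => by
          rw [map_add, LinearMap.add_comp, LinearMap.comp_add]
        map_smul' := fun c f => by
          rw [map_smul]
          ext u
          simp only [LinearMap.comp_apply, homK_smul_apply, RingHom.id_apply,
            LinearEquiv.coe_coe]
          exact (Conv.toK e3.toLinearMap).map_smul c _ }
    refine LinearMap.finrank_le_finrank_of_injective (f := Φ) ?_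
    intro f g hfg
    apply XK1B.mapL_injective hb hn hBR C.smp.strand
    ext u
    have h3 := LinearMap.congr_fun hfg (e1 u)
    simp only [Φ, LinearMap.coe_mk, AddHom.coe_mk, LinearMap.comp_apply, LinearEquiv.coe_coe,
      LinearEquiv.symm_apply_apply] at h3
    exact e3.injective h3
  · have h0 : ∀ f : P.M →ₗ[KLRAlg D] B.conv R, f = 0 := by
      intro f
      by_contra hf
      apply hn
      have hi : Function.Injective f := LinearMap.injective_of_ne_zero hf
      exact XK1B.strand_unique P.smp.strand (hBR.of_injective f hi)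
    have : Subsingleton (P.M →ₗ[KLRAlg D] B.conv R) := ⟨fun f g => by rw [h0 f, h0 g]⟩
    rw [Module.finrank_zero_of_subsingleton]
    exact Nat.zero_le _

end Pool.Agent.KLR
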