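import Pool.Agent.Work.MP_e487d8_al.Mo.Head

set_option autoImplicit false
set_option linter.unusedSectionVars false

open scoped TensorProduct

namespace Pool.Agent.KLR

variable {K I : Type} [Field K] [Fintype I] [DecidableEq I] (D : Datum K I)

namespace XK1C

variable {D} {P M : Type} [AddCommGroup P] [Module K P] [Module (KLRAlg D) P]
  [IsScalarTower K (KLRAlg D) P] [AddCommGroup M] [Module K M] [Module (KLRAlg D) M]
  [IsScalarTower K (KLRAlg D) M]

/-- the map `u ↦ ∑ f_i (u_i)` -/
noncomputable def big {h : ℕ} (f : Fin h → (P →ₗ[KLRAlg D] M)) : (Fin h → P) →ₗ[K] M :=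
  ∑ i, (homK (f i)) ∘ₗ (LinearMap.proj i : (Fin h → P) →ₗ[K] P)

theorem big_apply {h : ℕ} (f : Fin h → (P →ₗ[KLRAlg D] M)) (u : Fin h → P) :
    big f u = ∑ i, f i (u i) := by
  unfold big
  rw [LinearMap.sum_apply]
  rfl

end XK1C

theorem Mo.I_K1C (h : StInj D) : StK1c D := by
  intro hb P n M _ _ _ _ hM
  have : FiniteDimensional K M := hM.fd
  have : FiniteDimensional K (P.M →ₗ[KLRAlg D] M) := homFin
  let b := Module.finBasis K (P.M →ₗ[KLRAlg D] M)
  have hinj : Function.Injective (XK1C.big (fun i => b i)) := by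
    rw [← LinearMap.ker_eq_bot, LinearMap.ker_eq_bot']
    intro u hu
    rw [XK1C.big_apply] at hu
    exact h hb P M _ (fun i => b i) b.linearIndependent u hu
  have h1 := LinearMap.finrank_le_finrank_of_injective hinj
  rw [Module.finrank_pi_fintype] at h1
  simpa using h1

end Pool.Agent.KLR
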