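import Pool.Agent.Work.MP_e487d8_al.Mo.Head
import Pool.Agent.Work.MP_e487d8_al.Mod.Fd

/-! MP_e487d8_al, module side, item K1D: `dim Hom(C^m ∘ S, B ∘ C^(m+n)) ≤ 1`. -/

set_option autoImplicit false
set_option linter.unusedSectionVars false

open Pool.Agent.E487.Hopf

namespace Pool.Agent.KLR

variable {K I : Type} [Field K] [Fintype I] [DecidableEq I] (D : Datum K I)

namespace XK1D

variable {D}

theorem sconv (hb : S_basis D) : S_conv D :=
  fun _ _ _ _ _ _ _ _ _ _ _ _ hM hN => Conv.fdMod_chrQ hb hM hN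

/-- dimension divided by the order of the symmetric group -/
noncomputable def chi (X : SMod D) : ℚ := (Module.finrank K X.M : ℚ) / (X.n.factorial : ℚ)

theorem chi_pos (X : SMod D) : 0 < chi X := by
  have h1 := X.smp.simple
  have h2 := X.smp.fd
  have h3 : Nontrivial X.M := IsSimpleModule.nontrivial (KLRAlg D) X.M
  have h4 : 0 < Module.finrank K X.M := Module.finrank_pos
  unfold chi
  positivity

theorem n_conv (hb : S_basis D) {X Y Z : SMod D} (h : Nonempty (X.conv Y ≃ₗ[KLRAlg D] Z.M)) :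
    Z.n = X.n + Y.n := by
  obtain ⟨g⟩ := h
  exact quo_strand (Sm.fd_conv (sconv hb) X Y) ⟨g.toLinearMap, g.surjective⟩

theorem finrank_equiv {M N : Type} [AddCommGroup M] [Module K M] [Module (KLRAlg D) M]
    [IsScalarTower K (KLRAlg D) M] [AddCommGroup N] [Module K N] [Module (KLRAlg D) N]
    [IsScalarTower K (KLRAlg D) N] (g : M ≃ₗ[KLRAlg D] N) :
    Module.finrank K M = Module.finrank K N :=
  LinearEquiv.finrank_eq (LinearEquiv.ofBijective (Conv.toK g.toLinearMap) g.bijective)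

theorem dim_conv (hb : S_basis D) (X Y : SMod D) : Module.finrank K (X.conv Y) =
    (X.n + Y.n).choose X.n * (Module.finrank K X.M * Module.finrank K Y.M) := by
  have := X.smp.fd
  have := Y.smp.fd
  exact Conv.finrank hb X.smp.strand Y.smp.strand

theorem chi_dim (hb : S_basis D) (X Y : SMod D) :
    (Module.finrank K (X.conv Y) : ℚ) / ((X.n + Y.n).factorial : ℚ) = chi X * chi Y := by
  rw [dim_conv hb, chi, chi]
  have h1 : ((X.n + Y.n).choose X.n : ℚ) * X.n.factorial * Y.n.factorial =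
      (X.n + Y.n).factorial := by
    exact_mod_cast Nat.choose_symm_add ▸ Nat.add_choose_mul_factorial_mul_factorial X.n Y.n
  have h2 : ((X.n + Y.n).factorial : ℚ) ≠ 0 := by exact_mod_cast Nat.factorial_ne_zero _
  have h3 : (X.n.factorial : ℚ) ≠ 0 := by exact_mod_cast Nat.factorial_ne_zero _
  have h4 : (Y.n.factorial : ℚ) ≠ 0 := by exact_mod_cast Nat.factorial_ne_zero _
  push_cast
  field_simp
  linear_combination (Module.finrank K X.M : ℚ) * Module.finrank K Y.M * h1

theorem chi_conv (hb : S_basis D) {X Y Z : SMod D} (h : Nonempty (X.conv Y ≃ₗ[KLRAlg D] Z.M)) :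
    chi Z = chi X * chi Y := by
  rw [← chi_dim hb, ← n_conv hb h]
  obtain ⟨g⟩ := h
  rw [finrank_equiv g]
  rfl

/-- transport of homomorphism spaces -/
theorem finrank_hom_le {A A' M M' : Type}
    [AddCommGroup A] [Module K A] [Module (KLRAlg D) A] [IsScalarTower K (KLRAlg D) A]
    [AddCommGroup A'] [Module K A'] [Module (KLRAlg D) A'] [IsScalarTower K (KLRAlg D) A']
    [AddCommGroup M] [Module K M] [Module (KLRAlg D) M] [IsScalarTower K (KLRAlg D) M]
    [AddCommGroup M'] [Module K M'] [Module (KLRAlg D) M'] [IsScalarTower K (KLRAlg D) M']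
    [FiniteDimensional K A'] [FiniteDimensional K M']
    (e : A' →ₗ[KLRAlg D] A) (he : Function.Surjective e) (g : M →ₗ[KLRAlg D] M')
    (hg : Function.Injective g) :
    Module.finrank K (A →ₗ[KLRAlg D] M) ≤ Module.finrank K (A' →ₗ[KLRAlg D] M') := by
  have : FiniteDimensional K (A' →ₗ[KLRAlg D] M') := homFin
  have h0 : ∀ (r : K) (u : M), g (r • u) = r • g u := (Conv.toK g).map_smul
  let φ : (A →ₗ[KLRAlg D] M) →ₗ[K] (A' →ₗ[KLRAlg D] M') :=
    { toFun := fun f => g ∘ₗ f ∘ₗ e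
      map_add' := fun f f' => by ext u; simp
      map_smul' := fun r f => by
        ext u
        change g ((r • f) (e u)) = r • g (f (e u))
        rw [homK_smul_apply, h0] }
  refine LinearMap.finrank_le_finrank_of_injective (f := φ) ?_
  intro f f' h
  ext u
  obtain ⟨u, rfl⟩ := he u
  exact hg (LinearMap.congr_fun h u)

theorem fd_of (hb : S_basis D) (X Y : SMod D) : FiniteDimensional K (X.conv Y) :=
  (Sm.fd_conv (sconv hb) X Y).fd

theorem iso_of_chq {Lp : I → ℕ → SMod D} (hC : CFacts D Lp) {X Y : SMod D} (h : X.chq = Y.chq) :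
    Nonempty (X.M ≃ₗ[KLRAlg D] Y.M) := by
  refine Sm.iso_rep hC ?_
  funext ν
  have h3 : (X.ch ν : ℚ) = (Y.ch ν : ℚ) := congrFun h ν
  exact_mod_cast h3

theorem n_eq {Lp : I → ℕ → SMod D} (hC : CFacts D Lp) {X Y : SMod D} (h : X.chq = Y.chq) :
    X.n = Y.n := SMod.n_eq_of_iso (iso_of_chq hC h)

theorem chi_eq {Lp : I → ℕ → SMod D} (hC : CFacts D Lp) {X Y : SMod D} (h : X.chq = Y.chq) :
    chi X = chi Y := by
  rw [chi, chi, n_eq hC h]
  obtain ⟨g⟩ := iso_of_chq hC h
  rw [finrank_equiv g]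

theorem chq_un (D : Datum K I) : (SMod.un D).chq = 1 := Sm.chq_one (D := D)

theorem chi_un : chi (SMod.un D) = 1 := by
  have h1 : IsStrand D 0 (SMod.un D).M := (SMod.un D).smp.strand
  have := (SMod.un D).smp.simple
  have h2 := finrank_one_of_strand h1
  rw [chi, h2]
  have h3 : (SMod.un D).n = 0 := rfl
  rw [h3]
  simp

/-- powers: strands and dimensions -/
theorem pw {Lp : I → ℕ → SMod D} (hb : S_basis D) (hC : CFacts D Lp) {C : SMod D}
    (hSR : C.SR) : ∀ (m : ℕ) (T : SMod D), C.Pw m T → T.n = m * C.n ∧ chi T = chi C ^ m := by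
  intro m
  induction m with
  | zero =>
    intro T hT
    have h1 : T.chq = (SMod.un D).chq := by rw [hT, pow_zero, chq_un]
    rw [n_eq hC h1, chi_eq hC h1, chi_un, pow_zero, zero_mul]
    exact ⟨rfl, rfl⟩
  | succ m ih =>
    intro T hT
    obtain ⟨T', hT'⟩ := hSR m
    obtain ⟨h1, h2⟩ := ih T' hT'
    have h3 : Nonempty (T'.conv C ≃ₗ[KLRAlg D] T.M) := by
      refine Sm.iso_conv' hC (sconv hb) ?_
      rw [hT', hT, pow_succ]
    rw [n_conv hb h3, chi_conv hb h3, h1, h2, pow_succ]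
    exact ⟨by ring, rfl⟩

end XK1D

open XK1D in
theorem Mo.I_K1D (hA : StK1a D) (hB : StK1b D) (hC : StK1c D) : StK1d D := by
  intro Lp hBase B C S T n hSR hT hS hSC
  obtain ⟨hb, hCF⟩ := hBase
  have _ := hB
  have hcv := sconv hb
  have hpw := pw hb hCF hSR
  choose Tm hTm using hSR
  choose Pm hPm using hSC
  set h : ℕ → ℕ := fun m => Module.finrank K ((Pm m).M →ₗ[KLRAlg D] B.conv (Tm (m + n))) with hh
  -- the number `h m` does not depend on the choices
  have hinv : ∀ (m : ℕ) (P R : SMod D), P.chq = C.chq ^ m * S.chq → C.Pw (m + n) R →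
      Module.finrank K (P.M →ₗ[KLRAlg D] B.conv R) ≤ h m := by
    intro m P R hP hR
    obtain ⟨e⟩ := iso_of_chq hCF ((hPm m).trans hP.symm)
    obtain ⟨g⟩ := iso_of_chq hCF (Eq.trans hR (hTm (m + n)).symm)
    have := (Pm m).smp.fd
    have := fd_of hb B (Tm (m + n))
    refine finrank_hom_le e.toLinearMap e.surjective
      (Conv.map (rfl : B.n = B.n) (LinearMap.id : B.M →ₗ[KLRAlg D] B.M) g.toLinearMap) ?_
    refine Function.LeftInverse.injective (g := Conv.map (rfl : B.n = B.n)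
      (LinearMap.id : B.M →ₗ[KLRAlg D] B.M) g.symm.toLinearMap) fun z => ?_
    rw [Conv.map_map, LinearMap.id_comp, LinearEquiv.symm_comp, Conv.map_id]
    rfl
  -- the inequality
  have hmul : ∀ m m' : ℕ, h m * h m' ≤ h (m + m' + n) := by
    intro m m'
    have h1 : Nonempty ((Tm m).conv S ≃ₗ[KLRAlg D] (Pm m).M) := by
      refine Sm.iso_conv' hCF hcv ?_
      rw [hPm m, hTm m]
    have h2 : Nonempty ((Tm m).conv T ≃ₗ[KLRAlg D] (Tm (m + n)).M) := by
      refine Sm.iso_conv' hCF hcv ?_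
      rw [hTm m, hTm (m + n), hT, pow_add]
    have h3 : Nonempty ((Tm (m + n)).conv (Tm (m' + n)) ≃ₗ[KLRAlg D]
        (Tm (m + m' + n + n)).M) := by
      refine Sm.iso_conv' hCF hcv ?_
      rw [hTm (m + n), hTm (m' + n), hTm (m + m' + n + n), ← pow_add]
      congr 1
      ring
    have h4 := hA hb B S (Pm m) T (Tm m) (Tm (m + n)) (Tm (m' + n)) (Pm m') (Tm (m + n))
      (Tm (m + m' + n + n)) h1 hS h2 h3
    refine h4.trans ?_
    obtain ⟨e⟩ : Nonempty ((Tm (m + n)).conv (Pm m') ≃ₗ[KLRAlg D] (Pm (m + m' + n)).M) := by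
      refine Sm.iso_conv' hCF hcv ?_
      rw [hTm (m + n), hPm m', hPm (m + m' + n), ← mul_assoc, ← pow_add]
      congr 2
      ring
    have := (Pm (m + m' + n)).smp.fd
    have := fd_of hb B (Tm (m + m' + n + n))
    exact finrank_hom_le e.symm.toLinearMap e.symm.surjective LinearMap.id
      Function.injective_id
  -- the bound
  have hbd : ∀ m : ℕ, (h m : ℚ) ≤ chi B * chi C ^ n / chi S := by
    intro m
    have h1 : Nonempty ((Tm m).conv S ≃ₗ[KLRAlg D] (Pm m).M) := by
      refine Sm.iso_conv' hCF hcv ?_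
      rw [hPm m, hTm m]
    have h2 := hC hb (Pm m) _ (B.conv (Tm (m + n))) (Sm.fd_conv hcv B (Tm (m + n)))
    obtain ⟨h3, h4⟩ := hpw m (Tm m) (hTm m)
    obtain ⟨h5, h6⟩ := hpw (m + n) (Tm (m + n)) (hTm (m + n))
    obtain ⟨h7, h8⟩ := hpw n T hT
    have h9 : S.n = T.n + B.n := quo_strand (Sm.fd_conv hcv T B) hS
    have h10 : (Pm m).n = B.n + (Tm (m + n)).n := by
      rw [n_conv hb h1, h3, h9, h7, h5]
      ring
    have h11 : (h m : ℚ) * (chi C ^ m * chi S) ≤ chi B * chi C ^ (m + n) := by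
      rw [← h4, ← chi_conv hb h1, ← h6, ← chi_dim hb, chi, h10, ← mul_div_assoc]
      have h12 : (0 : ℚ) < ((B.n + (Tm (m + n)).n).factorial : ℚ) := by
        exact_mod_cast Nat.factorial_pos _
      refine div_le_div_of_nonneg_right ?_ h12.le
      exact_mod_cast h2
    have h13 := chi_pos S
    have h14 : 0 < chi C ^ m := pow_pos (chi_pos C) m
    rw [le_div_iff₀ h13]
    refine le_of_mul_le_mul_left ?_ h14
    calc chi C ^ m * ((h m : ℚ) * chi S) = (h m : ℚ) * (chi C ^ m * chi S) := by ring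
      _ ≤ chi B * chi C ^ (m + n) := h11
      _ = chi C ^ m * (chi B * chi C ^ n) := by rw [pow_add]; ring
  -- the maximum
  obtain ⟨m₀, hm₀⟩ : ∃ m₀, ∀ m, h m ≤ h m₀ := by
    have hbdd : BddAbove (Set.range h) := by
      obtain ⟨N, hN⟩ := exists_nat_ge (chi B * chi C ^ n / chi S)
      refine ⟨N, ?_⟩
      rintro _ ⟨m, rfl⟩
      exact_mod_cast (hbd m).trans hN
    obtain ⟨m₀, hm₀⟩ := Nat.sSup_mem (Set.range_nonempty h) hbdd
    exact ⟨m₀, fun m => hm₀ ▸ le_csSup hbdd ⟨m, rfl⟩⟩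
  have h1 : h m₀ ≤ 1 := by
    have h2 := (hmul m₀ m₀).trans (hm₀ (m₀ + m₀ + n))
    by_contra h3
    push Not at h3
    nlinarith
  intro m P R hP hR
  exact (hinv m P R hP hR).trans ((hm₀ m).trans h1)

end Pool.Agent.KLR
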