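import Pool.Agent.Work.MP_e487d8_al.Mo.P_K1P
import Pool.Agent.Work.MP_e487d8_al.Mod.Fd

/-! MP_e487d8_al, module side: K1E. -/

set_option autoImplicit false
set_option linter.unusedSectionVars false

open scoped TensorProduct

open Pool.Agent.E487.Hopf

namespace Pool.Agent.KLR

variable {K I : Type} [Field K] [Fintype I] [DecidableEq I] (D : Datum K I)

namespace XK1E

section

variable {D}
variable {m m' n : ℕ} {M M' N N' : Type}
  [AddCommGroup M] [Module K M] [Module (KLRAlg D) M] [IsScalarTower K (KLRAlg D) M]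
  [AddCommGroup M'] [Module K M'] [Module (KLRAlg D) M'] [IsScalarTower K (KLRAlg D) M']
  [AddCommGroup N] [Module K N] [Module (KLRAlg D) N] [IsScalarTower K (KLRAlg D) N]
  [AddCommGroup N'] [Module K N'] [Module (KLRAlg D) N'] [IsScalarTower K (KLRAlg D) N']

variable (M M' N) in
/-- `g ∘ id` is linear in `g` -/
noncomputable def mid (h : m = m') :
    (M →ₗ[KLRAlg D] M') →ₗ[K] (Conv D m M N →ₗ[KLRAlg D] Conv D m' M' N) where
  toFun g := Conv.map h g LinearMap.id
  map_add' g g' := by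
    apply Conv.hom_ext
    intro u v
    rw [LinearMap.add_apply, Conv.map_mk, Conv.map_mk, Conv.map_mk, LinearMap.add_apply, map_add,
      LinearMap.add_apply]
  map_smul' c g := by
    apply Conv.hom_ext
    intro u v
    rw [RingHom.id_apply, LinearMap.smul_apply, Conv.map_mk, Conv.map_mk, LinearMap.smul_apply,
      map_smul, LinearMap.smul_apply]

theorem mid_apply (h : m = m') (g : M →ₗ[KLRAlg D] M') :
    mid M M' N h g = Conv.map h g LinearMap.id := rfl

/-- an isomorphism in the second factor -/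
noncomputable def eqR (f : N ≃ₗ[KLRAlg D] N') :
    Conv D m M N ≃ₗ[KLRAlg D] Conv D m M N' :=
  LinearEquiv.ofLinearMap (Conv.map (rfl : m = m) LinearMap.id f.toLinearMap)
    (Conv.map (rfl : m = m) LinearMap.id f.symm.toLinearMap)
    (by apply Conv.hom_ext; intro u v; simp)
    (by apply Conv.hom_ext; intro u v; simp)

theorem conv_of_basis (hb : S_basis D) : S_conv D :=
  fun _ _ _ _ _ _ _ _ _ _ _ _ hM hN => Conv.fdMod_chrQ hb hM hN

theorem fin_conv (hb : S_basis D) (X Y : SMod D) : FiniteDimensional K (X.conv Y) := by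
  have := X.smp.fd
  have := Y.smp.fd
  exact Conv.finiteDimensional hb X.smp.strand Y.smp.strand

end

end XK1E

open XK1P XK1E in
theorem Mo.I_K1E (hW : StSwap D) (h0 : StK0n D) (hD : StK1d D) : StK1e D := by
  intro Lp h B C T m hSR hDag hT
  have hb := h.1
  have hconv := conv_of_basis (D := D) hb
  obtain ⟨n, Tn, S, hTn, hQ, hSC⟩ := hDag B
  obtain ⟨ι, hι⟩ := (hW hb Lp h.2 Tn B S).1 hQ
  obtain ⟨P, hP⟩ := hSC m
  obtain ⟨R, hR⟩ := hSR (m + n)
  have hle := hD Lp h B C S Tn n hSR hTn hQ hSC m P R hP hR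
  obtain ⟨e1⟩ : Nonempty (T.conv S ≃ₗ[KLRAlg D] P.M) :=
    Sm.iso_conv' h.2 hconv (by rw [hP]; congr 1)
  obtain ⟨e2⟩ : Nonempty (T.conv Tn ≃ₗ[KLRAlg D] R.M) :=
    Sm.iso_conv' h.2 hconv (by
      have h1 : T.chq = C.chq ^ m := hT
      have h2 : Tn.chq = C.chq ^ n := hTn
      have h3 : R.chq = C.chq ^ (m + n) := hR
      rw [h1, h2, h3, pow_add])
  have := nontriv S
  have hSn : S.n = B.n + Tn.n := st_unique (M := S.M) S.smp.strand
    (st_inj (Conv.isStrand B.smp.strand Tn.smp.strand) ι hι)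
  have hι0 : ι ≠ 0 := by
    intro h1
    obtain ⟨s, hs⟩ := exists_ne (0 : S.M)
    exact hs (hι (by rw [map_zero, h1]; rfl))
  have hq : T.n + B.n = B.n + T.n := add_comm _ _
  -- the inner composite
  let φ : (T.conv B →ₗ[KLRAlg D] B.conv T) →ₗ[K]
      (Conv D T.n T.M S.M →ₗ[KLRAlg D] Conv D (B.n + T.n) (B.conv T) Tn.M) :=
    (cmp ((Conv.assoc D T.n B.n T.M B.M Tn.M).symm.toLinearMap ∘ₗ
      (Conv.map (rfl : T.n = T.n) (LinearMap.id : T.M →ₗ[KLRAlg D] T.M) ι))
      (LinearMap.id : Conv D (B.n + T.n) (B.conv T) Tn.M →ₗ[KLRAlg D] _)).comp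
      (mid (T.conv B) (B.conv T) Tn.M hq)
  have hφ : Function.Injective φ := by
    rw [injective_iff_map_eq_zero]
    intro g hg
    by_contra hg0
    exact h0 hb T.n Tn.n B.n S.n (B.n + T.n) S.M Tn.M B.M T.M (B.conv T) S.smp.strand
      Tn.smp.strand B.smp.strand T.smp.strand (Conv.isStrand B.smp.strand T.smp.strand) hSn hq
      B.smp.simple ι g hι0 hg0 hg
  let β : Conv D (B.n + T.n) (B.conv T) Tn.M ≃ₗ[KLRAlg D] Conv D B.n B.M R.M :=
    (Conv.assoc D B.n T.n B.M T.M Tn.M).trans (eqR (M := B.M) e2)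
  have h5 : Function.Injective ((cmp e1.symm.toLinearMap β.toLinearMap).comp φ) := by
    rw [LinearMap.coe_comp]
    exact (cmp_injective e1.symm β).comp hφ
  have := P.smp.fd
  have := fin_conv hb B R
  have hf : FiniteDimensional K (P.M →ₗ[KLRAlg D] B.conv R) := homFin
  exact (LinearMap.finrank_le_finrank_of_injective h5).trans hle

end Pool.Agent.KLR
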