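import Pool.Agent.Work.MP_e487d8_al.Mo.Head
import Pool.Agent.Work.MP_e487d8_al.Fin.Mir

/-! MP_e487d8_al, module side: K1M, the mirror of K1. -/

set_option autoImplicit false
set_option linter.unusedSectionVars false

open scoped TensorProduct

open Pool.Agent.E487.Hopf

namespace Pool.Agent.KLR

variable {K I : Type} [Field K] [Fintype I] [DecidableEq I] (D : Datum K I)

namespace XK1M

variable {D}

/-- reversal of words -/
def rev (f : Sh I ℚ) : Sh I ℚ := fun w => f w.reverse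

omit [Fintype I] [DecidableEq I] in
theorem rev_apply (f : Sh I ℚ) (w : List I) : rev f w = f w.reverse := rfl

omit [Fintype I] [DecidableEq I] in
theorem L_rev (i : I) (f : Sh I ℚ) : Sh.L i (rev f) = rev (Sh.R i f) := by
  apply Sh.ext'
  intro w
  rw [Sh.L_apply, rev_apply, rev_apply, Sh.R_apply, List.reverse_cons]

omit [Fintype I] [DecidableEq I] in
theorem rev_mul (f g : Sh I ℚ) : rev (f * g) = rev f * rev g := by
  apply Sh.ext'
  intro w
  induction w generalizing f g with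
  | nil => rfl
  | cons i w ih =>
    have h1 : rev (f * g) (i :: w) = rev (Sh.R i (f * g)) w := by
      rw [rev_apply, rev_apply, Sh.R_apply, List.reverse_cons]
    have h2 : rev (Sh.R i f * g + f * Sh.R i g) w
        = rev (Sh.R i f * g) w + rev (f * Sh.R i g) w := rfl
    rw [h1, Sh.R_mul, h2, ih, ih, Sh.mul_cons, L_rev, L_rev]

omit [Fintype I] [DecidableEq I] in
theorem rev_one : rev (1 : Sh I ℚ) = 1 := by
  apply Sh.ext'
  intro w
  cases w with
  | nil => rfl
  | cons i w =>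
    rw [rev_apply, Sh.one_cons, List.reverse_cons]
    cases h : w.reverse with
    | nil => rfl
    | cons j v => rfl

omit [Fintype I] [DecidableEq I] in
theorem rev_pow (f : Sh I ℚ) (n : ℕ) : rev (f ^ n) = rev f ^ n := by
  induction n with
  | zero => rw [pow_zero, pow_zero, rev_one]
  | succ n ih => rw [pow_succ, pow_succ, rev_mul, ih]

theorem chq_mir (X : SMod D) : X.mir.chq = rev X.chq := by
  apply Sh.ext'
  intro w
  show (X.mir.ch w : ℚ) = (X.ch w.reverse : ℚ)
  rw [SMod.ch_mir]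

theorem pw_mir {C T : SMod D} {n : ℕ} (h : C.Pw n T) : C.mir.Pw n T.mir := by
  show T.mir.chq = C.mir.chq ^ n
  rw [chq_mir, chq_mir, ← rev_pow]
  exact congrArg rev h

theorem sr_mir {C : SMod D} (h : C.SR) : C.mir.SR := fun n => by
  obtain ⟨T, hT⟩ := h n
  exact ⟨T.mir, pw_mir hT⟩

theorem sc_mir {C X : SMod D} (h : C.SC X) : C.mir.SC X.mir := fun n => by
  obtain ⟨T, hT⟩ := h n
  refine ⟨T.mir, ?_⟩
  rw [chq_mir, chq_mir, chq_mir, hT, rev_mul, rev_pow]

/-- products of isomorphic modules -/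
theorem conv_congr {X X' Y Y' : SMod D} (hX : X.Iso X') (hY : Y.Iso Y') :
    Nonempty (X.conv Y ≃ₗ[KLRAlg D] X'.conv Y') := by
  have hn := SMod.n_eq_of_iso hX
  obtain ⟨f⟩ := hX
  obtain ⟨g⟩ := hY
  refine ⟨LinearEquiv.ofLinearMap
      (Conv.map hn f.toLinearMap g.toLinearMap)
      (Conv.map hn.symm f.symm.toLinearMap g.symm.toLinearMap) ?_ ?_⟩
  · apply Conv.hom_ext
    intro u v
    rw [LinearMap.comp_apply, Conv.map_mk, Conv.map_mk]
    simp
  · apply Conv.hom_ext
    intro u v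
    rw [LinearMap.comp_apply, Conv.map_mk, Conv.map_mk]
    simp

theorem dag_mir {C : SMod D} (h : C.Dagm) : C.mir.Dag := fun X => by
  obtain ⟨n, T, S, hT, hq, hS⟩ := h X.mir
  refine ⟨n, T.mir, S.mir, pw_mir hT, ?_, sc_mir hS⟩
  have h1 := SMod.quo_conv_mir hq
  obtain ⟨e⟩ := conv_congr (X := T.mir) (X' := T.mir) ⟨LinearEquiv.refl _ _⟩ X.mir_mir
  exact h1.congr (LinearEquiv.refl _ _) e

end XK1M

open XK1M in
theorem Mo.I_K1M (h : StK1 D) : StK1m D := by
  intro Lp hB B C T m hSR hD hP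
  obtain ⟨S, f, hf, hmax⟩ := h Lp hB B.mir C.mir T.mir m (sr_mir hSR) (dag_mir hD) (pw_mir hP)
  have hs' : IsStrand D (B.n + T.n) (T.mir.conv B.mir) := by
    rw [Nat.add_comm]
    exact Conv.isStrand T.mir.smp.strand B.mir.smp.strand
  have hn : B.n + T.n = S.n := strand_unique (M := S.M) (Quo.strand hs' ⟨f, hf⟩) S.smp.strand
  have key : ∀ m, m = B.n + T.n → ∃ g : B.conv T →ₗ[KLRAlg D] Mir D m S.M,
      Function.Surjective g ∧
      ∀ N : Submodule (KLRAlg D) (B.conv T), N ≠ ⊤ → N ≤ LinearMap.ker g := by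
    rintro m rfl
    refine ⟨(Tw.map (D.mir (B.n + T.n)) f).comp (SMod.convE B T).toLinearMap, ?_, ?_⟩
    · rw [LinearMap.coe_comp]
      exact (Tw.map_surjective _ hf).comp (SMod.convE B T).surjective
    · intro N hN u hu
      let Φ : Submodule (KLRAlg D) (B.conv T) ≃o Submodule (KLRAlg D) (T.mir.conv B.mir) :=
        (Submodule.orderIsoMapComap (SMod.convE B T)).trans (Mir.subEquiv hs').symm
      have h1 : Φ N ≠ ⊤ := fun h2 => hN (Φ.injective (h2.trans (OrderIso.map_top Φ).symm))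
      have h3 := hmax (Φ N) h1
      have h6 : SMod.convE B T u ∈ Submodule.orderIsoMapComap (SMod.convE B T) N :=
        ⟨u, hu, rfl⟩
      have h4 : (Tw.mk (D.mir (B.n + T.n))).symm (SMod.convE B T u) ∈ Φ N := h6
      have h5 : f ((Tw.mk (D.mir (B.n + T.n))).symm (SMod.convE B T u)) = 0 := h3 h4
      rw [LinearMap.mem_ker, LinearMap.comp_apply]
      exact h5
  obtain ⟨g, hg, hk⟩ := key S.n hn.symm
  exact ⟨S.mir, g, hg, hk⟩

end Pool.Agent.KLR
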