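import Pool.Agent.Work.MP_e487d8_al.Mo.Head
import Pool.Agent.Work.MP_e487d8_al.Cry.Facts

/-! MP_e487d8_al, module side: K1S. -/

set_option autoImplicit false
set_option linter.unusedSectionVars false

open scoped TensorProduct

namespace Pool.Agent.KLR

variable {K I : Type} [Field K] [Fintype I] [DecidableEq I] (D : Datum K I)

namespace XK1S

variable {D}

theorem isStrand_pi {n h : ℕ} {M : Type} [AddCommGroup M] [Module (KLRAlg D) M]
    (hM : IsStrand D n M) : IsStrand D n (Fin h → M) where
  one k hk u := funext fun i => hM.one k hk (u i)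
  zero k hk i u := funext fun j => hM.zero k hk i (u j)

section

variable {m m' n : ℕ} {M M' N : Type}
  [AddCommGroup M] [Module K M] [Module (KLRAlg D) M] [IsScalarTower K (KLRAlg D) M]
  [AddCommGroup N] [Module K N] [Module (KLRAlg D) N] [IsScalarTower K (KLRAlg D) N]
  [AddCommGroup M'] [Module K M'] [Module (KLRAlg D) M'] [IsScalarTower K (KLRAlg D) M']

theorem map_zero_left (hm : m = m') (z : Conv D m M N) :
    Conv.map hm (0 : M →ₗ[KLRAlg D] M') (LinearMap.id : N →ₗ[KLRAlg D] N) z = 0 := by
  have h1 : Conv.map hm (0 : M →ₗ[KLRAlg D] M') (LinearMap.id : N →ₗ[KLRAlg D] N) = 0 := by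
    apply Conv.hom_ext
    intro u v
    rw [Conv.map_mk, LinearMap.zero_apply, map_zero, LinearMap.zero_apply, LinearMap.zero_apply]
  rw [h1, LinearMap.zero_apply]

/-- the sum of the maps `f i ∘ id` is injective -/
theorem sum_map_injective (hb : S_basis D) (hm : m = m') (hM : IsStrand D m M)
    (hN : IsStrand D n N) (hM' : IsStrand D m' M') {h : ℕ} (f : Fin h → (M →ₗ[KLRAlg D] M'))
    (hf : ∀ u : Fin h → M, ∑ i, f i (u i) = 0 → u = 0) (y : Fin h → Conv D m M N)
    (hy : ∑ i, Conv.map hm (f i) (LinearMap.id : N →ₗ[KLRAlg D] N) (y i) = 0) : y = 0 := by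
  classical
  let F : (Fin h → M) →ₗ[KLRAlg D] M' := ∑ i, (f i).comp (LinearMap.proj i)
  have hFap : ∀ u : Fin h → M, F u = ∑ i, f i (u i) := by
    intro u
    simp [F, LinearMap.sum_apply]
  have hF : Function.Injective F := by
    rw [injective_iff_map_eq_zero]
    intro u hu
    exact hf u (by rw [← hFap]; exact hu)
  have hFs : ∀ i, F.comp (LinearMap.single (KLRAlg D) (fun _ : Fin h => M) i) = f i := by
    intro i
    ext u
    rw [LinearMap.comp_apply, hFap, Finset.sum_eq_single i]
    · simp
    · intro j _ hj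
      rw [LinearMap.coe_single, Pi.single_eq_of_ne hj, map_zero]
    · intro hi
      exact absurd (Finset.mem_univ i) hi
  have h1 : Conv.map hm F (LinearMap.id : N →ₗ[KLRAlg D] N)
      (∑ i, Conv.map (rfl : m = m) (LinearMap.single (KLRAlg D) (fun _ : Fin h => M) i)
        (LinearMap.id : N →ₗ[KLRAlg D] N) (y i)) = 0 := by
    rw [map_sum, ← hy]
    refine Finset.sum_congr rfl fun i _ => ?_
    rw [Conv.map_map, hFs]
    rfl
  have h2 : (∑ i, Conv.map (rfl : m = m) (LinearMap.single (KLRAlg D) (fun _ : Fin h => M) i)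
        (LinearMap.id : N →ₗ[KLRAlg D] N) (y i)) = 0 :=
    Conv.map_injective hb hm (isStrand_pi hM) hN hM' hN F LinearMap.id hF
      Function.injective_id (by rw [h1, map_zero])
  funext j
  have h3 := congrArg (Conv.map (rfl : m = m) (LinearMap.proj j : (Fin h → M) →ₗ[KLRAlg D] M)
    (LinearMap.id : N →ₗ[KLRAlg D] N)) h2
  rw [map_sum, map_zero, Finset.sum_eq_single j] at h3
  · rw [Conv.map_map] at h3
    have h4 : (LinearMap.proj j : (Fin h → M) →ₗ[KLRAlg D] M).comp
        (LinearMap.single (KLRAlg D) (fun _ : Fin h => M) j) = LinearMap.id := by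
      ext u
      simp
    rw [h4] at h3
    have h5 : Conv.map (rfl.trans rfl : m = m) (LinearMap.id : M →ₗ[KLRAlg D] M)
        ((LinearMap.id : N →ₗ[KLRAlg D] N).comp LinearMap.id) = LinearMap.id := Conv.map_id
    rw [h5] at h3
    exact h3
  · intro i _ hi
    rw [Conv.map_map]
    have h4 : (LinearMap.proj j : (Fin h → M) →ₗ[KLRAlg D] M).comp
        (LinearMap.single (KLRAlg D) (fun _ : Fin h => M) i) = 0 := by
      ext u
      simp [Pi.single_eq_of_ne (Ne.symm hi)]
    rw [h4]
    exact map_zero_left _ _
  · intro hj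
    exact absurd (Finset.mem_univ j) hj

end

end XK1S

open XK1S in
theorem Mo.I_K1S (h : StInj D) : StK1s D := by
  intro hb B P R₁ R₂ Z k f hf hZ A _ _ _ _
  obtain ⟨iso⟩ := hZ
  rcases Nat.eq_zero_or_pos k with rfl | hk
  · refine ⟨0, fun y z _ => funext fun i => i.elim0⟩
  · have hinj := h hb P (B.conv R₁) k f hf
    have := P.smp.simple
    have hn : P.n = B.n + R₁.n := by
      have h0 : f ⟨0, hk⟩ ≠ 0 := hf.ne_zero _
      have h1 : Function.Injective (f ⟨0, hk⟩) := by
        rcases LinearMap.injective_or_eq_zero (f ⟨0, hk⟩) with h1 | h1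
        · exact h1
        · exact absurd h1 h0
      have : Nontrivial P.M := IsSimpleModule.nontrivial (KLRAlg D) P.M
      exact strand_unique P.smp.strand
        ((Conv.isStrand B.smp.strand R₁.smp.strand).of_injective _ h1)
    let e : Conv D (B.n + R₁.n) (B.conv R₁) R₂.M →ₗ[KLRAlg D] B.conv Z :=
      (Conv.map (rfl : B.n = B.n) (LinearMap.id : B.M →ₗ[KLRAlg D] B.M) iso.toLinearMap).comp
        (Conv.assoc D B.n R₁.n B.M R₁.M R₂.M).toLinearMap
    have he : Function.Injective e := by
      have h1 : Function.Injective (Conv.map (rfl : B.n = B.n)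
          (LinearMap.id : B.M →ₗ[KLRAlg D] B.M) iso.toLinearMap) := by
        refine Function.LeftInverse.injective (g := Conv.map (rfl : B.n = B.n)
          (LinearMap.id : B.M →ₗ[KLRAlg D] B.M) iso.symm.toLinearMap) fun z => ?_
        rw [Conv.map_map]
        have h2 : iso.symm.toLinearMap.comp iso.toLinearMap = LinearMap.id := by
          ext u
          simp
        rw [h2]
        exact LinearMap.congr_fun Conv.map_id z
      exact h1.comp (Conv.assoc D B.n R₁.n B.M R₁.M R₂.M).injective
    let θ : (Fin k → (A →ₗ[KLRAlg D] P.conv R₂)) →ₗ[K] (A →ₗ[KLRAlg D] B.conv Z) :=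
      { toFun := fun y => e.comp (∑ i, (Conv.map hn (f i)
          (LinearMap.id : R₂.M →ₗ[KLRAlg D] R₂.M)).comp (y i))
        map_add' := fun y z => by
          ext a
          simp only [LinearMap.comp_apply, LinearMap.add_apply, LinearMap.sum_apply, Pi.add_apply,
            map_add, Finset.sum_add_distrib]
        map_smul' := fun c y => by
          ext a
          have h1 : ∀ (V W : Type) [AddCommGroup V] [Module K V] [Module (KLRAlg D) V]
            [IsScalarTower K (KLRAlg D) V] [AddCommGroup W] [Module K W] [Module (KLRAlg D) W]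
            [IsScalarTower K (KLRAlg D) W] (g : V →ₗ[KLRAlg D] W) (v : V), g (c • v) = c • g v :=
            fun V W _ _ _ _ _ _ _ _ g v => (Conv.toK g).map_smul c v
          simp only [LinearMap.comp_apply, LinearMap.sum_apply, Pi.smul_apply, RingHom.id_apply,
            LinearMap.smul_apply]
          rw [← h1, Finset.smul_sum]
          congr 1
          refine Finset.sum_congr rfl fun i _ => ?_
          rw [h1] }
    refine ⟨θ, ?_⟩
    rw [injective_iff_map_eq_zero]
    intro y hy
    have h1 : ∀ a, (fun i => y i a) = 0 := by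
      intro a
      refine sum_map_injective hb hn P.smp.strand R₂.smp.strand
        (Conv.isStrand B.smp.strand R₁.smp.strand) f hinj _ ?_
      apply he
      have h2 := LinearMap.congr_fun hy a
      simp only [θ, LinearMap.coe_mk, AddHom.coe_mk, LinearMap.comp_apply, LinearMap.sum_apply] at h2
      rw [map_zero]
      exact h2
    funext i
    ext a
    exact congrFun (h1 a) i

end Pool.Agent.KLR
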