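import Pool.Agent.Work.MP_e487d8_al.Mo.Head

/-! MP_e487d8_al, module side: K4A, the diagonal argument. -/

set_option autoImplicit false
set_option linter.unusedSectionVars false

open scoped TensorProduct

namespace Pool.Agent.KLR

variable {K I : Type} [Field K] [Fintype I] [DecidableEq I] (D : Datum K I)

namespace XK4A

variable {D}

section simple

variable {R X Y : Type} [Ring R] [AddCommGroup X] [Module R X] [AddCommGroup Y] [Module R Y]
  [IsSimpleModule R X] [IsSimpleModule R Y]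

/-- a submodule of `X × Y` which is not contained in `X × 0` and not in `0 × Y` is everything, or
`X` and `Y` are isomorphic -/
theorem top_or_iso (Q : Submodule R (X × Y)) (h1 : ∃ z ∈ Q, z.1 ≠ 0) (h2 : ∃ z ∈ Q, z.2 ≠ 0) :
    Q = ⊤ ∨ Nonempty (X ≃ₗ[R] Y) := by
  rcases eq_bot_or_eq_top (Q.comap (LinearMap.inl R X Y)) with hX | hX
  · right
    -- `Q → Y` is injective
    have hinj : Function.Injective ((LinearMap.snd R X Y).comp Q.subtype) := by
      rw [← LinearMap.ker_eq_bot, LinearMap.ker_eq_bot']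
      intro z hz
      have hz2 : z.1.2 = 0 := hz
      have hz1 : z.1.1 ∈ Q.comap (LinearMap.inl R X Y) := by
        rw [Submodule.mem_comap, LinearMap.inl_apply, ← hz2]
        exact z.2
      rw [hX, Submodule.mem_bot] at hz1
      exact Subtype.ext (Prod.ext hz1 hz2)
    have hsurj : Function.Surjective ((LinearMap.snd R X Y).comp Q.subtype) := by
      rw [← LinearMap.range_eq_top]
      rcases eq_bot_or_eq_top (LinearMap.range ((LinearMap.snd R X Y).comp Q.subtype)) with h | h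
      · exfalso
        obtain ⟨z, hz, hz2⟩ := h2
        apply hz2
        have : z.2 ∈ LinearMap.range ((LinearMap.snd R X Y).comp Q.subtype) := ⟨⟨z, hz⟩, rfl⟩
        rwa [h, Submodule.mem_bot] at this
      · exact h
    let e : Q ≃ₗ[R] Y := LinearEquiv.ofBijective _ ⟨hinj, hsurj⟩
    let g : Y →ₗ[R] X := ((LinearMap.fst R X Y).comp Q.subtype).comp e.symm.toLinearMap
    have hg : g ≠ 0 := by
      intro hg
      obtain ⟨z, hz, hz1⟩ := h1
      apply hz1
      have h3 : g (e ⟨z, hz⟩) = z.1 := by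
        show ((LinearMap.fst R X Y).comp Q.subtype) (e.symm (e ⟨z, hz⟩)) = z.1
        rw [LinearEquiv.symm_apply_apply]
        rfl
      rw [← h3, hg, LinearMap.zero_apply]
    exact ⟨(LinearEquiv.ofBijective g (LinearMap.bijective_of_ne_zero hg)).symm⟩
  · left
    rcases eq_bot_or_eq_top (Q.comap (LinearMap.inr R X Y)) with hY | hY
    · exfalso
      obtain ⟨z, hz, hz2⟩ := h2
      apply hz2
      have h3 : z.1 ∈ Q.comap (LinearMap.inl R X Y) := by rw [hX]; trivial
      have h4 : z.2 ∈ Q.comap (LinearMap.inr R X Y) := by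
        rw [Submodule.mem_comap] at h3 ⊢
        have h5 : (LinearMap.inr R X Y) z.2 = z - (LinearMap.inl R X Y) z.1 := by
          ext <;> simp
        rw [h5]
        exact Q.sub_mem hz h3
      rwa [hY, Submodule.mem_bot] at h4
    · rw [eq_top_iff]
      rintro z -
      have h3 : z.1 ∈ Q.comap (LinearMap.inl R X Y) := by rw [hX]; trivial
      have h4 : z.2 ∈ Q.comap (LinearMap.inr R X Y) := by rw [hY]; trivial
      have h5 : z = (LinearMap.inl R X Y) z.1 + (LinearMap.inr R X Y) z.2 := by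
        ext <;> simp
      rw [h5]
      exact Q.add_mem h3 h4

end simple

/-- strands of a product module -/
theorem prodStrand {n : ℕ} {M N : Type} [AddCommGroup M] [Module (KLRAlg D) M]
    [AddCommGroup N] [Module (KLRAlg D) N] (hM : IsStrand D n M) (hN : IsStrand D n N) :
    IsStrand D n (M × N) where
  one k hk u := Prod.ext (hM.one k hk u.1) (hN.one k hk u.2)
  zero k hk i u := Prod.ext (hM.zero k hk i u.1) (hN.zero k hk i u.2)

section

open Conv

variable {m m' n n' l : ℕ} {M M' M'' N N' N'' L : Type}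
  [AddCommGroup M] [Module K M] [Module (KLRAlg D) M] [IsScalarTower K (KLRAlg D) M]
  [AddCommGroup N] [Module K N] [Module (KLRAlg D) N] [IsScalarTower K (KLRAlg D) N]
  [AddCommGroup M'] [Module K M'] [Module (KLRAlg D) M'] [IsScalarTower K (KLRAlg D) M']
  [AddCommGroup N'] [Module K N'] [Module (KLRAlg D) N'] [IsScalarTower K (KLRAlg D) N']
  [AddCommGroup L] [Module K L] [Module (KLRAlg D) L] [IsScalarTower K (KLRAlg D) L]

theorem ker_map_left' (hb : S_basis D) (h : m = m') (hN : IsStrand D n N) (hM : IsStrand D m M)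
    (hM' : IsStrand D m' M') (g : M →ₗ[KLRAlg D] M') :
    LinearMap.ker (Conv.map h g (LinearMap.id : N →ₗ[KLRAlg D] N)) =
      Conv.subL m (LinearMap.ker g) N := by
  subst h
  exact Conv.ker_map_left hb hN hM hM' g

/-- a map which kills `Q` kills `Q ∘ N` -/
theorem map_subL_eq_zero (h : m = m') (g : M →ₗ[KLRAlg D] M') (g' : N →ₗ[KLRAlg D] N')
    (Q : Submodule (KLRAlg D) M)
    (hQ : ∀ z ∈ Q, g z = 0) {z : Conv D m M N} (hz : z ∈ Conv.subL m Q N) :
    Conv.map h g g' z = 0 := by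
  have h1 : Conv.subL m Q N ≤ LinearMap.ker (Conv.map h g g') := by
    rw [Conv.subL, Submodule.span_le]
    rintro z ⟨u, v, rfl⟩
    show Conv.map h g g' (Conv.mk D m M N u v) = 0
    rw [Conv.map_mk, hQ u.1 u.2, map_zero, LinearMap.zero_apply]
  exact h1 hz

end

section main

variable {t x s : ℕ} {T X Y S : Type}
  [AddCommGroup T] [Module K T] [Module (KLRAlg D) T] [IsScalarTower K (KLRAlg D) T]
  [AddCommGroup X] [Module K X] [Module (KLRAlg D) X] [IsScalarTower K (KLRAlg D) X]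
  [AddCommGroup Y] [Module K Y] [Module (KLRAlg D) Y] [IsScalarTower K (KLRAlg D) Y]
  [AddCommGroup S] [Module K S] [Module (KLRAlg D) S] [IsScalarTower K (KLRAlg D) S]

/-- the composition `T ∘ S → T ∘ X ∘ T → S ∘ T` -/
noncomputable def rr (hs : t + x = s) (p : Conv D t T X →ₗ[KLRAlg D] S)
    (j : S →ₗ[KLRAlg D] Conv D x X T) : Conv D t T S →ₗ[KLRAlg D] Conv D s S T :=
  (Conv.map hs p (LinearMap.id : T →ₗ[KLRAlg D] T)) ∘ₗ
    (Conv.assoc D t x T X T).symm.toLinearMap ∘ₗ
      (Conv.map (rfl : t = t) (LinearMap.id : T →ₗ[KLRAlg D] T) j)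

theorem rr_mk (hs : t + x = s) (p : Conv D t T X →ₗ[KLRAlg D] S)
    (j : S →ₗ[KLRAlg D] Conv D x X T) (a : T) (u : S) :
    rr hs p j (Conv.mk D t T S a u) = Conv.map hs p (LinearMap.id : T →ₗ[KLRAlg D] T)
      ((Conv.assoc D t x T X T).symm (Conv.mk D t T (Conv D x X T) a (j u))) := by
  show Conv.map hs p (LinearMap.id : T →ₗ[KLRAlg D] T) ((Conv.assoc D t x T X T).symm
    (Conv.map (rfl : t = t) (LinearMap.id : T →ₗ[KLRAlg D] T) j (Conv.mk D t T S a u))) = _
  rw [Conv.map_mk]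
  rfl

/-- naturality -/
theorem nat (hs : t + x = s) {B : Type} [AddCommGroup B] [Module K B] [Module (KLRAlg D) B]
    [IsScalarTower K (KLRAlg D) B] (i : X →ₗ[KLRAlg D] B) (P : Conv D t T B →ₗ[KLRAlg D] S)
    (a : T) (z : Conv D x X T) :
    Conv.map hs P (LinearMap.id : T →ₗ[KLRAlg D] T) ((Conv.assoc D t x T B T).symm
      (Conv.mk D t T (Conv D x B T) a
        (Conv.map (rfl : x = x) i (LinearMap.id : T →ₗ[KLRAlg D] T) z))) =
    Conv.map hs (P ∘ₗ Conv.map (rfl : t = t) (LinearMap.id : T →ₗ[KLRAlg D] T) i)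
      (LinearMap.id : T →ₗ[KLRAlg D] T) ((Conv.assoc D t x T X T).symm
        (Conv.mk D t T (Conv D x X T) a z)) := by
  have h : (Conv.map hs P (LinearMap.id : T →ₗ[KLRAlg D] T)) ∘ₗ
      (Conv.assoc D t x T B T).symm.toLinearMap ∘ₗ
        (Conv.map (rfl : t = t) (LinearMap.id : T →ₗ[KLRAlg D] T)
          (Conv.map (rfl : x = x) i (LinearMap.id : T →ₗ[KLRAlg D] T))) =
      (Conv.map hs (P ∘ₗ Conv.map (rfl : t = t) (LinearMap.id : T →ₗ[KLRAlg D] T) i)
        (LinearMap.id : T →ₗ[KLRAlg D] T)) ∘ₗ (Conv.assoc D t x T X T).symm.toLinearMap := by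
    apply Conv.hom_ext₃'
    intro u v w
    simp only [LinearMap.comp_apply, LinearEquiv.coe_coe, Conv.map_mk, Conv.assoc_symm_mk,
      LinearMap.id_apply]
  have h1 := LinearMap.congr_fun h (Conv.mk D t T (Conv D x X T) a z)
  simp only [LinearMap.comp_apply, LinearEquiv.coe_coe, Conv.map_mk, LinearMap.id_apply] at h1
  exact h1

theorem map_smul_sub (hs : t + x = s) (p q : Conv D t T X →ₗ[KLRAlg D] S) (c : K)
    (z : Conv D (t + x) (Conv D t T X) T) :
    Conv.map hs (p - c • q) (LinearMap.id : T →ₗ[KLRAlg D] T) z =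
      Conv.map hs p (LinearMap.id : T →ₗ[KLRAlg D] T) z -
        c • Conv.map hs q (LinearMap.id : T →ₗ[KLRAlg D] T) z := by
  have h : Conv.map hs (p - c • q) (LinearMap.id : T →ₗ[KLRAlg D] T) =
      Conv.map hs p (LinearMap.id : T →ₗ[KLRAlg D] T) -
        c • Conv.map hs q (LinearMap.id : T →ₗ[KLRAlg D] T) := by
    apply Conv.hom_ext
    intro u v
    simp only [LinearMap.sub_apply, LinearMap.smul_apply, Conv.map_mk, map_sub, map_smul]
  rw [h]
  rfl

/-- the diagonal composition -/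
theorem rr_diag (hs : t + x = s) (p : Conv D t T X →ₗ[KLRAlg D] S)
    (p' : Conv D t T Y →ₗ[KLRAlg D] S) (j : S →ₗ[KLRAlg D] Conv D x X T)
    (j' : S →ₗ[KLRAlg D] Conv D x Y T) (c : K) (P : Conv D t T (X × Y) →ₗ[KLRAlg D] S)
    (J : S →ₗ[KLRAlg D] Conv D x (X × Y) T)
    (hP1 : P ∘ₗ Conv.map (rfl : t = t) (LinearMap.id : T →ₗ[KLRAlg D] T)
      (LinearMap.inl (KLRAlg D) X Y) = p)
    (hP2 : P ∘ₗ Conv.map (rfl : t = t) (LinearMap.id : T →ₗ[KLRAlg D] T)
      (LinearMap.inr (KLRAlg D) X Y) = 0 - c • p')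
    (hJ : ∀ u, J u = Conv.map (rfl : x = x) (LinearMap.inl (KLRAlg D) X Y)
        (LinearMap.id : T →ₗ[KLRAlg D] T) (j u) +
      Conv.map (rfl : x = x) (LinearMap.inr (KLRAlg D) X Y)
        (LinearMap.id : T →ₗ[KLRAlg D] T) (j' u)) :
    rr hs P J = rr hs p j - c • rr hs p' j' := by
  apply Conv.hom_ext
  intro a u
  rw [LinearMap.sub_apply, LinearMap.smul_apply, rr_mk, rr_mk, rr_mk, hJ, map_add, map_add,
    map_add, nat, nat, hP1, hP2, map_smul_sub]
  have h0 : Conv.map hs (0 : Conv D t T Y →ₗ[KLRAlg D] S) (LinearMap.id : T →ₗ[KLRAlg D] T) =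
      0 := by
    apply Conv.hom_ext
    intro u v
    rw [Conv.map_mk, LinearMap.zero_apply, map_zero, LinearMap.zero_apply, LinearMap.zero_apply]
  rw [h0, LinearMap.zero_apply, zero_sub, sub_eq_add_neg]

end main

section fin

variable {t x y s : ℕ} {T X Y S : Type}
  [AddCommGroup T] [Module K T] [Module (KLRAlg D) T] [IsScalarTower K (KLRAlg D) T]
  [AddCommGroup X] [Module K X] [Module (KLRAlg D) X] [IsScalarTower K (KLRAlg D) X]
  [AddCommGroup Y] [Module K Y] [Module (KLRAlg D) Y] [IsScalarTower K (KLRAlg D) Y]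
  [AddCommGroup S] [Module K S] [Module (KLRAlg D) S] [IsScalarTower K (KLRAlg D) S]

theorem main (hb : S_basis D) (h0 : StK0n D) (hT : IsStrand D t T) (hX : IsStrand D x X)
    (hY : IsStrand D y Y) (hS : IsStrand D s S) (hyx : y = x) (hs : t + x = s)
    [FiniteDimensional K T] [FiniteDimensional K S] [IsSimpleModule (KLRAlg D) X]
    [IsSimpleModule (KLRAlg D) Y] [Nontrivial S]
    (p : Conv D t T X →ₗ[KLRAlg D] S) (hp : Function.Surjective p)
    (p' : Conv D t T Y →ₗ[KLRAlg D] S) (hp' : Function.Surjective p')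
    (j : S →ₗ[KLRAlg D] Conv D x X T) (hj : Function.Injective j)
    (j' : S →ₗ[KLRAlg D] Conv D y Y T) (hj' : Function.Injective j')
    (hdim : Module.finrank K (Conv D t T S →ₗ[KLRAlg D] Conv D s S T) ≤ 1) :
    Nonempty (X ≃ₗ[KLRAlg D] Y) := by
  subst hyx
  have hp0 : p ≠ 0 := by
    rintro rfl
    obtain ⟨u, hu⟩ := exists_ne (0 : S)
    obtain ⟨z, hz⟩ := hp u
    exact hu hz.symm
  have hp0' : p' ≠ 0 := by
    rintro rfl
    obtain ⟨u, hu⟩ := exists_ne (0 : S)
    obtain ⟨z, hz⟩ := hp' u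
    exact hu hz.symm
  have hj0 : j ≠ 0 := by
    rintro rfl
    obtain ⟨u, hu⟩ := exists_ne (0 : S)
    exact hu (hj (by simp))
  have hj0' : j' ≠ 0 := by
    rintro rfl
    obtain ⟨u, hu⟩ := exists_ne (0 : S)
    exact hu (hj' (by simp))
  have hr' : rr hs p' j' ≠ 0 := h0 hb t t y s s S T Y T S hS hT hY hT hS (by omega) hs
    inferInstance j' p' hj0' hp0'
  -- proportional
  obtain ⟨c, hc⟩ : ∃ c : K, rr hs p j = c • rr hs p' j' := by
    have : FiniteDimensional K (Conv D t T S) := Conv.finiteDimensional hb hT hS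
    have : FiniteDimensional K (Conv D s S T) := Conv.finiteDimensional hb hS hT
    have : FiniteDimensional K (Conv D t T S →ₗ[KLRAlg D] Conv D s S T) := homFin
    obtain ⟨v, hv⟩ := finrank_le_one_iff.1 hdim
    obtain ⟨a, ha⟩ := hv (rr hs p j)
    obtain ⟨b, hb'⟩ := hv (rr hs p' j')
    have hb0 : b ≠ 0 := by
      rintro rfl
      rw [zero_smul] at hb'
      exact hr' hb'.symm
    refine ⟨a * b⁻¹, ?_⟩
    rw [← hb', smul_smul, mul_assoc, inv_mul_cancel₀ hb0, mul_one, ha]
  let P : Conv D t T (X × Y) →ₗ[KLRAlg D] S :=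
    p ∘ₗ Conv.map (rfl : t = t) (LinearMap.id : T →ₗ[KLRAlg D] T)
      (LinearMap.fst (KLRAlg D) X Y) -
    c • (p' ∘ₗ Conv.map (rfl : t = t) (LinearMap.id : T →ₗ[KLRAlg D] T)
      (LinearMap.snd (KLRAlg D) X Y))
  let J : S →ₗ[KLRAlg D] Conv D y (X × Y) T :=
    Conv.map (rfl : y = y) (LinearMap.inl (KLRAlg D) X Y)
        (LinearMap.id : T →ₗ[KLRAlg D] T) ∘ₗ j +
      Conv.map (rfl : y = y) (LinearMap.inr (KLRAlg D) X Y)
        (LinearMap.id : T →ₗ[KLRAlg D] T) ∘ₗ j'
  have hP1 : P ∘ₗ Conv.map (rfl : t = t) (LinearMap.id : T →ₗ[KLRAlg D] T)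
      (LinearMap.inl (KLRAlg D) X Y) = p := by
    apply Conv.hom_ext
    intro a u
    simp only [P, LinearMap.comp_apply, LinearMap.sub_apply, LinearMap.smul_apply, Conv.map_mk,
      LinearMap.id_apply, LinearMap.inl_apply, LinearMap.fst_apply, LinearMap.snd_apply, map_zero,
      smul_zero, sub_zero]
  have hP2 : P ∘ₗ Conv.map (rfl : t = t) (LinearMap.id : T →ₗ[KLRAlg D] T)
      (LinearMap.inr (KLRAlg D) X Y) = 0 - c • p' := by
    apply Conv.hom_ext
    intro a u
    simp only [P, LinearMap.comp_apply, LinearMap.sub_apply, LinearMap.smul_apply, Conv.map_mk,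
      LinearMap.id_apply, LinearMap.inr_apply, LinearMap.fst_apply, LinearMap.snd_apply, map_zero,
      LinearMap.zero_apply]
  have hrr : rr hs P J = 0 := by
    rw [rr_diag hs p p' j j' c P J hP1 hP2 (fun _ => rfl), hc, sub_self]
  have hB : IsStrand D y (X × Y) := prodStrand hX hY
  obtain ⟨Q, hQ1, hQ2⟩ := Conv.K0' hb hT hB hT (LinearMap.ker P) (LinearMap.range J) (by
    rintro a _ ⟨u, rfl⟩
    rw [← ker_map_left' hb hs hT (Conv.isStrand hT hB) hS P, LinearMap.mem_ker, ← rr_mk, hrr,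
      LinearMap.zero_apply])
  obtain ⟨u0, hu0⟩ := exists_ne (0 : S)
  have hJ1 : ∀ u, Conv.map (rfl : y = y) (LinearMap.fst (KLRAlg D) X Y)
      (LinearMap.id : T →ₗ[KLRAlg D] T) (J u) = j u := by
    intro u
    show Conv.map (rfl : y = y) (LinearMap.fst (KLRAlg D) X Y) (LinearMap.id : T →ₗ[KLRAlg D] T)
      (Conv.map (rfl : y = y) (LinearMap.inl (KLRAlg D) X Y)
        (LinearMap.id : T →ₗ[KLRAlg D] T) (j u) +
      Conv.map (rfl : y = y) (LinearMap.inr (KLRAlg D) X Y)
        (LinearMap.id : T →ₗ[KLRAlg D] T) (j' u)) = j u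
    rw [map_add, Conv.map_map, Conv.map_map, LinearMap.fst_comp_inl, LinearMap.fst_comp_inr,
      LinearMap.id_comp]
    have h1 : Conv.map (rfl : y = y) (0 : Y →ₗ[KLRAlg D] X) (LinearMap.id : T →ₗ[KLRAlg D] T) =
        0 := by
      apply Conv.hom_ext
      intro u v
      rw [Conv.map_mk, LinearMap.zero_apply, map_zero, LinearMap.zero_apply,
        LinearMap.zero_apply]
    rw [h1, Conv.map_id, LinearMap.zero_apply, add_zero, LinearMap.id_apply]
  have hJ2 : ∀ u, Conv.map (rfl : y = y) (LinearMap.snd (KLRAlg D) X Y)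
      (LinearMap.id : T →ₗ[KLRAlg D] T) (J u) = j' u := by
    intro u
    show Conv.map (rfl : y = y) (LinearMap.snd (KLRAlg D) X Y) (LinearMap.id : T →ₗ[KLRAlg D] T)
      (Conv.map (rfl : y = y) (LinearMap.inl (KLRAlg D) X Y)
        (LinearMap.id : T →ₗ[KLRAlg D] T) (j u) +
      Conv.map (rfl : y = y) (LinearMap.inr (KLRAlg D) X Y)
        (LinearMap.id : T →ₗ[KLRAlg D] T) (j' u)) = j' u
    rw [map_add, Conv.map_map, Conv.map_map, LinearMap.snd_comp_inl, LinearMap.snd_comp_inr,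
      LinearMap.id_comp]
    have h1 : Conv.map (rfl : y = y) (0 : X →ₗ[KLRAlg D] Y) (LinearMap.id : T →ₗ[KLRAlg D] T) =
        0 := by
      apply Conv.hom_ext
      intro u v
      rw [Conv.map_mk, LinearMap.zero_apply, map_zero, LinearMap.zero_apply,
        LinearMap.zero_apply]
    rw [h1, Conv.map_id, LinearMap.zero_apply, zero_add, LinearMap.id_apply]
  have hQ3 : ∃ z ∈ Q, z.1 ≠ 0 := by
    by_contra hne
    push Not at hne
    have h1 := map_subL_eq_zero (rfl : y = y) (LinearMap.fst (KLRAlg D) X Y)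
      (LinearMap.id : T →ₗ[KLRAlg D] T) Q hne (hQ1 ⟨u0, rfl⟩)
    rw [hJ1] at h1
    exact hu0 (hj (h1.trans (map_zero j).symm))
  have hQ4 : ∃ z ∈ Q, z.2 ≠ 0 := by
    by_contra hne
    push Not at hne
    have h1 := map_subL_eq_zero (rfl : y = y) (LinearMap.snd (KLRAlg D) X Y)
      (LinearMap.id : T →ₗ[KLRAlg D] T) Q hne (hQ1 ⟨u0, rfl⟩)
    rw [hJ2] at h1
    exact hu0 (hj' (h1.trans (map_zero j').symm))
  rcases top_or_iso Q hQ3 hQ4 with h | h
  · exfalso
    apply hp0
    rw [← hP1]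
    apply Conv.hom_ext
    intro a u
    rw [LinearMap.comp_apply, Conv.map_mk, LinearMap.zero_apply]
    exact hQ2 (Conv.mk_mem_subR _ (by rw [h]; trivial))
  · exact h

end fin

end XK4A

/-- K4A: the diagonal argument -/
theorem Mo.I_K4A (hW : StSwap D) (h0 : StK0n D) : StK4a D := by
  intro Lp h X Y T S hX hY hdim
  have hX' := (hW h.1 Lp h.2 T X S).1 hX
  have hY' := (hW h.1 Lp h.2 T Y S).1 hY
  obtain ⟨p, hp⟩ := hX
  obtain ⟨p', hp'⟩ := hY
  obtain ⟨j, hj⟩ := hX'
  obtain ⟨j', hj'⟩ := hY'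
  have := S.smp.simple
  have := X.smp.simple
  have := Y.smp.simple
  have := S.smp.fd
  have := T.smp.fd
  have hn : Nontrivial S.M := IsSimpleModule.nontrivial (KLRAlg D) S.M
  have e1 : T.n + X.n = S.n := strand_unique
    ((Conv.isStrand T.smp.strand X.smp.strand).of_surjective p hp) S.smp.strand
  have e2 : T.n + Y.n = S.n := strand_unique
    ((Conv.isStrand T.smp.strand Y.smp.strand).of_surjective p' hp') S.smp.strand
  exact XK4A.main h.1 h0 T.smp.strand X.smp.strand Y.smp.strand S.smp.strand (by omega) e1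
    p hp p' hp' j hj j' hj' hdim

end Pool.Agent.KLR
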