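import Pool.Agent.Work.MP_e487d8_al.Mo.Head
import Pool.Agent.Work.MP_e487d8_al.Fin.Mir

/-! MP_e487d8_al, block MO, item K4M: the mirror of K4. -/

set_option autoImplicit false
set_option linter.unusedSectionVars false

open Pool.Agent.E487.Hopf

namespace Pool.Agent.KLR

variable {K I : Type} [Field K] [Fintype I] [DecidableEq I] (D : Datum K I)

namespace XK4M

/-- reversal of the words -/
def rv {R : Type} [Field R] (f : Sh I R) : Sh I R := fun w => f w.reverse

theorem rv_apply {R : Type} [Field R] (f : Sh I R) (w : List I) : rv f w = f w.reverse := rfl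

theorem rv_R {R : Type} [Field R] (i : I) (f : Sh I R) : rv (Sh.R i f) = Sh.L i (rv f) := by
  apply Sh.ext'
  intro v
  rw [Sh.L_apply, rv_apply, rv_apply, Sh.R_apply, List.reverse_cons]

theorem rv_mul {R : Type} [Field R] (w : List I) : ∀ f g : Sh I R,
    (f * g) w.reverse = (rv f * rv g) w := by
  induction w with
  | nil => intro f g; rfl
  | cons i w ih =>
    intro f g
    have h1 : (f * g) (i :: w).reverse = (Sh.R i (f * g)) w.reverse := by
      rw [Sh.R_apply, List.reverse_cons]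
    have h2 : (rv f * rv g) (i :: w) = Sh.L i (rv f * rv g) w := rfl
    rw [h1, h2, Sh.R_mul, Sh.L_mul, Sh.add_apply, Sh.add_apply, ih, ih, rv_R, rv_R]

/-- reversal of the words -/
def rev : Sh I ℚ →* Sh I ℚ where
  toFun := rv
  map_one' := by
    apply Sh.ext'
    intro w
    rw [rv_apply]
    cases w with
    | nil => rfl
    | cons i w =>
      rw [Sh.one_cons]
      have h : ∃ j v, (i :: w).reverse = j :: v := by
        cases hv : (i :: w).reverse with
        | nil => simp at hv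
        | cons j v => exact ⟨j, v, rfl⟩
      obtain ⟨j, v, hv⟩ := h
      rw [hv, Sh.one_cons]
  map_mul' f g := by
    apply Sh.ext'
    intro w
    exact rv_mul w f g

theorem chq_mir (X : SMod D) : X.mir.chq = rev X.chq := by
  apply Sh.ext'
  intro w
  show ((X.mir.ch w : ℕ) : ℚ) = ((X.ch w.reverse : ℕ) : ℚ)
  rw [SMod.ch_mir]

variable {D}

theorem pw_mir {C T : SMod D} {n : ℕ} (h : C.Pw n T) : C.mir.Pw n T.mir := by
  show T.mir.chq = C.mir.chq ^ n
  have h' : T.chq = C.chq ^ n := h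
  rw [chq_mir, chq_mir, h', map_pow]

theorem sr_mir {C : SMod D} (h : C.SR) : C.mir.SR := fun n => by
  obtain ⟨T, hT⟩ := h n
  exact ⟨T.mir, pw_mir hT⟩

theorem sc_mir {C S : SMod D} (h : C.SC S) : C.mir.SC S.mir := fun n => by
  obtain ⟨T, hT⟩ := h n
  refine ⟨T.mir, ?_⟩
  rw [chq_mir, chq_mir, chq_mir, hT, map_mul, map_pow]

theorem conv_congr {X X' Y Y' : SMod D} (hX : X.Iso X') (hY : Y.Iso Y') :
    Nonempty (X.conv Y ≃ₗ[KLRAlg D] X'.conv Y') := by
  have hn := SMod.n_eq_of_iso hX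
  obtain ⟨f⟩ := hX
  obtain ⟨g⟩ := hY
  refine ⟨(LinearEquiv.ofLinearMap
      (Conv.map hn f.toLinearMap g.toLinearMap)
      (Conv.map hn.symm f.symm.toLinearMap g.symm.toLinearMap) ?_ ?_)⟩
  · apply Conv.hom_ext
    intro u v
    rw [LinearMap.comp_apply, Conv.map_mk, Conv.map_mk]
    simp
  · apply Conv.hom_ext
    intro u v
    rw [LinearMap.comp_apply, Conv.map_mk, Conv.map_mk]
    simp

theorem dag_mir {C : SMod D} (h : C.Dagm) : C.mir.Dag := fun X => by
  obtain ⟨n, T, S, hT, hS, hC⟩ := h X.mir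
  refine ⟨n, T.mir, S.mir, pw_mir hT, ?_, sc_mir hC⟩
  obtain ⟨e⟩ := conv_congr (X := T.mir) (X' := T.mir) (Y := X.mir.mir) (Y' := X)
    ⟨LinearEquiv.refl _ _⟩ X.mir_mir
  exact (SMod.quo_conv_mir hS).congr (LinearEquiv.refl _ _) e

end XK4M

theorem Mo.I_K4M (h : StK4 D) : StK4m D :=
  fun Lp hB X Y C T H n hSR hDag hT hX hY =>
    SMod.iso_mir_iff.1 (h Lp hB X.mir Y.mir C.mir T.mir H.mir n (XK4M.sr_mir hSR)
      (XK4M.dag_mir hDag) (XK4M.pw_mir hT) (SMod.quo_conv_mir hX) (SMod.quo_conv_mir hY))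

end Pool.Agent.KLR
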