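import Pool.Agent.Work.MP_e487d8_al.Mo.Head
import Pool.Agent.Work.MP_e487d8_al.Mod.Fd
import Pool.Agent.Work.MP_e487d8_al.Cry.Main

/-! MP_e487d8_al, module side: LBF. -/

set_option autoImplicit false
set_option linter.unusedSectionVars false

open Pool.Agent.E487.Hopf

namespace Pool.Agent.KLR

variable {K I : Type} [Field K] [Fintype I] [DecidableEq I]

namespace XLBF

section gen

variable {D : Datum K I} {M N P M' N' : Type}
  [AddCommGroup M] [Module K M] [Module (KLRAlg D) M] [IsScalarTower K (KLRAlg D) M]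
  [AddCommGroup N] [Module K N] [Module (KLRAlg D) N] [IsScalarTower K (KLRAlg D) N]
  [AddCommGroup P] [Module K P] [Module (KLRAlg D) P] [IsScalarTower K (KLRAlg D) P]
  [AddCommGroup M'] [Module K M'] [Module (KLRAlg D) M'] [IsScalarTower K (KLRAlg D) M']
  [AddCommGroup N'] [Module K N'] [Module (KLRAlg D) N'] [IsScalarTower K (KLRAlg D) N']

theorem qtrans (h : Quo D P N) (h' : Quo D N M) : Quo D P M := by
  obtain ⟨f, hf⟩ := h
  obtain ⟨g, hg⟩ := h'
  exact ⟨f.comp g, by rw [LinearMap.coe_comp]; exact hf.comp hg⟩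

theorem strans (h : Sub D M N) (h' : Sub D N P) : Sub D M P := by
  obtain ⟨f, hf⟩ := h
  obtain ⟨g, hg⟩ := h'
  exact ⟨g.comp f, by rw [LinearMap.coe_comp]; exact hg.comp hf⟩

theorem qrefl : Quo D M M := ⟨LinearMap.id, Function.surjective_id⟩

theorem srefl : Sub D M M := ⟨LinearMap.id, Function.injective_id⟩

theorem qiso (h : Nonempty (M ≃ₗ[KLRAlg D] N)) : Quo D N M := by
  obtain ⟨e⟩ := h
  exact ⟨e.toLinearMap, e.surjective⟩

theorem qiso' (h : Nonempty (M ≃ₗ[KLRAlg D] N)) : Quo D M N := by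
  obtain ⟨e⟩ := h
  exact ⟨e.symm.toLinearMap, e.symm.surjective⟩

theorem siso (h : Nonempty (M ≃ₗ[KLRAlg D] N)) : Sub D M N := by
  obtain ⟨e⟩ := h
  exact ⟨e.toLinearMap, e.injective⟩

theorem siso' (h : Nonempty (M ≃ₗ[KLRAlg D] N)) : Sub D N M := by
  obtain ⟨e⟩ := h
  exact ⟨e.symm.toLinearMap, e.symm.injective⟩

theorem qconv {m m' : ℕ} (h : m = m') (h1 : Quo D M' M) (h2 : Quo D N' N) :
    Quo D (Conv D m' M' N') (Conv D m M N) := by
  obtain ⟨f, hf⟩ := h1
  obtain ⟨g, hg⟩ := h2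
  exact ⟨Conv.map h f g, Conv.map_surjective h f g hf hg⟩

theorem sconv (hb : S_basis D) {m m' n : ℕ} (h : m = m') (hM : IsStrand D m M)
    (hN : IsStrand D n N) (hM' : IsStrand D m' M') (hN' : IsStrand D n N')
    (h1 : Sub D M M') (h2 : Sub D N N') : Sub D (Conv D m M N) (Conv D m' M' N') := by
  obtain ⟨f, hf⟩ := h1
  obtain ⟨g, hg⟩ := h2
  exact ⟨Conv.map h f g, Conv.map_injective hb h hM hN hM' hN' f g hf hg⟩

end gen

variable {D : Datum K I} {Lp : I → ℕ → SMod D}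

theorem LW_Lp (i j : I) (a : ℕ) (P : ℕ → Sh I ℚ)
    (hP : ∀ a w, P a w = if w = List.replicate a i then (a.factorial : ℚ) else 0) :
    Sh.L j (P (a + 1)) = if j = i then ((a + 1 : ℕ) : ℚ) • P a else 0 := by
  apply Sh.ext'
  intro w
  rw [Sh.L_apply, hP, List.replicate_succ]
  by_cases hj : j = i
  · subst hj
    rw [if_pos rfl, Sh.smul_apply, hP]
    by_cases hw : w = List.replicate a j
    · rw [if_pos hw, if_pos (by rw [hw]), Nat.factorial_succ]
      push_cast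
      ring
    · rw [if_neg hw, if_neg (fun h => hw (List.cons.inj h).2), mul_zero]
  · rw [if_neg hj, if_neg (fun h => hj (List.cons.inj h).1)]
    rfl

theorem L_zero (i : I) (P : ℕ → Sh I ℚ)
    (hP : ∀ a w, P a w = if w = List.replicate a i then (a.factorial : ℚ) else 0) :
    P 0 = 1 := by
  apply Sh.ext'
  intro w
  rw [hP]
  cases w with
  | nil => simp [Sh.one_nil]
  | cons k w => rw [if_neg (by simp)]; rfl

theorem P_succ (i : I) (P : ℕ → Sh I ℚ)
    (hP : ∀ a w, P a w = if w = List.replicate a i then (a.factorial : ℚ) else 0) (a : ℕ) :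
    P (a + 1) = P a * P 1 := by
  induction a with
  | zero => rw [L_zero i P hP, one_mul]
  | succ a ih =>
    apply Sh.ext'
    intro w
    cases w with
    | nil =>
      rw [Sh.mul_nil, hP, hP 1, if_neg (by simp), if_neg (by simp), mul_zero]
    | cons j w =>
      rw [Sh.mul_cons, LW_Lp i j a P hP, LW_Lp i j 0 P hP, L_zero i P hP]
      have h0 : P (a + 1 + 1) (j :: w) = (if j = i then ((a + 1 + 1 : ℕ) : ℚ) • P (a + 1)
          else 0 : Sh I ℚ) w := by
        rw [← LW_Lp i j (a + 1) P hP]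
        rfl
      rw [h0]
      by_cases hj : j = i
      · rw [if_pos hj, if_pos hj, if_pos hj, ← Sh.add_apply]
        rw [smul_mul_assoc, ← ih, zero_add, Nat.cast_one, one_smul, mul_one, Nat.cast_succ,
          add_smul, one_smul]
      · rw [if_neg hj, if_neg hj, if_neg hj, zero_mul, mul_zero]
        simp

theorem chq_Lp (hC : CFacts D Lp) (i : I) (a : ℕ) :
    (Lp i a).chq = Sm.chq (Sm.lt Lp i) ^ a := by
  have hP : ∀ a w, (Lp i a).chq w =
      if w = List.replicate a i then (a.factorial : ℚ) else 0 := by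
    intro a w
    show (((Lp i a).ch w : ℕ) : ℚ) = _
    rw [hC.ch_Lp]
    split_ifs <;> simp
  induction a with
  | zero => rw [pow_zero, L_zero i (fun a => (Lp i a).chq) hP]
  | succ a ih =>
    rw [P_succ i (fun a => (Lp i a).chq) hP a, ih, pow_succ]
    rfl

/-- quotients of `L(i^a) ∘ Y` -/
theorem q_cls (hC : CFacts D Lp) {i : I} {a : ℕ} {Y X : Sm D} {Z : SMod D}
    (hX : Sm.eps hC i X = a + Sm.eps hC i Y) (hE : Sm.E hC i X = Sm.E hC i Y)
    (h : Quo D Z.M ((Lp i a).conv Y.rep)) : Sm.cls Z = X := by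
  have h1 := hC.hd_Emax i a _ Y.rep _ Z (Sm.emax hC i Y) h
  have h2 := Sm.eps_E_of_emax hC (X := Sm.cls Z) (h1.congr (Sm.ch_rep_cls Z).symm rfl)
  exact Sm.eps_inj hC (h2.1.trans hX.symm) (h2.2.trans hE.symm)

theorem q_ex (hC : CFacts D Lp) (hconv : S_conv D) {i : I} {a : ℕ} {Y X : Sm D}
    (hX : Sm.eps hC i X = a + Sm.eps hC i Y) (hE : Sm.E hC i X = Sm.E hC i Y) :
    Quo D X.rep.M ((Lp i a).conv Y.rep) := by
  have := Sm.conv_nontrivial hconv (Lp i a) Y.rep
  obtain ⟨Z, _, hZ⟩ := Sm.exists_quo (Sm.fd_conv hconv (Lp i a) Y.rep)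
  have h1 := q_cls hC hX hE hZ
  refine quo_congr' (Sm.iso_rep hC ?_) hZ
  rw [← h1, Sm.ch_rep_cls]

theorem cls_eq (hC : CFacts D Lp) {Z : SMod D} {X : Sm D} (h : Sm.cls Z = X) : Z.Iso X.rep := by
  refine Sm.iso_rep hC ?_
  rw [← h, Sm.ch_rep_cls]

section chr

variable {n : ℕ} {U V : Type}
  [AddCommGroup U] [Module K U] [Module (KLRAlg D) U] [IsScalarTower K (KLRAlg D) U]
  [AddCommGroup V] [Module K V] [Module (KLRAlg D) V] [IsScalarTower K (KLRAlg D) V]

theorem chrQ_surj (hC : CFacts D Lp) (hU : FdMod D n U) (p : U →ₗ[KLRAlg D] V)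
    (hp : Function.Surjective p) :
    chrQ D n U = Sm.comb (Sm.mult hC (hU.sub (LinearMap.ker p))) + chrQ D n V := by
  have := hU.fd
  apply Sh.ext'
  intro ν
  rw [Sh.add_apply, ← Sm.chrQ_mult, chrQ_apply, chrQ_apply, chrQ_apply,
    chr_add (LinearMap.ker p) ν, chr_congr (LinearMap.quotKerEquivOfSurjective p hp),
    Nat.cast_add]

theorem chrQ_sub (hU : FdMod D n U) (P : Submodule (KLRAlg D) U) :
    chrQ D n U = chrQ D n P + chrQ D n (U ⧸ P) := by
  have := hU.fd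
  apply Sh.ext'
  intro ν
  rw [Sh.add_apply, chrQ_apply, chrQ_apply, chrQ_apply, chr_add P ν, Nat.cast_add]

theorem chrQ_iso (e : U ≃ₗ[KLRAlg D] V) : chrQ D n U = chrQ D n V := by
  apply Sh.ext'
  intro ν
  rw [chrQ_apply, chrQ_apply, chr_congr e]

theorem chrQ_zero [Subsingleton U] (hU : FdMod D n U) : chrQ D n U = 0 := by
  have := hU.fd
  apply Sh.ext'
  intro ν
  rw [chrQ_apply, Sh.zero_apply]
  by_contra h
  have h1 : chr D n U ν ≠ 0 := by exact_mod_cast h
  rw [chr_ne_zero_iff (chr_length h1)] at h1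
  obtain ⟨u, hu⟩ := h1
  exact hu (Subsingleton.elim _ _)

/-- a nonzero module all of whose simple quotients and submodules are `Y` is `Y` if the
multiplicity of `Y` is at most one -/
theorem chrQ_soc (hC : CFacts D Lp) (hU : FdMod D n U) (Y : Sm D)
    (hq : ∀ Z : SMod D, Quo D Z.M U → Sm.cls Z = Y) (hs : ∀ Z : SMod D, Sub D Z.M U → Sm.cls Z = Y)
    (h1 : Sm.mult hC hU Y ≤ 1) (hQ : StMsq D) (hb : S_basis D) :
    ∃ r : Sm D →₀ ℕ, Sm.chq Y = chrQ D n U + Sm.comb r := by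
  by_cases hnt : Nontrivial U
  · obtain ⟨Z, hZn, f, hf⟩ := Sm.exists_quo hU
    have hZ := hq Z ⟨f, hf⟩
    have h2 := Sm.mult_quo hC hU f hf
    have h3 : Sm.mult hC (hU.sub (LinearMap.ker f)) Y = 0 := by
      have h4 := DFunLike.congr_fun h2 Y
      rw [hZ, Finsupp.add_apply, Finsupp.single_eq_same] at h4
      omega
    have hker : LinearMap.ker f = ⊥ := by
      by_contra hne
      have hnt' : Nontrivial (LinearMap.ker f) := (Submodule.nontrivial_iff_ne_bot).2 hne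
      have := (hU.sub (LinearMap.ker f)).fd
      obtain ⟨S, hS⟩ := exists_simple_sub (D := D) (K := K) (M := LinearMap.ker f)
      set Z' : SMod D := ⟨n, S, ⟨(hU.sub (LinearMap.ker f)).sub S, hS⟩⟩ with hZ'
      have h5 : Sm.cls Z' = Y := by
        refine hs Z' ⟨(LinearMap.ker f).subtype.comp S.subtype, ?_⟩
        rw [LinearMap.coe_comp]
        exact (Submodule.injective_subtype _).comp (Submodule.injective_subtype _)
      have h6 : SubQ D Z'.M (LinearMap.ker f) := ⟨S, LinearMap.id, Function.surjective_id⟩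
      have h7 := (hQ Lp ⟨hb, hC⟩ n _ (hU.sub (LinearMap.ker f)) Z').1 h6
      rw [h5] at h7
      exact h7 h3
    refine ⟨0, ?_⟩
    have h4 : Sm.comb (0 : Sm D →₀ ℕ) = 0 := by
      apply Sh.ext'
      intro ν
      rw [Sm.comb_apply, Finsupp.sum_zero_index]
      simp
    have h8 : chrQ D n U = Z.chq := by
      rw [chrQ_iso (LinearEquiv.ofBijective f ⟨LinearMap.ker_eq_bot.1 hker, hf⟩)]
      subst hZn
      rfl
    rw [h4, add_zero, h8, ← Sm.chq_cls, hZ]
  · rw [not_nontrivial_iff_subsingleton] at hnt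
    exact ⟨Finsupp.single Y 1, by rw [chrQ_zero hU, zero_add, Sm.comb_single]⟩

end chr

theorem main (hW : StSwap D) (hP : StLpic D) (hM : StMsub D) (hQ : StMsq D) : StLbf D := by
  intro Lp h i y k yk g F F₀ Y a b hy hk hyk hg hgE hgc hF0 hF0E hF hFE hY hYE
  have hb := h.1
  have hC := h.2
  have hconv : S_conv D := fun m n M N _ _ _ _ _ _ _ _ hM hN => Conv.fdMod_chrQ hb hM hN
  have qg : Quo D g.rep.M ((Lp i a).conv y.rep) :=
    q_ex hC hconv (by rw [hg, hy, add_zero]) (by rw [hgE, Sm.E_of_eps hC hy])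
  have qF : Quo D F.rep.M ((Lp i a).conv F₀.rep) :=
    q_ex hC hconv (by rw [hF, hF0]) (by rw [hFE, hF0E])
  have qF0 : Quo D F₀.rep.M ((Lp i b).conv k.rep) :=
    q_ex hC hconv (by rw [hF0, hk, add_zero]) (by rw [hF0E, Sm.E_of_eps hC hk])
  have qF' : Quo D F.rep.M ((Lp i (a + b)).conv k.rep) :=
    q_ex hC hconv (by rw [hF, hk, add_zero]) (by rw [hFE, Sm.E_of_eps hC hk])
  have hyk0 : Sm.eps hC i yk = 0 := by
    rw [← hYE]; exact Sm.eps_E hC i Y
  have hYY : ∀ Z : SMod D, Quo D Z.M ((Lp i (a + b)).conv yk.rep) → Sm.cls Z = Y := fun Z hZ =>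
    q_cls hC (by rw [hY, hyk0, add_zero]) (by rw [hYE, Sm.E_of_eps hC hyk0]) hZ
  have ng : g.rep.n = (Lp i a).n + y.rep.n := quo_strand (Sm.fd_conv hconv _ _) qg
  have nF : F.rep.n = (Lp i a).n + F₀.rep.n := quo_strand (Sm.fd_conv hconv _ _) qF
  have nF0 : F₀.rep.n = (Lp i b).n + k.rep.n := quo_strand (Sm.fd_conv hconv _ _) qF0
  have iyk : Nonempty (y.rep.conv k.rep ≃ₗ[KLRAlg D] yk.rep.M) := Sm.iso_conv hC hconv hyk
  obtain ⟨j, hj⟩ := (hW hb Lp hC _ _ _).1 qg
  obtain ⟨f, hf⟩ := qF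
  set m := y.rep.n + (Lp i a).n with hm
  have sg : IsStrand D m g.rep.M := by
    have := g.rep.smp.strand
    rwa [ng, add_comm] at this
  have dU : FdMod D m (y.rep.conv (Lp i a)) := Sm.fd_conv hconv _ _
  set A : Conv D m (y.rep.conv (Lp i a)) F₀.rep.M →ₗ[KLRAlg D] y.rep.conv F.rep :=
    (Conv.map (rfl : y.rep.n = y.rep.n) (LinearMap.id : y.rep.M →ₗ[KLRAlg D] y.rep.M) f).comp
      (Conv.assoc D y.rep.n (Lp i a).n y.rep.M (Lp i a).M F₀.rep.M).toLinearMap with hA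
  have hAs : Function.Surjective A := by
    rw [hA, LinearMap.coe_comp]
    exact (Conv.map_surjective rfl _ _ Function.surjective_id hf).comp (LinearEquiv.surjective _)
  set J : Conv D m g.rep.M F₀.rep.M →ₗ[KLRAlg D] Conv D m (y.rep.conv (Lp i a)) F₀.rep.M :=
    Conv.map rfl j LinearMap.id with hJ
  set Im : Submodule (KLRAlg D) (y.rep.conv F.rep) := LinearMap.range (A.comp J) with hIm
  have dyF : FdMod D (y.rep.n + F.rep.n) (y.rep.conv F.rep) := Sm.fd_conv hconv _ _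
  -- simple quotients of the image
  have hIq : ∀ Z : SMod D, Quo D Z.M Im → Sm.cls Z = Y := by
    intro Z hZ
    apply hYY
    have c1 : Quo D Im (Conv D m g.rep.M F₀.rep.M) :=
      ⟨(A.comp J).rangeRestrict, LinearMap.surjective_rangeRestrict _⟩
    have c2 : Quo D (Conv D m g.rep.M F₀.rep.M) (Conv D g.rep.n g.rep.M
        ((Lp i b).conv k.rep)) := qconv (by rw [ng, hm, add_comm]) qrefl qF0
    have c3 : Quo D (Conv D g.rep.n g.rep.M ((Lp i b).conv k.rep))
        (Conv D (g.rep.n + (Lp i b).n) (g.rep.conv (Lp i b)) k.rep.M) :=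
      qiso ⟨Conv.assoc D g.rep.n (Lp i b).n g.rep.M (Lp i b).M k.rep.M⟩
    have c4 : Quo D (Conv D (g.rep.n + (Lp i b).n) (g.rep.conv (Lp i b)) k.rep.M)
        (Conv D ((Lp i b).n + g.rep.n) ((Lp i b).conv g.rep) k.rep.M) :=
      qconv (add_comm _ _) (qiso (hP Lp h i g.rep hgc b)) qrefl
    have c5 : Quo D (Conv D ((Lp i b).n + g.rep.n) ((Lp i b).conv g.rep) k.rep.M)
        (Conv D (Lp i b).n (Lp i b).M (g.rep.conv k.rep)) :=
      qiso' ⟨Conv.assoc D (Lp i b).n g.rep.n (Lp i b).M g.rep.M k.rep.M⟩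
    have c6 : Quo D (Conv D (Lp i b).n (Lp i b).M (g.rep.conv k.rep))
        (Conv D (Lp i b).n (Lp i b).M (Conv D ((Lp i a).n + y.rep.n)
          ((Lp i a).conv y.rep) k.rep.M)) := qconv rfl qrefl (qconv ng.symm qg qrefl)
    have c7 : Quo D (Conv D (Lp i b).n (Lp i b).M (Conv D ((Lp i a).n + y.rep.n)
          ((Lp i a).conv y.rep) k.rep.M)) (Conv D (Lp i b).n (Lp i b).M
            (Conv D (Lp i a).n (Lp i a).M (y.rep.conv k.rep))) :=
      qconv rfl qrefl (qiso' ⟨Conv.assoc D (Lp i a).n y.rep.n (Lp i a).M y.rep.M k.rep.M⟩)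
    have c8 : Quo D (Conv D (Lp i b).n (Lp i b).M
            (Conv D (Lp i a).n (Lp i a).M (y.rep.conv k.rep)))
        (Conv D (Lp i b).n (Lp i b).M ((Lp i a).conv yk.rep)) :=
      qconv rfl qrefl (qconv rfl qrefl (qiso' iyk))
    have c9 : Quo D (Conv D (Lp i b).n (Lp i b).M ((Lp i a).conv yk.rep))
        (Conv D ((Lp i b).n + (Lp i a).n) ((Lp i b).conv (Lp i a)) yk.rep.M) :=
      qiso ⟨Conv.assoc D (Lp i b).n (Lp i a).n (Lp i b).M (Lp i a).M yk.rep.M⟩
    have c10 : Quo D (Conv D ((Lp i b).n + (Lp i a).n) ((Lp i b).conv (Lp i a)) yk.rep.M)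
        ((Lp i (a + b)).conv yk.rep) := by
      refine qconv ?_ (qiso' (Sm.iso_conv' hC hconv ?_)) qrefl
      · rw [hC.n_Lp, hC.n_Lp, hC.n_Lp, add_comm]
      · rw [chq_Lp hC, chq_Lp hC, chq_Lp hC, ← pow_add, add_comm]
    exact qtrans (qtrans (qtrans (qtrans (qtrans (qtrans (qtrans (qtrans (qtrans (qtrans hZ c1)
      c2) c3) c4) c5) c6) c7) c8) c9) c10
  -- simple submodules of the image
  have hIs : ∀ Z : SMod D, Sub D Z.M Im → Sm.cls Z = Y := by
    intro Z hZ
    apply hYY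
    rw [hW hb Lp hC]
    have c1 : Sub D Im (y.rep.conv F.rep) := ⟨Im.subtype, Submodule.injective_subtype _⟩
    have c2 : Sub D (y.rep.conv F.rep) (Conv D y.rep.n y.rep.M
        (k.rep.conv (Lp i (a + b)))) := by
      have hd := Sm.fd_conv hconv k.rep (Lp i (a + b))
      refine sconv hb rfl y.rep.smp.strand F.rep.smp.strand y.rep.smp.strand ?_ srefl
        ((hW hb Lp hC _ _ _).1 qF')
      have h1 := quo_strand (Sm.fd_conv hconv _ _) qF'
      rw [h1, add_comm]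
      exact hd.strand
    have c3 : Sub D (Conv D y.rep.n y.rep.M (k.rep.conv (Lp i (a + b))))
        (Conv D (y.rep.n + k.rep.n) (y.rep.conv k.rep) (Lp i (a + b)).M) :=
      siso' ⟨Conv.assoc D y.rep.n k.rep.n y.rep.M k.rep.M (Lp i (a + b)).M⟩
    have nyk : yk.rep.n = y.rep.n + k.rep.n := quo_strand (Sm.fd_conv hconv _ _) (qiso iyk)
    have c4 : Sub D (Conv D (y.rep.n + k.rep.n) (y.rep.conv k.rep) (Lp i (a + b)).M)
        (yk.rep.conv (Lp i (a + b))) :=
      sconv hb nyk.symm (Sm.fd_conv hconv _ _).strand (Lp i (a + b)).smp.strand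
        yk.rep.smp.strand (Lp i (a + b)).smp.strand (siso iyk) srefl
    exact strans (strans (strans (strans hZ c1) c2) c3) c4
  -- the multiplicity of `Y`
  have hco : Sm.co hC hconv y F Y = 1 := by
    rw [Sm.co_E hC hconv (i := i) (by rw [hY, hy, hF, zero_add]), Sm.E_of_eps hC hy, hFE, hYE,
      Sm.co_of_chq hC hconv hyk, Finsupp.single_eq_same]
  have hmul : Sm.mult hC (dyF.sub Im) Y ≤ 1 := by
    have h1 : Sm.mult hC dyF Y = 1 := hco
    have h2 := hM Lp h _ _ dyF Im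
    rw [h2, Finsupp.add_apply] at h1
    omega
  obtain ⟨r, hr⟩ := chrQ_soc hC (dyF.sub Im) Y hIq hIs hmul hQ hb
  -- the quotient
  set R : Submodule (KLRAlg D) (y.rep.conv (Lp i a)) := LinearMap.range j with hR
  have dG : FdMod D m ((y.rep.conv (Lp i a)) ⧸ R) := dU.quot R
  have hex : Function.Exact j R.mkQ := by
    rw [LinearMap.exact_iff, Submodule.ker_mkQ]
  have hex' := Conv.exact_left hb F₀.rep.smp.strand sg dU.strand dG.strand j R.mkQ hex
  set p : Conv D m (y.rep.conv (Lp i a)) F₀.rep.M →ₗ[KLRAlg D]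
      Conv D m ((y.rep.conv (Lp i a)) ⧸ R) F₀.rep.M :=
    Conv.map rfl R.mkQ LinearMap.id with hp
  have hps : Function.Surjective p :=
    Conv.map_surjective rfl _ _ R.mkQ_surjective Function.surjective_id
  have hle : LinearMap.ker p ≤ LinearMap.ker (Im.mkQ.comp A) := by
    intro z hz
    obtain ⟨z', hz'⟩ := (hex' z).1 (LinearMap.mem_ker.1 hz)
    rw [LinearMap.mem_ker, LinearMap.comp_apply, Submodule.mkQ_apply,
      Submodule.Quotient.mk_eq_zero, hIm]
    refine ⟨z', ?_⟩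
    rw [LinearMap.comp_apply, ← hz']
  set ψ : Conv D m ((y.rep.conv (Lp i a)) ⧸ R) F₀.rep.M →ₗ[KLRAlg D]
      (y.rep.conv F.rep) ⧸ Im := ((LinearMap.ker p).liftQ (Im.mkQ.comp A) hle).comp
        (LinearMap.quotKerEquivOfSurjective p hps).symm.toLinearMap with hψ
  have hψs : Function.Surjective ψ := by
    rw [hψ, LinearMap.coe_comp]
    refine Function.Surjective.comp ?_ (LinearEquiv.surjective _)
    intro z
    obtain ⟨u, hu⟩ : ∃ u, Im.mkQ.comp A u = z := by
      have : Function.Surjective (Im.mkQ.comp A) := by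
        rw [LinearMap.coe_comp]
        exact Im.mkQ_surjective.comp hAs
      exact this z
    exact ⟨Submodule.Quotient.mk u, hu⟩
  obtain ⟨dGF1, dGF2⟩ := hconv m F₀.rep.n _ _ dG F₀.rep.smp.toFdMod
  have hn : m + F₀.rep.n = y.rep.n + F.rep.n := by rw [hm, nF, add_assoc]
  have e4 := chrQ_surj hC dGF1 ψ hψs
  have e7 : chrQ D (m + F₀.rep.n) ((y.rep.conv F.rep) ⧸ Im) =
      chrQ D (y.rep.n + F.rep.n) ((y.rep.conv F.rep) ⧸ Im) := by rw [hn]
  rw [dGF2, e7] at e4
  have e1 := chrQ_sub dyF Im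
  rw [Sm.chrQ_conv hconv, Sm.chq_rep, Sm.chq_rep] at e1
  have e3 := chrQ_sub dU R
  rw [hm, Sm.chrQ_conv hconv, chq_Lp hC, Sm.chq_rep, ← hm] at e3
  have e5 : chrQ D m R = Sm.chq g := by
    have h1 : chrQ D m g.rep.M = Sm.chq g := by
      have h2 : m = g.rep.n := by rw [ng, hm, add_comm]
      rw [h2, ← Sm.chq_rep]
      rfl
    rw [← h1]
    exact (chrQ_iso (LinearEquiv.ofInjective j hj)).symm
  have e6 : chrQ D F₀.rep.n F₀.rep.M = Sm.chq F₀ := by
    rw [← Sm.chq_rep]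
    rfl
  refine ⟨r + Sm.mult hC (dGF1.sub (LinearMap.ker ψ)), ?_⟩
  rw [Sm.comb_add, e3, e5, hr, e1, add_mul]
  rw [e6] at e4
  rw [e4]
  ring

end XLBF

theorem Mo.I_LBF (D : Datum K I) (hW : StSwap D) (hP : StLpic D) (hM : StMsub D) (hQ : StMsq D)
    (hL : StLphd D) : StLbf D := XLBF.main hW hP hM hQ

end Pool.Agent.KLR
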