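import Pool.Agent.Work.MP_e487d8_al.Mo.Head
import Pool.Agent.Work.MP_e487d8_al.Cry.Facts
import Pool.Agent.Work.MP_e487d8_al.Cry.Main

/-! MP_e487d8_al, item LPHD: the simple quotients of `L(i^a) ∘ M` if `ε_i(M) = 0`. -/

set_option autoImplicit false
set_option linter.unusedSectionVars false

open scoped TensorProduct

open Pool.Agent.E487.Hopf

namespace Pool.Agent.KLR

namespace XLPHD

variable {K I : Type} [Field K] [Fintype I] [DecidableEq I] {D : Datum K I}

/-- no word starts with `i`: no vector of `e(i) M` -/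
theorem noKr {n : ℕ} {M : Type} [AddCommGroup M] [Module K M] [Module (KLRAlg D) M]
    [IsScalarTower K (KLRAlg D) M] (hM : FdMod D n M) {i : I}
    (h : ∀ ν, chr D n M (i :: ν) = 0) (x : M) (hx : IsKr D i 1 x) : x = 0 := by
  by_contra hx0
  have := hM.fd
  obtain ⟨ν, hl, hν⟩ := exists_word hM.strand x hx0
  have he : D.e 0 i • x = x := (hx 0 (by norm_num)).1
  cases ν with
  | nil =>
    have hn : n = 0 := by simpa using hl.symm
    subst hn
    apply hx0
    rw [← he, hM.strand.zero 0 le_rfl]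
  | cons j ν =>
    by_cases hj : j = i
    · subst hj
      exact (chr_ne_zero_iff hl).2 ⟨x, hν⟩ (h ν)
    · apply hν
      have h1 := D.tr_mul_shn (le_refl 1) (D.e 0 i) (D.eW ν)
      rw [D.tr_e, if_pos (by norm_num)] at h1
      rw [← he, D.eW_cons, ← mul_smul, mul_assoc, ← h1, ← mul_assoc, D.e_mul_e_ne 0 hj, zero_mul,
        zero_smul]

end XLPHD

open XLPHD in
theorem Mo.I_LPHD {K I : Type} [Field K] [Fintype I] [DecidableEq I] (D : Datum K I) :
    StLphd D := by
  intro Lp hB i a n M _ _ _ _ hM h0 Z hZ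
  obtain ⟨hb, hC⟩ := hB
  obtain ⟨v, hL⟩ := LpS_spec hb i a
  have hiso : (LpS hb i a).Iso (Lp i a) := by
    apply Sm.iso_rep hC
    funext ν
    rw [(cFacts hb).ch_Lp, hC.ch_Lp]
  have hI := hL.ind n M hM (noKr hM h0)
  obtain ⟨f, hf⟩ := hZ
  obtain ⟨g⟩ := id hiso
  have hn : (LpS hb i a).n = a := hL.n_eq
  set f' : Conv D (LpS hb i a).n (LpS hb i a).M M →ₗ[KLRAlg D] Z.M :=
    f ∘ₗ Conv.map hn g.toLinearMap (LinearMap.id : M →ₗ[KLRAlg D] M) with hf'
  have sf' : Function.Surjective f' := by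
    rw [hf', LinearMap.coe_comp]
    exact hf.comp (Conv.map_surjective hn _ _ g.surjective Function.surjective_id)
  have hZs := Z.smp.simple
  have hZn : Nontrivial Z.M := IsSimpleModule.nontrivial (KLRAlg D) Z.M
  have hG := hI.isGen.comp f' sf'
  -- a vector
  have hex : ∃ x : M, f' (Conv.mk D (LpS hb i a).n (LpS hb i a).M M v x) ≠ 0 := by
    by_contra hne
    push Not at hne
    obtain ⟨z, hz⟩ := exists_ne (0 : Z.M)
    have h1 : z ∈ Submodule.span (KLRAlg D)
      (Set.range ((Conv.toK f').comp (Conv.mk D (LpS hb i a).n (LpS hb i a).M M v))) := by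
      rw [hG.gen]; trivial
    apply hz
    have h2 : Submodule.span (KLRAlg D)
      (Set.range ((Conv.toK f').comp (Conv.mk D (LpS hb i a).n (LpS hb i a).M M v))) ≤ ⊥ := by
      rw [Submodule.span_le]
      rintro _ ⟨x, rfl⟩
      exact hne x
    exact (Submodule.mem_bot _).1 (h2 h1)
  obtain ⟨x₀, hx₀⟩ := hex
  have heps : eps D i Z.M = a := eps_eq Z.smp.strand hx₀ ((hI.kr x₀).isEw.map f')
    (fun w hw => hI.ew_succ_quot (noKr hM h0) f' sf' hw)
  subst heps
  refine ⟨SMod.Em hb i Z, ?_, SMod.emax_self hb i Z, ?_⟩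
  · let φ : M →ₗ[KLRAlg D] Kr D i (eps D i Z.M) Z.M :=
      { toFun := fun x => Kr.of (f' (Conv.mk D _ _ M v x)) ((hI.kr x).map f')
        map_add' := fun x y => by
          apply Kr.val_injective
          rw [Kr.val_add, Kr.val_of, Kr.val_of, Kr.val_of, map_add, map_add]
        map_smul' := fun b x => by
          apply Kr.val_injective
          rw [RingHom.id_apply, Kr.val_smul, Kr.val_of, Kr.val_of, ← hI.bal, map_smul] }
    have hs : IsSimpleModule (KLRAlg D) (Kr D i (eps D i Z.M) Z.M) := Kr.simple hb Z.smp i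
    have hsur : Function.Surjective φ := by
      refine LinearMap.surjective_of_ne_zero ?_
      intro hφ
      apply hx₀
      exact congrArg Kr.val (LinearMap.congr_fun hφ x₀)
    exact ⟨φ, hsur⟩
  · exact SMod.quo_congr hiso (SMod.Iso.refl _) (SMod.Iso.refl _) (SMod.quo_self hb Z hL)

end Pool.Agent.KLR
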