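import Pool.Agent.Work.MP_e487d8_al.Mo.Head
import Pool.Agent.Work.MP_e487d8_al.Mod.Fd
import Pool.Agent.Work.MP_e487d8_al.Cry.Ind

/-! MP_e487d8_al, module side, item LPIC: if `L(i) ∘ C ≅ C ∘ L(i)` then
`L(i^a) ∘ C ≅ C ∘ L(i^a)`. -/

set_option autoImplicit false
set_option linter.unusedSectionVars false

open Pool.Agent.E487.Hopf

namespace Pool.Agent.KLR

variable {K I : Type} [Field K] [Fintype I] [DecidableEq I] (D : Datum K I)

namespace XLPIC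

variable {D} in
theorem chq_lp {Lp : I → ℕ → SMod D} (hC : CFacts D Lp) (i : I) (a : ℕ) :
    (Lp i a).chq = chLp i a := by
  apply Sh.ext'
  intro w
  show ((Lp i a).ch w : ℚ) = chLp i a w
  rw [hC.ch_Lp]
  unfold chLp
  split_ifs <;> simp

end XLPIC

theorem Mo.I_LPIC (h : StIcm D) : StLpic D := by
  intro Lp hB i C h1 a
  have hconv : S_conv D := fun _ _ _ _ _ _ _ _ _ _ _ _ hM hN => Conv.fdMod_chrQ hB.1 hM hN
  have sym : ∀ X Y : SMod D, X.IC Y → Y.IC X := fun X Y ⟨e⟩ => ⟨e.symm⟩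
  induction a with
  | zero =>
    have h0 : (Lp i 0).chq = 1 := by rw [XLPIC.chq_lp hB.2, chLp_zero]
    obtain ⟨e⟩ := Sm.iso_conv' hB.2 hconv (X := Lp i 0) (Y := C) (Z := C) (by rw [h0, one_mul])
    obtain ⟨e'⟩ := Sm.iso_conv' hB.2 hconv (X := C) (Y := Lp i 0) (Z := C) (by rw [h0, mul_one])
    exact ⟨e.trans e'.symm⟩
  | succ a ih =>
    refine sym _ _ (h Lp hB C (Lp i 1) (Lp i a) (Lp i (a + 1)) ?_ (sym _ _ h1) (sym _ _ ih))
    rw [XLPIC.chq_lp hB.2, XLPIC.chq_lp hB.2, XLPIC.chq_lp hB.2, chLp_mul, Nat.add_comm]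

end Pool.Agent.KLR
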