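import Pool.Agent.Work.MP_e487d8_al.Mo.Head

/-! MP_e487d8_al, block MO, item MSQ: the constituents are the simple subquotients. -/

set_option autoImplicit false
set_option linter.unusedSectionVars false

open Pool.Agent.E487.Hopf

namespace Pool.Agent.KLR

variable {K I : Type} [Field K] [Fintype I] [DecidableEq I] (D : Datum K I)

theorem Mo.I_MSQ (h : StMsub D) : StMsq D := by
  intro Lp hB n M _ _ _ _ hM Z
  constructor
  · rintro ⟨N, f, hf⟩
    have h1 := h Lp hB n M hM N
    have h2 := Sm.mult_ne_of_quo hB.2 (hM.sub N) ⟨f, hf⟩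
    rw [h1, Finsupp.add_apply]
    omega
  · intro h1
    exact subQ_congr (Sm.iso_rep hB.2 (Sm.ch_rep_cls Z)) (Sm.subQ_of_mult hB.2 hM h1)

end Pool.Agent.KLR
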