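import Pool.Agent.Work.MP_e487d8_al.Mo.Head

/-! MP_e487d8_al, block MO, item MSUB: multiplicities are additive. -/

set_option autoImplicit false
set_option linter.unusedSectionVars false

open Pool.Agent.E487.Hopf

namespace Pool.Agent.KLR

variable {K I : Type} [Field K] [Fintype I] [DecidableEq I] (D : Datum K I)

theorem Mo.I_MSUB : StMsub D := by
  intro Lp h n M _ _ _ _ hM P
  have := hM.fd
  apply Sm.mult_unique
  rw [Sm.comb_add, ← Sm.chrQ_mult, ← Sm.chrQ_mult]
  apply Sh.ext'
  intro ν
  rw [Sh.add_apply, chrQ_apply, chrQ_apply, chrQ_apply, chr_add P ν, Nat.cast_add]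

end Pool.Agent.KLR
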