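import Pool.Agent.Work.MP_e487d8_al.Mo.Cf
import Pool.Agent.Work.MP_e487d8_al.Pbw.W
import Pool.Agent.Work.MP_e487d8_al.Pbw.Stable

/-! MP_e487d8_al, module side: RHO. -/

set_option autoImplicit false
set_option linter.unusedSectionVars false

open scoped TensorProduct

namespace Pool.Agent.KLR

variable {K I : Type} [Field K] [Fintype I] [DecidableEq I]

namespace XRHO

variable {D : Datum K I}

theorem strandTw {n : ℕ} {M : Type} [AddCommGroup M] [Module K M] [Module (KLRAlg D) M]
    [IsScalarTower K (KLRAlg D) M] (h : IsStrand D (n + 1) M) :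
    IsStrand D n (Tw (D.shn 1) M) where
  one k hk u := by
    obtain ⟨u, rfl⟩ := (Tw.mk (D.shn 1)).surjective u
    rw [Tw.smul_mk, D.shn_E, h.one _ (by omega)]
  zero k hk i u := by
    obtain ⟨u, rfl⟩ := (Tw.mk (D.shn 1)).surjective u
    rw [Tw.smul_mk, D.shn_e, h.zero _ (by omega), map_zero]

/-- add a first letter `true` -/
def consT {m n : ℕ} (w : Shf m n) : Shf m (n + 1) := ⟨true :: w.1, by
  rw [List.count_cons_self, List.count_cons_of_ne (by decide), w.2.1, w.2.2]; exact ⟨rfl, rfl⟩⟩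

theorem consT_injective {m n : ℕ} : Function.Injective (consT (m := m) (n := n)) := by
  intro w w' h
  have h1 := congrArg Subtype.val h
  exact Subtype.ext (List.cons.inj h1).2

section

variable {m n : ℕ} {M N : Type} [AddCommGroup M] [Module K M] [Module (KLRAlg D) M]
  [IsScalarTower K (KLRAlg D) M] [AddCommGroup N] [Module K N] [Module (KLRAlg D) N]
  [IsScalarTower K (KLRAlg D) N]

/-- bilinear map for `phi` -/
noncomputable def bphi (D : Datum K I) (m : ℕ) (M N : Type) [AddCommGroup M] [Module K M]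
    [Module (KLRAlg D) M] [IsScalarTower K (KLRAlg D) M] [AddCommGroup N] [Module K N]
    [Module (KLRAlg D) N] [IsScalarTower K (KLRAlg D) N] :
    Tw (D.shn 1) M →ₗ[K] N →ₗ[K] Tw (D.shn 1) (Conv D (m + 1) M N) :=
  ((Conv.mk D (m + 1) M N).compr₂ (Tw.mk (D.shn 1)).toLinearMap).comp
    (Tw.mk (D.shn 1)).symm.toLinearMap

theorem bphi_apply (u : M) (v : N) : bphi D m M N (Tw.mk (D.shn 1) u) v =
    Tw.mk (D.shn 1) (Conv.mk D (m + 1) M N u v) := rfl

theorem bphi_balanced : Balanced D m (bphi D m M N) where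
  left a u v := by
    obtain ⟨u, rfl⟩ := (Tw.mk (D.shn 1)).surjective u
    rw [Tw.smul_mk, bphi_apply, bphi_apply, Tw.smul_mk, ← D.tr_shn, add_comm 1 m,
      Conv.tr_smul_mk]
  right a u v := by
    obtain ⟨u, rfl⟩ := (Tw.mk (D.shn 1)).surjective u
    rw [bphi_apply, bphi_apply, Tw.smul_mk, D.shn_shn, add_comm 1 m, Conv.shn_smul_mk]

/-- `mk u v ↦ mk u v`, without the first strand of `M` -/
noncomputable def phi (D : Datum K I) (m : ℕ) (M N : Type) [AddCommGroup M] [Module K M]
    [Module (KLRAlg D) M] [IsScalarTower K (KLRAlg D) M] [AddCommGroup N] [Module K N]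
    [Module (KLRAlg D) N] [IsScalarTower K (KLRAlg D) N] :
    Conv D m (Tw (D.shn 1) M) N →ₗ[KLRAlg D] Tw (D.shn 1) (Conv D (m + 1) M N) :=
  Conv.lift (bphi D m M N) bphi_balanced

theorem phi_mk (u : M) (v : N) : phi D m M N (Conv.mk D m (Tw (D.shn 1) M) N
    (Tw.mk (D.shn 1) u) v) = Tw.mk (D.shn 1) (Conv.mk D (m + 1) M N u v) := by
  unfold phi
  rw [Conv.lift_mk, bphi_apply]

/-- the coefficients of `true :: w` vanish on the elements `shn 1 a • mk u v` -/
theorem cf_true_shn (hb : S_basis D) (hM : IsStrand D m M) (hN : IsStrand D n N) (hm : 0 < m)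
    (w : List Bool) (a : KLRAlg D) (u : M) (v : N) :
    Conv.cf hb hM hN (true :: w) (D.shn 1 a • Conv.mk D m M N u v) = 0 := by
  obtain ⟨m, rfl⟩ : ∃ m', m = m' + 1 := ⟨m - 1, by omega⟩
  have key : ∀ z : Conv D m (Tw (D.shn 1) M) N,
      Conv.cf hb hM hN (true :: w) ((Tw.mk (D.shn 1)).symm (phi D m M N z)) = 0 := by
    intro z
    induction z using Conv.ind_tw hb (strandTw hM) hN with
    | h0 => simp only [map_zero]
    | hadd y z hy hz => rw [map_add, map_add, map_add, hy, hz, add_zero]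
    | h w' u v =>
      obtain ⟨u, rfl⟩ := (Tw.mk (D.shn 1)).surjective u
      rw [map_smul, phi_mk, Tw.smul_mk, LinearEquiv.symm_apply_apply]
      let w'' : Shf (m + 1) n := ⟨false :: w'.1, by
        rw [List.count_cons_self, List.count_cons_of_ne (by decide), w'.2.1, w'.2.2]
        exact ⟨rfl, rfl⟩⟩
      have h1 := Conv.cf_tw hb hM hN w'' (true :: w) u v
      rw [if_neg (fun h => Bool.noConfusion (List.cons.inj h).1)] at h1
      exact h1
  have h2 := key (a • Conv.mk D m (Tw (D.shn 1) M) N (Tw.mk (D.shn 1) u) v)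
  rw [map_smul, phi_mk, Tw.smul_mk, LinearEquiv.symm_apply_apply] at h2
  exact h2

/-- the submodule generated by the elements `mk u v` (and zero if `m = 0`) -/
noncomputable def FF (D : Datum K I) (m : ℕ) (M N : Type) [AddCommGroup M] [Module K M]
    [Module (KLRAlg D) M] [IsScalarTower K (KLRAlg D) M] [AddCommGroup N] [Module K N]
    [Module (KLRAlg D) N] [IsScalarTower K (KLRAlg D) N] :
    Submodule (KLRAlg D) (Tw (D.shn 1) (Conv D m M N)) :=
  Submodule.span (KLRAlg D)
    {z | 0 < m ∧ ∃ (u : M) (v : N), z = Tw.mk (D.shn 1) (Conv.mk D m M N u v)}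

theorem shn_mem (hm : 0 < m) (a : KLRAlg D) (u : M) (v : N) :
    Tw.mk (D.shn 1) (D.shn 1 a • Conv.mk D m M N u v) ∈ FF D m M N := by
  rw [← Tw.smul_mk]
  exact Submodule.smul_mem _ a (Submodule.subset_span ⟨hm, u, v, rfl⟩)

/-- `W m • mk u v` lies in `FF` -/
theorem W_mem {c : KLRAlg D} (hc : c ∈ Pbw.W D m) (u : M) (v : N) :
    Tw.mk (D.shn 1) (c • Conv.mk D m M N u v) ∈ FF D m M N := by
  unfold Pbw.W at hc
  induction hc using Submodule.span_induction with
  | mem z hz =>
    obtain ⟨hm, a, b, rfl⟩ := hz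
    rw [mul_smul, Conv.tr_smul_mk]
    exact shn_mem hm a _ v
  | zero => rw [zero_smul, map_zero]; exact Submodule.zero_mem _
  | add x y _ _ hx hy => rw [add_smul, map_add]; exact Submodule.add_mem _ hx hy
  | smul r x _ hx =>
    rw [smul_assoc, map_smul, ← algebraMap_smul (KLRAlg D) r]
    exact Submodule.smul_mem _ _ hx

/-- bilinear map for `sig` -/
noncomputable def bsig (D : Datum K I) (m : ℕ) (M N : Type) [AddCommGroup M] [Module K M]
    [Module (KLRAlg D) M] [IsScalarTower K (KLRAlg D) M] [AddCommGroup N] [Module K N]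
    [Module (KLRAlg D) N] [IsScalarTower K (KLRAlg D) N] :
    M →ₗ[K] Tw (D.shn 1) N →ₗ[K] (Tw (D.shn 1) (Conv D m M N) ⧸ FF D m M N) :=
  LinearMap.mk₂ K (fun u v => (FF D m M N).mkQ (Tw.mk (D.shn 1)
    (D.chain m • Conv.mk D m M N u ((Tw.mk (D.shn 1)).symm v))))
    (by
      intro u u' v
      rw [map_add, LinearMap.add_apply, smul_add, map_add, map_add])
    (by
      intro r u v
      rw [map_smul (Conv.mk D m M N), LinearMap.smul_apply, smul_comm (D.chain m) r,
        map_smul (Tw.mk (D.shn 1))]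
      rfl)
    (by
      intro u v v'
      rw [map_add, map_add, smul_add, map_add, map_add])
    (by
      intro r u v
      rw [map_smul (Tw.mk (D.shn 1)).symm, map_smul (Conv.mk D m M N u),
        smul_comm (D.chain m) r, map_smul (Tw.mk (D.shn 1))]
      rfl)

theorem bsig_apply (u : M) (v : N) : bsig D m M N u (Tw.mk (D.shn 1) v) =
    (FF D m M N).mkQ (Tw.mk (D.shn 1) (D.chain m • Conv.mk D m M N u v)) := rfl

theorem bsig_balanced : Balanced D m (bsig D m M N) where
  left a u v := by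
    obtain ⟨v, rfl⟩ := (Tw.mk (D.shn 1)).surjective v
    rw [bsig_apply, bsig_apply, ← map_smul, Tw.smul_mk, ← sub_eq_zero, ← map_sub, ← map_sub,
      ← Conv.tr_smul_mk, ← mul_smul, ← mul_smul, ← sub_smul]
    exact (Submodule.Quotient.mk_eq_zero _).2 (W_mem (Pbw.prf_W1 D m a) u v)
  right a u v := by
    obtain ⟨v, rfl⟩ := (Tw.mk (D.shn 1)).surjective v
    rw [Tw.smul_mk, bsig_apply, bsig_apply, ← map_smul, Tw.smul_mk, ← Conv.shn_smul_mk,
      D.shn_shn, D.shn_shn, ← mul_smul, ← mul_smul, add_comm 1 m, ← Pbw.WX.chain_shn]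

/-- `mk u v ↦ chain m • mk u v` -/
noncomputable def sig (D : Datum K I) (m : ℕ) (M N : Type) [AddCommGroup M] [Module K M]
    [Module (KLRAlg D) M] [IsScalarTower K (KLRAlg D) M] [AddCommGroup N] [Module K N]
    [Module (KLRAlg D) N] [IsScalarTower K (KLRAlg D) N] :
    Conv D m M (Tw (D.shn 1) N) →ₗ[KLRAlg D] (Tw (D.shn 1) (Conv D m M N) ⧸ FF D m M N) :=
  Conv.lift (bsig D m M N) bsig_balanced

theorem sig_mk (u : M) (v : N) : sig D m M N (Conv.mk D m M (Tw (D.shn 1) N) u
    (Tw.mk (D.shn 1) v)) =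
    (FF D m M N).mkQ (Tw.mk (D.shn 1) (D.chain m • Conv.mk D m M N u v)) := by
  unfold sig
  rw [Conv.lift_mk, bsig_apply]

theorem sig_tw (w : Shf m n) (u : M) (v : N) :
    sig D m M N (D.tw w.1 • Conv.mk D m M (Tw (D.shn 1) N) u (Tw.mk (D.shn 1) v)) =
    (FF D m M N).mkQ (Tw.mk (D.shn 1) (D.tw (consT w).1 • Conv.mk D m M N u v)) := by
  rw [map_smul, sig_mk, ← map_smul, Tw.smul_mk, ← mul_smul]
  have h : D.tw (consT w).1 = D.shn 1 (D.tw w.1) * D.chain (w.1.count false) := rfl
  rw [h, w.2.1]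

variable (hb : S_basis D) (hM : IsStrand D m M) (hN : IsStrand D (n + 1) N)

/-- the map `rho` -/
noncomputable def rho : Conv D m M N →ₗ[K] Conv D m M (Tw (D.shn 1) N) :=
  (convSum D m n M (Tw (D.shn 1) N)).comp
    ((Finsupp.mapRange.linearMap
      ((Tw.mk (D.shn 1) : N ≃ₗ[K] Tw (D.shn 1) N).toLinearMap.lTensor M)).comp
      ((Finsupp.lcomapDomain consT consT_injective).comp (Conv.csE hb hM hN).toLinearMap))

theorem cf_rho (hN' : IsStrand D n (Tw (D.shn 1) N)) (w : List Bool) (z : Conv D m M N) :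
    Conv.cf hb hM hN' w (rho hb hM hN z) =
      (Tw.mk (D.shn 1) : N ≃ₗ[K] Tw (D.shn 1) N).toLinearMap.lTensor M
        (Conv.cf hb hM hN (true :: w) z) := by
  by_cases h : w.count false = m ∧ w.count true = n
  · obtain ⟨w, rfl⟩ : ∃ w1 : Shf m n, w1.1 = w := ⟨⟨w, h⟩, rfl⟩
    rw [Conv.cf_shf]
    have h1 : Conv.cf hb hM hN (true :: w.1) z = Conv.csE hb hM hN z (consT w) :=
      Conv.cf_shf hb hM hN (consT w) z
    rw [h1]
    have h2 : Conv.csE hb hM hN' (rho hb hM hN z) = Finsupp.mapRange.linearMap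
      ((Tw.mk (D.shn 1) : N ≃ₗ[K] Tw (D.shn 1) N).toLinearMap.lTensor M)
      (Finsupp.lcomapDomain (R := K) consT consT_injective (Conv.csE hb hM hN z)) :=
      LinearEquiv.symm_apply_apply _ _
    rw [h2]
    rfl
  · rw [Conv.cf_out hb hM hN' h, Conv.cf_out hb hM hN, map_zero]
    rintro ⟨h1, h2⟩
    rw [List.count_cons_of_ne (by decide)] at h1
    rw [List.count_cons_self] at h2
    exact h ⟨h1, by omega⟩

theorem rho_tw_true (w : Shf m n) (u : M) (v : N) :
    rho hb hM hN (D.tw (consT w).1 • Conv.mk D m M N u v) =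
      D.tw w.1 • Conv.mk D m M (Tw (D.shn 1) N) u (Tw.mk (D.shn 1) v) := by
  have hN' : IsStrand D n (Tw (D.shn 1) N) := strandTw hN
  refine Conv.cf_ext hb hM hN' fun w' => ?_
  rw [cf_rho, Conv.cf_tw, Conv.cf_tw]
  by_cases h : w' = w.1
  · have h1 : true :: w' = (consT w).1 := congrArg (List.cons true) h
    rw [if_pos h, if_pos h1]
    rfl
  · have h1 : ¬ true :: w' = (consT w).1 := fun h1 => h (List.cons.inj h1).2
    rw [if_neg h, if_neg h1, map_zero]

theorem rho_shn (hm : 0 < m) (a : KLRAlg D) (u : M) (v : N) :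
    rho hb hM hN (D.shn 1 a • Conv.mk D m M N u v) = 0 := by
  have hN' : IsStrand D n (Tw (D.shn 1) N) := strandTw hN
  refine Conv.cf_ext hb hM hN' fun w' => ?_
  rw [cf_rho, cf_true_shn hb hM hN hm, map_zero, map_zero]

/-- `rho` vanishes on `FF` -/
theorem rho_FF (z : Tw (D.shn 1) (Conv D m M N)) (hz : z ∈ FF D m M N) :
    rho hb hM hN ((Tw.mk (D.shn 1)).symm z) = 0 := by
  have key : ∀ a : KLRAlg D, rho hb hM hN ((Tw.mk (D.shn 1)).symm (a • z)) = 0 := by
    unfold FF at hz
    induction hz using Submodule.span_induction with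
    | mem z hz =>
      obtain ⟨hm, u, v, rfl⟩ := hz
      intro a
      rw [Tw.smul_mk, LinearEquiv.symm_apply_apply]
      exact rho_shn hb hM hN hm a u v
    | zero => intro a; simp only [smul_zero, map_zero]
    | add x y _ _ hx hy => intro a; rw [smul_add, map_add, map_add, hx, hy, add_zero]
    | smul b x _ hx => intro a; rw [← mul_smul]; exact hx _
  have h := key 1
  rwa [one_smul] at h

/-- `sig (rho z)` is the class of `z` -/
theorem sig_rho (z : Conv D m M N) :
    sig D m M N (rho hb hM hN z) = (FF D m M N).mkQ (Tw.mk (D.shn 1) z) := by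
  induction z using Conv.ind_tw hb hM hN with
  | h0 => simp only [map_zero]
  | hadd y z hy hz => rw [map_add, map_add, map_add, map_add, hy, hz]
  | h w u v =>
    obtain ⟨w, hw1, hw2⟩ := w
    match w, hw1, hw2 with
    | [], hw1, hw2 => simp at hw2
    | true :: w, hw1, hw2 =>
      rw [List.count_cons_of_ne (by decide)] at hw1
      rw [List.count_cons_self] at hw2
      have h1 := rho_tw_true hb hM hN (⟨w, hw1, by omega⟩ : Shf m n) u v
      have h2 := sig_tw (D := D) (M := M) (N := N) (⟨w, hw1, by omega⟩ : Shf m n) u v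
      change sig D m M N (rho hb hM hN (D.tw (consT (⟨w, hw1, by omega⟩ : Shf m n)).1 •
        Conv.mk D m M N u v)) = _
      rw [h1, h2]
      rfl
    | false :: w, hw1, hw2 =>
      have hm : 0 < m := by
        rw [List.count_cons_self] at hw1
        omega
      change sig D m M N (rho hb hM hN (D.shn 1 (D.tw w) • Conv.mk D m M N u v)) =
        (FF D m M N).mkQ (Tw.mk (D.shn 1) (D.shn 1 (D.tw w) • Conv.mk D m M N u v))
      rw [rho_shn hb hM hN hm, map_zero]
      exact ((Submodule.Quotient.mk_eq_zero _).2 (shn_mem hm _ u v)).symm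

include hb hM hN in
theorem sig_injective : Function.Injective (sig D m M N) := by
  have hN' : IsStrand D n (Tw (D.shn 1) N) := strandTw hN
  have key : ∀ c : Conv D m M (Tw (D.shn 1) N), ∃ z : Conv D m M N,
      sig D m M N c = (FF D m M N).mkQ (Tw.mk (D.shn 1) z) ∧ rho hb hM hN z = c := by
    intro c
    induction c using Conv.ind_tw hb hM hN' with
    | h0 => exact ⟨0, by simp only [map_zero], map_zero _⟩
    | hadd y z hy hz =>
      obtain ⟨y', hy1, hy2⟩ := hy
      obtain ⟨z', hz1, hz2⟩ := hz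
      exact ⟨y' + z', by rw [map_add, map_add, map_add, hy1, hz1], by rw [map_add, hy2, hz2]⟩
    | h w u v =>
      obtain ⟨v, rfl⟩ := (Tw.mk (D.shn 1)).surjective v
      exact ⟨D.tw (consT w).1 • Conv.mk D m M N u v, sig_tw w u v, rho_tw_true hb hM hN w u v⟩
  rw [injective_iff_map_eq_zero]
  intro c hc
  obtain ⟨z, hz1, hz2⟩ := key c
  rw [hc] at hz1
  have h1 := rho_FF hb hM hN _ ((Submodule.Quotient.mk_eq_zero _).1 hz1.symm)
  rw [LinearEquiv.symm_apply_apply] at h1
  rw [← hz2, h1]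

theorem rho_smul (a : KLRAlg D) (z : Conv D m M N) :
    rho hb hM hN (D.shn 1 a • z) = a • rho hb hM hN z := by
  apply sig_injective hb hM hN
  rw [sig_rho, map_smul (sig D m M N), sig_rho, ← map_smul, Tw.smul_mk]

end

end XRHO

theorem Mo.I_RHO (D : Datum K I) : StRho D := by
  intro hb m n M N _ _ _ _ _ _ _ _ hM hN hN'
  exact ⟨XRHO.rho hb hM hN, XRHO.rho_smul hb hM hN, XRHO.cf_rho hb hM hN hN'⟩

end Pool.Agent.KLR
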