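import Pool.Agent.Work.MP_e487d8_al.Mo.Head

/-! MP_e487d8_al, module side, item S2. -/

set_option autoImplicit false
set_option linter.unusedSectionVars false

namespace Pool.Agent.KLR

variable {K I : Type} [Field K] [Fintype I] [DecidableEq I] (D : Datum K I)

theorem Mo.I_S2 (hW : StSwap D) (hM : StMsub D) (hQ : StMsq D) : StS2 D := by
  intro Lp h hconv X Y T hq hq' hco
  have hF := Sm.fd_conv hconv X.rep Y.rep
  have := hF.fd
  have : IsNoetherian (KLRAlg D) (X.rep.conv Y.rep) := isNoetherian_of_tower K inferInstance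
  have : IsArtinian (KLRAlg D) (X.rep.conv Y.rep) := isArtinian_of_tower K inferInstance
  have hco' : Sm.mult h.2 hF T = 1 := hco
  have hnt : Nontrivial (X.rep.conv Y.rep) := by
    have h1 : Sm.mult h.2 hF T ≠ 0 := by rw [hco']; exact one_ne_zero
    obtain ⟨N, f, hf⟩ := Sm.subQ_of_mult h.2 hF h1
    have := T.rep.smp.simple
    have : Nontrivial T.rep.M := IsSimpleModule.nontrivial (KLRAlg D) T.rep.M
    have : Nontrivial N := hf.nontrivial
    exact N.subtype_injective.nontrivial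
  by_contra hns
  obtain ⟨P, hP⟩ := (IsCoatomic.eq_top_or_exists_le_coatom
    (⊥ : Submodule (KLRAlg D) (X.rep.conv Y.rep))).resolve_left bot_ne_top
  have hPb : P ≠ ⊥ := by
    intro hb
    refine hns ?_
    have h1 : IsSimpleModule (KLRAlg D) (X.rep.conv Y.rep ⧸ P) :=
      isSimpleModule_iff_isCoatom.2 hP.1
    exact IsSimpleModule.congr ((Submodule.quotEquivOfEqBot P hb).symm)
  let Z : SMod D := ⟨_, X.rep.conv Y.rep ⧸ P,
    ⟨hF.quot P, isSimpleModule_iff_isCoatom.2 hP.1⟩⟩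
  have hZ : Z.Iso T.rep := hq Z ⟨P.mkQ, P.mkQ_surjective⟩
  have : Nontrivial P := (Submodule.nontrivial_iff_ne_bot).2 hPb
  have : IsArtinian (KLRAlg D) P := inferInstance
  obtain ⟨S, hS⟩ := IsAtomic.exists_atom (Submodule (KLRAlg D) P)
  let Z' : SMod D := ⟨_, S, ⟨(hF.sub P).sub S, isSimpleModule_iff_isAtom.2 hS⟩⟩
  have hZs : Sub D Z'.M (X.rep.conv Y.rep) :=
    ⟨P.subtype ∘ₗ S.subtype, P.subtype_injective.comp S.subtype_injective⟩
  have hZ' : Z'.Iso T.rep := hq' Z' ((hW h.1 Lp h.2 Y.rep X.rep Z').2 hZs)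
  have hcl : ∀ {V : SMod D}, V.Iso T.rep → Sm.cls V = T := by
    intro V hV
    rw [← Sm.cls_rep T]
    exact Subtype.ext (SMod.ch_iso hV)
  have h1 := DFunLike.congr_fun (hM Lp h _ _ hF P) T
  rw [Finsupp.add_apply, hco'] at h1
  have h2 : Sm.mult h.2 (hF.sub P) T ≠ 0 := by
    rw [← hcl hZ']
    exact (hQ Lp h _ _ (hF.sub P) Z').1 ⟨S, LinearMap.id, Function.surjective_id⟩
  have h3 : Sm.mult h.2 (hF.quot P) T ≠ 0 := by
    rw [← hcl hZ]
    refine (hQ Lp h _ _ (hF.quot P) Z).1 ?_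
    exact subQ_of_quo ⟨LinearMap.id, Function.surjective_id⟩
  omega

end Pool.Agent.KLR
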