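import Pool.Agent.Work.MP_e487d8_al.Mo.Head

/-! MP_e487d8_al, module side: SSUB, a simple submodule of `U ∘ C` is a submodule of `V ∘ C` for a
constituent `V` of `U`. -/

set_option autoImplicit false
set_option linter.unusedSectionVars false

namespace Pool.Agent.KLR

variable {K I : Type} [Field K] [Fintype I] [DecidableEq I] (D : Datum K I)

namespace XSSUB

variable {D} {m : ℕ} {M N : Type}
  [AddCommGroup M] [Module K M] [Module (KLRAlg D) M] [IsScalarTower K (KLRAlg D) M]
  [AddCommGroup N] [Module K N] [Module (KLRAlg D) N] [IsScalarTower K (KLRAlg D) N]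

theorem subL_top : Conv.subL m (⊤ : Submodule (KLRAlg D) M) N = ⊤ := by
  rw [eq_top_iff]
  intro z _
  induction z using Conv.induction with
  | h0 => exact Submodule.zero_mem _
  | hadd y z hy hz => exact Submodule.add_mem _ (hy trivial) (hz trivial)
  | h a u v => exact Submodule.smul_mem _ _ (Conv.mk_mem_subL Submodule.mem_top v)

theorem subL_bot : Conv.subL m (⊥ : Submodule (KLRAlg D) M) N = ⊥ := by
  rw [eq_bot_iff, Conv.subL, Submodule.span_le]
  rintro z ⟨⟨u, hu⟩, v, rfl⟩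
  rw [Submodule.mem_bot] at hu
  subst hu
  simp

theorem map_subL (P : Submodule (KLRAlg D) M) (Q : Submodule (KLRAlg D) P) :
    (Conv.subL m Q N).map (Conv.map (rfl : m = m) P.subtype
      (LinearMap.id : N →ₗ[KLRAlg D] N)) ≤ Conv.subL m (Q.map P.subtype) N := by
  rw [Submodule.map_le_iff_le_comap, Conv.subL, Submodule.span_le]
  rintro z ⟨u, v, rfl⟩
  change Conv.map (rfl : m = m) P.subtype (LinearMap.id : N →ₗ[KLRAlg D] N)
    (Conv.mk D m P N u v) ∈ Conv.subL m (Q.map P.subtype) N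
  rw [Conv.map_mk]
  exact Conv.mk_mem_subL (Submodule.mem_map_of_mem u.2) _

end XSSUB

theorem Mo.I_SSUB : StSsub D := by
  intro Lp hB n U _ _ _ _ hU C S hS
  obtain ⟨g, hg⟩ := hS
  have hb : S_basis D := hB.1
  have hfd := hU.fd
  have hsim := S.smp.simple
  have hnt : Nontrivial S.M := IsSimpleModule.nontrivial (KLRAlg D) S.M
  have hart : IsArtinian (KLRAlg D) U := isArtinian_of_tower K inferInstance
  obtain ⟨U1, hU1, hmin⟩ := IsArtinian.set_has_minimal
    {W : Submodule (KLRAlg D) U | LinearMap.range g ≤ Conv.subL n W C.M}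
    ⟨⊤, by rw [Set.mem_ofPred_eq, XSSUB.subL_top]; exact le_top⟩
  rw [Set.mem_ofPred_eq] at hU1
  have hne : U1 ≠ ⊥ := by
    intro h
    rw [h, XSSUB.subL_bot, le_bot_iff, LinearMap.range_eq_bot] at hU1
    obtain ⟨u, hu⟩ := exists_ne (0 : S.M)
    exact hu (hg (by rw [hU1, LinearMap.zero_apply, LinearMap.zero_apply]))
  have hnt1 : Nontrivial U1 := Submodule.nontrivial_iff_ne_bot.2 hne
  have hU1' : FdMod D n U1 := hU.sub U1
  have hfd1 := hU1'.fd
  have hnoe : IsNoetherian (KLRAlg D) U1 := isNoetherian_of_tower K inferInstance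
  obtain ⟨Q, hQ⟩ := IsCoatomic.exists_coatom (Submodule (KLRAlg D) U1)
  have hinc : Function.Injective (Conv.map (rfl : n = n) U1.subtype
      (LinearMap.id : C.M →ₗ[KLRAlg D] C.M)) :=
    Conv.map_injective hb rfl hU1'.strand C.smp.strand hU.strand C.smp.strand
      _ _ U1.subtype_injective Function.injective_id
  refine ⟨⟨n, U1 ⧸ Q, ⟨hU1'.quot Q, isSimpleModule_iff_isCoatom.2 hQ⟩⟩,
    ⟨U1, Q.mkQ, Q.mkQ_surjective⟩, ?_⟩
  have hmem : ∀ u, g u ∈ LinearMap.range (Conv.map (rfl : n = n) U1.subtype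
      (LinearMap.id : C.M →ₗ[KLRAlg D] C.M)) := by
    intro u
    rw [← Conv.subL_eq_range]
    exact hU1 ⟨u, rfl⟩
  obtain ⟨g', hg'⟩ : ∃ g' : S.M →ₗ[KLRAlg D] Conv D n U1 C.M, ∀ u,
      Conv.map (rfl : n = n) U1.subtype (LinearMap.id : C.M →ₗ[KLRAlg D] C.M) (g' u) = g u := by
    refine ⟨(LinearEquiv.ofInjective _ hinc).symm.toLinearMap.comp (g.codRestrict _ hmem),
      fun u => ?_⟩
    have h := LinearEquiv.apply_symm_apply (LinearEquiv.ofInjective _ hinc)
      (g.codRestrict _ hmem u)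
    exact congrArg Subtype.val h
  refine ⟨(Conv.map (rfl : n = n) Q.mkQ (LinearMap.id : C.M →ₗ[KLRAlg D] C.M)).comp g', ?_⟩
  rcases LinearMap.injective_or_eq_zero
    ((Conv.map (rfl : n = n) Q.mkQ (LinearMap.id : C.M →ₗ[KLRAlg D] C.M)).comp g') with h | h
  · exact h
  · exfalso
    have h1 : LinearMap.range g' ≤ Conv.subL n Q C.M := by
      rw [← Submodule.ker_mkQ Q, ← Conv.ker_map_left hb C.smp.strand hU1'.strand
        (hU1'.quot Q).strand Q.mkQ]
      rw [LinearMap.range_le_ker_iff]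
      exact h
    have h2 : LinearMap.range g ≤ Conv.subL n (Q.map U1.subtype) C.M := by
      rintro _ ⟨u, rfl⟩
      rw [← hg' u]
      exact XSSUB.map_subL U1 Q (Submodule.mem_map_of_mem (h1 ⟨u, rfl⟩))
    refine hmin (Q.map U1.subtype) h2 ?_
    refine lt_of_le_of_ne (Submodule.map_subtype_le U1 Q) fun h3 => hQ.1 ?_
    rw [eq_top_iff]
    intro x _
    have h4 : (x : U) ∈ Q.map U1.subtype := by rw [h3]; exact x.2
    obtain ⟨y, hy, hyx⟩ := h4
    have : y = x := Subtype.ext hyx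
    rwa [← this]

end Pool.Agent.KLR
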