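import Pool.Agent.Work.MP_e487d8_al.Mo.Cf
import Pool.Agent.Work.MP_e487d8_al.Pbw.W
import Pool.Agent.Work.MP_e487d8_al.Pbw.Stable
import Pool.Agent.Work.MP_e487d8_al.Mod.Word

/-! MP_e487d8_al, module side, item T0: the first crossing on the coefficients of
`true :: true :: w`. -/

set_option autoImplicit false
set_option linter.unusedSectionVars false

open scoped TensorProduct

namespace Pool.Agent.KLR

variable {K I : Type} [Field K] [Fintype I] [DecidableEq I] {D : Datum K I}

namespace XT0

section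

variable {m n : ℕ} {M N : Type} [AddCommGroup M] [Module K M] [Module (KLRAlg D) M]
  [IsScalarTower K (KLRAlg D) M] [AddCommGroup N] [Module K N] [Module (KLRAlg D) N]
  [IsScalarTower K (KLRAlg D) N]

theorem strand_tw (hM : IsStrand D (m + 1) M) : IsStrand D m (Tw (D.shn 1) M) where
  one k hk u := by
    obtain ⟨u, rfl⟩ := (Tw.mk (D.shn 1)).surjective u
    rw [Tw.smul_mk, D.shn_E, hM.one (1 + k) (by omega)]
  zero k hk i u := by
    obtain ⟨u, rfl⟩ := (Tw.mk (D.shn 1)).surjective u
    rw [Tw.smul_mk, D.shn_e, hM.zero (1 + k) (by omega), map_zero]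

/-- the elements without coefficients at `true :: w` -/
noncomputable def phi (m : ℕ) : Conv D m (Tw (D.shn 1) M) N →ₗ[KLRAlg D]
    Tw (D.shn 1) (Conv D (m + 1) M N) :=
  Conv.lift (LinearMap.mk₂ K
    (fun (u : Tw (D.shn 1) M) (v : N) => Tw.mk (D.shn 1)
      (Conv.mk D (m + 1) M N ((Tw.mk (D.shn 1)).symm u) v))
    (by intro u u' v; rw [map_add, map_add, LinearMap.add_apply, map_add])
    (by intro r u v; rw [map_smul, map_smul, LinearMap.smul_apply, map_smul])
    (by intro u v v'; rw [map_add, map_add])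
    (by intro r u v; rw [map_smul, map_smul]))
    { left := fun a u v => by
        obtain ⟨u, rfl⟩ := (Tw.mk (D.shn 1)).surjective u
        simp only [LinearMap.mk₂_apply]
        rw [Tw.smul_mk, Tw.smul_mk, LinearEquiv.symm_apply_apply, LinearEquiv.symm_apply_apply,
          ← D.tr_shn, Nat.add_comm 1 m, Conv.tr_smul_mk]
      right := fun a u v => by
        simp only [LinearMap.mk₂_apply]
        rw [Tw.smul_mk, D.shn_shn, Nat.add_comm 1 m, Conv.shn_smul_mk] }

theorem phi_mk (u : M) (v : N) : phi m (Conv.mk D m (Tw (D.shn 1) M) N (Tw.mk (D.shn 1) u) v) =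
    Tw.mk (D.shn 1) (Conv.mk D (m + 1) M N u v) := by
  unfold phi
  rw [Conv.lift_mk]
  rfl

/-- the elements `shn 1 a • mk u v` have no coefficients at `true :: w` -/
theorem cf_shn (hb : S_basis D) (hM : IsStrand D m M) (hN : IsStrand D n N) (hm : 0 < m)
    (w : List Bool) (a : KLRAlg D) (u : M) (v : N) :
    Conv.cf hb hM hN (true :: w) (D.shn 1 a • Conv.mk D m M N u v) = 0 := by
  obtain ⟨m, rfl⟩ : ∃ p, m = p + 1 := ⟨m - 1, by omega⟩
  have key : ∀ z : Conv D m (Tw (D.shn 1) M) N,
      Conv.cf hb hM hN (true :: w) ((Tw.mk (D.shn 1)).symm (phi m z)) = 0 := by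
    intro z
    refine Conv.ind_tw (p := fun z => Conv.cf hb hM hN (true :: w)
      ((Tw.mk (D.shn 1)).symm (phi m z)) = 0) hb (strand_tw hM) hN z ?_ ?_ ?_
    · show Conv.cf hb hM hN (true :: w) ((Tw.mk (D.shn 1)).symm (phi m 0)) = 0
      rw [map_zero, map_zero, map_zero]
    · intro w' u v
      obtain ⟨u, rfl⟩ := (Tw.mk (D.shn 1)).surjective u
      show Conv.cf hb hM hN (true :: w) ((Tw.mk (D.shn 1)).symm
        (phi m (D.tw w'.1 • Conv.mk D m (Tw (D.shn 1) M) N (Tw.mk (D.shn 1) u) v))) = 0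
      rw [map_smul, phi_mk, Tw.smul_mk, LinearEquiv.symm_apply_apply]
      have h1 : (false :: w'.1).count false = m + 1 ∧ (false :: w'.1).count true = n := by
        rw [List.count_cons_self, List.count_cons_of_ne (by simp)]
        exact ⟨by rw [w'.2.1], w'.2.2⟩
      have h2 := Conv.cf_tw hb hM hN (⟨false :: w'.1, h1⟩ : Shf (m + 1) n) (true :: w) u v
      rw [if_neg (by simp)] at h2
      exact h2
    · intro y z hy hz
      show Conv.cf hb hM hN (true :: w) ((Tw.mk (D.shn 1)).symm (phi m (y + z))) = 0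
      rw [map_add, map_add, map_add, hy, hz, add_zero]
  have h3 := key (a • Conv.mk D m (Tw (D.shn 1) M) N (Tw.mk (D.shn 1) u) v)
  rwa [map_smul, phi_mk, Tw.smul_mk, LinearEquiv.symm_apply_apply] at h3

/-- the elements of `W` -/
theorem cf_W (hb : S_basis D) (hM : IsStrand D m M) (hN : IsStrand D n N)
    (w : List Bool) (a z : KLRAlg D) (hz : z ∈ Pbw.W D m) (u : M) (v : N) :
    Conv.cf hb hM hN (true :: w) ((D.shn 1 a * z) • Conv.mk D m M N u v) = 0 := by
  unfold Pbw.W at hz
  induction hz using Submodule.span_induction with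
  | mem z hz =>
    obtain ⟨hm, b, c, rfl⟩ := hz
    rw [← mul_assoc, ← map_mul, mul_smul, Conv.tr_smul_mk]
    exact cf_shn hb hM hN hm w _ _ _
  | zero => rw [mul_zero, zero_smul, map_zero]
  | add x y _ _ hx hy => rw [mul_add, add_smul, map_add, hx, hy, add_zero]
  | smul r x _ hx => rw [mul_smul_comm, smul_assoc, map_smul, hx, smul_zero]

theorem comm2 (a : KLRAlg D) : D.t 0 * D.shn 1 (D.shn 1 a) = D.shn 1 (D.shn 1 a) * D.t 0 := by
  have h := D.tr_mul_shn (le_refl 2) (D.t 0) a
  rw [D.tr_t, if_pos (by omega)] at h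
  rw [D.shn_shn]
  exact h

theorem comm1x (a : KLRAlg D) : D.x 0 * D.shn 1 a = D.shn 1 a * D.x 0 :=
  Pbw.Stable.comm1 D (by rw [D.tr_x, if_pos (by omega)]) a

theorem comm1e (i : I) (a : KLRAlg D) : D.e 0 i * D.shn 1 a = D.shn 1 a * D.e 0 i :=
  Pbw.Stable.comm1 D (by rw [D.tr_e, if_pos (by omega)]) a

/-- the elements which map the span of `shn 1 a • mk u v` to itself -/
def Ok (m : ℕ) (M N : Type) [AddCommGroup M] [Module K M] [Module (KLRAlg D) M]
    [AddCommGroup N] [Module K N] [Module (KLRAlg D) N] (z : KLRAlg D) : Prop :=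
  ∀ y ∈ Submodule.span K {y : Conv D m M N | ∃ a u v, y = D.shn 1 a • Conv.mk D m M N u v},
    z • y ∈ Submodule.span K {y : Conv D m M N | ∃ a u v, y = D.shn 1 a • Conv.mk D m M N u v}

theorem Ok.of {z : KLRAlg D} (h : ∀ (a : KLRAlg D) (u : M) (v : N), ∃ (b : KLRAlg D) (u' : M),
    z • D.shn 1 a • Conv.mk D m M N u v = D.shn 1 b • Conv.mk D m M N u' v) : Ok m M N z := by
  intro y hy
  induction hy using Submodule.span_induction with
  | mem y hy =>
    obtain ⟨a, u, v, rfl⟩ := hy
    obtain ⟨b, u', h1⟩ := h a u v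
    rw [h1]
    exact Submodule.subset_span ⟨b, u', v, rfl⟩
  | zero => rw [smul_zero]; exact Submodule.zero_mem _
  | add x y _ _ hx hy => rw [smul_add]; exact Submodule.add_mem _ hx hy
  | smul r x _ hx => rw [smul_algebra_smul_comm]; exact Submodule.smul_mem _ r hx

theorem Ok.mul {z z' : KLRAlg D} (h : Ok m M N z) (h' : Ok m M N z') : Ok m M N (z * z') := by
  intro y hy
  rw [mul_smul]
  exact h _ (h' _ hy)

theorem Ok.sub {z z' : KLRAlg D} (h : Ok m M N z) (h' : Ok m M N z') : Ok m M N (z - z') := by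
  intro y hy
  rw [sub_smul]
  exact Submodule.sub_mem _ (h _ hy) (h' _ hy)

theorem Ok.sum {ι : Type} (s : Finset ι) {f : ι → KLRAlg D} (h : ∀ i ∈ s, Ok m M N (f i)) :
    Ok m M N (∑ i ∈ s, f i) := by
  intro y hy
  rw [Finset.sum_smul]
  exact Submodule.sum_mem _ fun i hi => h i hi _ hy

theorem Ok.smul (r : K) {z : KLRAlg D} (h : Ok m M N z) : Ok m M N (r • z) := by
  intro y hy
  rw [smul_assoc]
  exact Submodule.smul_mem _ r (h _ hy)

theorem Ok.zero : Ok m M N (0 : KLRAlg D) := by
  intro y _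
  rw [zero_smul]
  exact Submodule.zero_mem _

theorem Ok.one : Ok m M N (1 : KLRAlg D) := by
  intro y hy
  rw [one_smul]
  exact hy

theorem Ok.pow {z : KLRAlg D} (h : Ok m M N z) (p : ℕ) : Ok m M N (z ^ p) := by
  induction p with
  | zero => rw [pow_zero]; exact Ok.one
  | succ p ih => rw [pow_succ]; exact ih.mul h

theorem Ok.shn (b : KLRAlg D) : Ok m M N (D.shn 1 b) :=
  Ok.of fun a u v => ⟨b * a, u, by rw [map_mul, mul_smul]⟩

theorem Ok.x0 (hm : 0 < m) : Ok m M N (D.x 0) :=
  Ok.of fun a u v => ⟨a, D.x 0 • u, by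
    rw [← mul_smul, comm1x, mul_smul, ← Conv.tr_smul_mk, D.tr_x, if_pos hm]⟩

theorem Ok.e0 (hm : 0 < m) (i : I) : Ok m M N (D.e 0 i) :=
  Ok.of fun a u v => ⟨a, D.e 0 i • u, by
    rw [← mul_smul, comm1e, mul_smul, ← Conv.tr_smul_mk, D.tr_e, if_pos hm]⟩

theorem Ok.tt (hm : 0 < m) : Ok m M N (D.t 0 * D.t 0) := by
  rw [D.t_t]
  refine Ok.sum _ fun i _ => Ok.sum _ fun j _ => ?_
  split_ifs
  · exact Ok.zero
  · refine Ok.smul _ (((Ok.x0 hm).sub ?_).pow _ |>.mul ((Ok.e0 hm i).mul ?_))
    · have h := Ok.shn (m := m) (M := M) (N := N) (D.x 0)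
      rwa [D.shn_x] at h
    · have h := Ok.shn (m := m) (M := M) (N := N) (D.e 0 j)
      rwa [D.shn_e] at h

theorem cf_span (hb : S_basis D) (hM : IsStrand D m M) (hN : IsStrand D n N) (hm : 0 < m)
    (w : List Bool) {y : Conv D m M N} (hy : y ∈ Submodule.span K
      {y : Conv D m M N | ∃ a u v, y = D.shn 1 a • Conv.mk D m M N u v}) :
    Conv.cf hb hM hN (true :: w) y = 0 := by
  induction hy using Submodule.span_induction with
  | mem y hy =>
    obtain ⟨a, u, v, rfl⟩ := hy
    exact cf_shn hb hM hN hm w a u v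
  | zero => rw [map_zero]
  | add x y _ _ hx hy => rw [map_add, hx, hy, add_zero]
  | smul r x _ hx => rw [map_smul, hx, smul_zero]

end

end XT0

open XT0

variable (D)

theorem Mo.I_T0 : StT0 D := by
  intro hb m n M N _ _ _ _ _ _ _ _ hM hN w z
  by_cases hw : (true :: true :: w).count false = m ∧ (true :: true :: w).count true = n
  swap
  · rw [Conv.cf_out hb hM hN hw, Conv.cf_out hb hM hN hw, map_zero]
  have hn : 2 ≤ n := by
    rw [← hw.2, List.count_cons_self, List.count_cons_self]
    omega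
  refine Conv.ind_tw (p := fun z => Conv.cf hb hM hN (true :: true :: w) (D.t 0 • z) =
    aR D M N (D.t 0) (Conv.cf hb hM hN (true :: true :: w) z)) hb hM hN z ?_ ?_ ?_
  · show Conv.cf hb hM hN (true :: true :: w) (D.t 0 • 0) =
      aR D M N (D.t 0) (Conv.cf hb hM hN (true :: true :: w) 0)
    rw [smul_zero, map_zero, map_zero]
  swap
  · intro y z hy hz
    show Conv.cf hb hM hN (true :: true :: w) (D.t 0 • (y + z)) =
      aR D M N (D.t 0) (Conv.cf hb hM hN (true :: true :: w) (y + z))
    rw [smul_add, map_add, map_add, map_add, hy, hz]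
  rintro ⟨w0, h0, h1⟩ u v
  have hc := Conv.cf_tw hb hM hN ⟨w0, h0, h1⟩
  match w0, h0, h1, hc with
  | [], h0, h1, _ => simp at h1; omega
  | [b], h0, h1, _ =>
    have : [b].count true ≤ 1 := List.count_le_length
    omega
  | false :: false :: w1, h0, h1, hc =>
    have hm : 2 ≤ m := by
      rw [← h0, List.count_cons_self, List.count_cons_self]
      omega
    have e1 : D.tw (false :: false :: w1) = D.shn 1 (D.shn 1 (D.tw w1)) := rfl
    have e2 : D.t 0 • D.tw (false :: false :: w1) • Conv.mk D m M N u v =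
        D.tw (false :: false :: w1) • Conv.mk D m M N (D.t 0 • u) v := by
      rw [e1, ← mul_smul, comm2, mul_smul, ← Conv.tr_smul_mk (D.t 0), D.tr_t, if_pos (by omega)]
    rw [e2, hc, hc, if_neg (by simp), if_neg (by simp), map_zero]
  | false :: true :: w1, h0, h1, hc =>
    rw [hc, if_neg (by simp), map_zero]
    have e1 : D.tw (false :: true :: w1) =
        D.shn 1 (D.shn 1 (D.tw w1) * D.chain (w1.count false)) := rfl
    have e2 : D.tw (true :: false :: w1) =
        D.shn 1 (D.shn 1 (D.tw w1)) * D.chain ((false :: w1).count false) := rfl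
    have e3 : D.t 0 • D.tw (false :: true :: w1) • Conv.mk D m M N u v =
        D.tw (true :: false :: w1) • Conv.mk D m M N u v := by
      rw [e1, e2, ← mul_smul, map_mul, ← mul_assoc, comm2, mul_assoc, List.count_cons_self,
        Pbw.Stable.chain_succ]
    have h2 : (true :: false :: w1).count false = m ∧ (true :: false :: w1).count true = n := by
      rw [List.count_cons_self, List.count_cons_of_ne (by simp)] at h0
      rw [List.count_cons_of_ne (by simp), List.count_cons_self] at h1
      rw [List.count_cons_of_ne (by simp), List.count_cons_self, List.count_cons_self,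
        List.count_cons_of_ne (by simp)]
      exact ⟨h0, h1⟩
    have hc2 := Conv.cf_tw hb hM hN ⟨true :: false :: w1, h2⟩ (true :: true :: w) u v
    rw [e3]
    rw [if_neg (by simp)] at hc2
    exact hc2
  | true :: false :: w1, h0, h1, hc =>
    rw [hc, if_neg (by simp), map_zero]
    have hm : 0 < m := by
      rw [← h0, List.count_cons_of_ne (by simp), List.count_cons_self]
      omega
    have e2 : D.tw (true :: false :: w1) =
        D.shn 1 (D.shn 1 (D.tw w1)) * D.chain ((false :: w1).count false) := rfl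
    have e3 : D.t 0 • D.tw (true :: false :: w1) • Conv.mk D m M N u v =
        D.shn 1 (D.shn 1 (D.tw w1)) • (D.t 0 * D.t 0) •
          D.shn 1 (D.chain (w1.count false)) • Conv.mk D m M N u v := by
      rw [e2, List.count_cons_self, Pbw.Stable.chain_succ, ← mul_smul, ← mul_smul, ← mul_smul,
        ← mul_assoc, ← mul_assoc, comm2]
      simp only [mul_assoc]
    rw [e3]
    exact cf_span hb hM hN hm _ (Ok.shn _ _ (Ok.tt hm _ (Submodule.subset_span ⟨_, u, v, rfl⟩)))
  | true :: true :: w1, h0, h1, hc =>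
    have hcm : w1.count false = m := by
      rw [List.count_cons_of_ne (by simp), List.count_cons_of_ne (by simp)] at h0
      exact h0
    have e1 : D.tw (true :: true :: w1) = D.shn 1 (D.shn 1 (D.tw w1) *
        D.chain (w1.count false)) * D.chain ((true :: w1).count false) := rfl
    rw [List.count_cons_of_ne (by simp), hcm, map_mul, mul_assoc] at e1
    set Z := D.shn 1 (D.chain m) * D.chain m with hZ
    have hW := Pbw.prf_W3 D m
    rw [← hZ] at hW
    have e2 : D.t 0 • D.tw (true :: true :: w1) • Conv.mk D m M N u v =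
        D.tw (true :: true :: w1) • Conv.mk D m M N u (D.t 0 • v) +
          (D.shn 1 (D.shn 1 (D.tw w1)) * (D.t 0 * Z - Z * D.t m)) • Conv.mk D m M N u v := by
      have e3 : D.t m • Conv.mk D m M N u v = Conv.mk D m M N u (D.t 0 • v) := by
        rw [← Conv.shn_smul_mk, D.shn_t, Nat.add_zero]
      rw [← e3, e1, ← mul_smul, ← mul_smul, ← add_smul, ← mul_assoc, comm2]
      congr 1
      noncomm_ring
    rw [e2, map_add, cf_W hb hM hN _ _ _ hW, add_zero, hc, hc]
    split_ifs
    · unfold aR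
      rw [LinearMap.lTensor_tmul]
      rfl
    · rw [map_zero]

end Pool.Agent.KLR
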