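import Pool.Agent.Work.MP_e487d8_al.Mo.Cf
import Pool.Agent.Work.MP_e487d8_al.Conv.K0
import Pool.Agent.Work.MP_e487d8_al.Pbw.Stable

/-! MP_e487d8_al, module side, item TK: the crossing `t k` on the coefficients of
`false^k true false w`, if the coefficients of `false^j true ..`, `j ≤ k`, vanish. -/

set_option autoImplicit false
set_option linter.unusedSectionVars false

open scoped TensorProduct

namespace Pool.Agent.KLR

variable {K I : Type} [Field K] [Fintype I] [DecidableEq I] {D : Datum K I}

namespace XTK

theorem cases_word (k : ℕ) (w0 : List Bool) :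
    (∃ j ≤ k, ∃ w', w0 = List.replicate j false ++ true :: w') ∨
    (∃ w', w0 = List.replicate (k + 1) false ++ w') ∨ w0.count true = 0 := by
  induction k generalizing w0 with
  | zero =>
    match w0 with
    | [] => exact Or.inr (Or.inr rfl)
    | true :: w => exact Or.inl ⟨0, le_refl 0, w, rfl⟩
    | false :: w => exact Or.inr (Or.inl ⟨w, rfl⟩)
  | succ k ih =>
    match w0 with
    | [] => exact Or.inr (Or.inr rfl)
    | true :: w => exact Or.inl ⟨0, Nat.zero_le _, w, rfl⟩
    | false :: w =>
      rcases ih w with ⟨j, hj, w', h⟩ | ⟨w', h⟩ | h
      · refine Or.inl ⟨j + 1, by omega, w', ?_⟩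
        rw [h, List.replicate_succ, List.cons_append]
      · refine Or.inr (Or.inl ⟨w', ?_⟩)
        rw [h, List.replicate_succ (n := k + 1), List.cons_append]
      · refine Or.inr (Or.inr ?_)
        rw [List.count_cons_of_ne (by simp), h]

theorem count_false_rep (k : ℕ) (w : List Bool) :
    (List.replicate k false ++ w).count false = k + w.count false := by
  rw [List.count_append, List.count_replicate_self]

theorem count_true_rep (k : ℕ) (w : List Bool) :
    (List.replicate k false ++ w).count true = w.count true := by
  rw [List.count_append, List.count_replicate, if_neg (by simp), Nat.zero_add]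

/-- `t k` commutes with the strands from `k + 2` on -/
theorem comm (k : ℕ) (a : KLRAlg D) : D.t k * D.shn (k + 2) a = D.shn (k + 2) a * D.t k := by
  have h := D.tr_mul_shn (le_refl (k + 2)) (D.t k) a
  rwa [D.tr_t, if_pos (by omega)] at h

/-- the case `false^(k+1) true w` -/
theorem mul_tw (k : ℕ) (w : List Bool) :
    D.t k * D.tw (List.replicate (k + 1) false ++ true :: w) =
      D.tw (List.replicate k false ++ true :: false :: w) := by
  rw [D.tw_false_append, D.tw_false_append]
  have e1 : D.tw (true :: w) = D.shn 1 (D.tw w) * D.chain (w.count false) := rfl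
  have e2 : D.tw (true :: false :: w) =
      D.shn 1 (D.shn 1 (D.tw w)) * D.chain ((false :: w).count false) := rfl
  rw [e1, e2, List.count_cons_self, Pbw.Stable.chain_succ, map_mul, map_mul, map_mul,
    D.shn_shn, D.shn_shn, D.shn_shn, D.shn_shn, D.shn_t, ← mul_assoc]
  have e3 : k + 1 + 1 = k + 2 := rfl
  have e4 : k + (1 + 1) = k + 2 := rfl
  rw [e3, e4, comm, mul_assoc]
  rfl

section

variable {m n : ℕ} {M N : Type} [AddCommGroup M] [Module K M] [Module (KLRAlg D) M]
  [IsScalarTower K (KLRAlg D) M] [AddCommGroup N] [Module K N] [Module (KLRAlg D) N]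
  [IsScalarTower K (KLRAlg D) N]

/-- the statement for one summand -/
theorem cf_mk (hb : S_basis D) (hM : IsStrand D m M) (hN : IsStrand D n N) (k : ℕ)
    (w : List Bool) (hw : (List.replicate k false ++ true :: false :: w).count true = n)
    (w0 : Shf m n)
    (h0 : ¬ ∃ j ≤ k, ∃ w', w0.1 = List.replicate j false ++ true :: w') (u : M) (v : N) :
    Conv.cf hb hM hN (List.replicate k false ++ true :: false :: w)
        (D.t k • D.tw w0.1 • Conv.mk D m M N u v) =
      Conv.cf hb hM hN (List.replicate (k + 1) false ++ true :: w)
        (D.tw w0.1 • Conv.mk D m M N u v) := by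
  have hn : 1 ≤ n := by
    rw [← hw, count_true_rep, List.count_cons_self]
    omega
  rcases cases_word k w0.1 with h | ⟨w', h⟩ | h
  · exact absurd h h0
  swap
  · exfalso
    have h1 := w0.2.2
    omega
  obtain ⟨w0, hf, ht⟩ := w0
  simp only at h h0
  subst h
  have hc := Conv.cf_tw hb hM hN ⟨_, hf, ht⟩
  match w', hf, ht, hc with
  | [], hf, ht, _ =>
    exfalso
    rw [count_true_rep, List.count_nil] at ht
    omega
  | true :: w1, hf, ht, hc =>
    have h2 : (List.replicate k false ++ true :: false :: w1).count false = m ∧
        (List.replicate k false ++ true :: false :: w1).count true = n := by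
      rw [count_false_rep, List.count_cons_of_ne (by simp)] at hf
      rw [count_true_rep, List.count_cons_self] at ht
      rw [count_false_rep, count_true_rep, List.count_cons_of_ne (by simp), List.count_cons_self,
        List.count_cons_self, List.count_cons_of_ne (by simp)]
      exact ⟨by omega, ht⟩
    have hc2 := Conv.cf_tw hb hM hN ⟨_, h2⟩ (List.replicate k false ++ true :: false :: w) u v
    rw [← mul_smul, mul_tw, hc]
    refine Eq.trans hc2 ?_
    by_cases h : w = w1
    · subst h
      rw [if_pos rfl, if_pos rfl]
    · rw [if_neg (fun h1 => h ?_), if_neg (fun h1 => h ?_)]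
      · have h3 := List.append_cancel_left h1
        simpa using h3
      · have h3 := List.append_cancel_left h1
        simpa using h3
  | false :: w1, hf, ht, hc =>
    have hm : k + 2 ≤ m := by
      rw [← hf, count_false_rep, List.count_cons_self]
      omega
    have e0 : List.replicate (k + 1) false ++ false :: w1 =
        List.replicate (k + 2) false ++ w1 := by
      rw [List.replicate_succ' (n := k + 1), List.append_assoc]
      rfl
    have e2 : D.t k • D.tw (List.replicate (k + 1) false ++ false :: w1) •
        Conv.mk D m M N u v = D.tw (List.replicate (k + 1) false ++ false :: w1) •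
          Conv.mk D m M N (D.t k • u) v := by
      rw [e0, D.tw_false_append, ← mul_smul, comm, mul_smul, ← Conv.tr_smul_mk (D.t k), D.tr_t,
        if_pos (by omega)]
    rw [e2, hc, hc, if_neg, if_neg]
    · intro h1
      have h3 := List.append_cancel_left h1
      simp at h3
    · intro h1
      have e5 : List.replicate (k + 1) false ++ false :: w1 =
          List.replicate k false ++ false :: false :: w1 := by
        rw [List.replicate_succ', List.append_assoc]
        rfl
      have h3 := List.append_cancel_left (h1.trans e5)
      simp at h3

end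

end XTK

open XTK

variable (D)

theorem Mo.I_TK : StTk D := by
  intro hb m n M N _ _ _ _ _ _ _ _ hM hN k z hz w
  by_cases hw : (List.replicate k false ++ true :: false :: w).count false = m ∧
      (List.replicate k false ++ true :: false :: w).count true = n
  swap
  · rw [Conv.cf_out hb hM hN hw, Conv.cf_out hb hM hN]
    intro h
    apply hw
    rw [count_false_rep, count_true_rep, List.count_cons_of_ne (by simp),
      List.count_cons_self] at h
    rw [count_false_rep, count_true_rep, List.count_cons_of_ne (by simp), List.count_cons_self,
      List.count_cons_self, List.count_cons_of_ne (by simp)]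
    exact ⟨by omega, h.2⟩
  have key : ∀ (w0 : Shf m n)
      (_ : ¬ ∃ j ≤ k, ∃ w', w0.1 = List.replicate j false ++ true :: w') (s : M ⊗[K] N),
      Conv.cf hb hM hN (List.replicate k false ++ true :: false :: w)
          (D.t k • convSum D m n M N (Finsupp.single w0 s)) =
        Conv.cf hb hM hN (List.replicate (k + 1) false ++ true :: w)
          (convSum D m n M N (Finsupp.single w0 s)) := by
    intro w0 h0 s
    induction s using TensorProduct.induction_on with
    | zero => rw [Finsupp.single_zero, map_zero, smul_zero, map_zero, map_zero]
    | tmul u v =>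
      rw [convSum_single]
      exact cf_mk hb hM hN k w hw.2 w0 h0 u v
    | add s t hs ht => rw [Finsupp.single_add, map_add, smul_add, map_add, map_add, hs, ht]
  have e1 : z = (Conv.csE hb hM hN z).sum fun w0 s => convSum D m n M N (Finsupp.single w0 s) := by
    rw [← map_finsuppSum, Finsupp.sum_single]
    exact ((Conv.csE hb hM hN).symm_apply_apply z).symm
  have e2 : D.t k • z = (Conv.csE hb hM hN z).sum fun w0 s =>
      D.t k • convSum D m n M N (Finsupp.single w0 s) := by
    conv_lhs => rw [e1]
    rw [Finsupp.smul_sum]
  rw [e2, map_finsuppSum]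
  conv_rhs => rw [e1, map_finsuppSum]
  refine Finset.sum_congr rfl fun w0 h0 => key w0 ?_ _
  rintro ⟨j, hj, w', h⟩
  have h1 := hz j hj w'
  rw [← h, Conv.cf_shf] at h1
  exact (Finsupp.mem_support_iff.1 h0) h1

end Pool.Agent.KLR
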