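import Pool.Agent.Work.MP_e487d8_al.Mo.Cf

/-! MP_e487d8_al, module side: the top coefficient is non degenerate. -/

set_option autoImplicit false
set_option linter.unusedSectionVars false

open scoped TensorProduct

namespace Pool.Agent.KLR

variable {K I : Type} [Field K] [Fintype I] [DecidableEq I] (D : Datum K I)

namespace XTPND

theorem twStrand {n : ℕ} {N : Type} [AddCommGroup N] [Module K N] [Module (KLRAlg D) N]
    [IsScalarTower K (KLRAlg D) N] (hN : IsStrand D (n + 1) N) :
    IsStrand D n (Tw (D.shn 1) N) where
  one := fun k hk v => by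
    obtain ⟨v, rfl⟩ := (Tw.mk (D.shn 1)).surjective v
    rw [Tw.smul_mk, D.shn_E, hN.one (1 + k) (by omega)]
  zero := fun k hk j v => by
    obtain ⟨v, rfl⟩ := (Tw.mk (D.shn 1)).surjective v
    rw [Tw.smul_mk, D.shn_e, hN.zero (1 + k) (by omega), map_zero]

theorem eq_replicate : ∀ (w : List Bool), w.count true = 0 → w = List.replicate (w.count false) false
  | [], _ => rfl
  | true :: w, h => by simp at h
  | false :: w, h => by
    have h1 : w.count true = 0 := by simpa using h
    have h2 := eq_replicate w h1
    rw [List.count_cons_self, List.replicate_succ, ← h2]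

theorem exists_first : ∀ (w : List Bool), 0 < w.count true →
    ∃ (k : ℕ) (w' : List Bool), w = List.replicate k false ++ true :: w'
  | [], h => by simp at h
  | true :: w, _ => ⟨0, w, rfl⟩
  | false :: w, h => by
    have h1 : 0 < w.count true := by simpa using h
    obtain ⟨k, w', h2⟩ := exists_first w h1
    exact ⟨k + 1, w', by rw [List.replicate_succ, List.cons_append, ← h2]⟩

end XTPND

theorem Mo.I_TPND (hR : StRho D) (hT : StTk D) : StTpNd D := by
  intro hb m n
  induction n with
  | zero =>
    intro M N _ _ _ _ _ _ _ _ hM hN z hz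
    apply Conv.cf_ext hb hM hN
    intro w
    rw [map_zero]
    by_cases h : w.count false = m ∧ w.count true = 0
    · have h1 := XTPND.eq_replicate w h.2
      rw [h.1] at h1
      have h2 := hz 1
      rw [one_smul] at h2
      rw [h1]
      exact h2
    · exact Conv.cf_out hb hM hN h z
  | succ n ih =>
    intro M N _ _ _ _ _ _ _ _ hM hN z hz
    have hN' := XTPND.twStrand D hN
    obtain ⟨ρ, h1, h2⟩ := hR hb m n M N hM hN hN'
    have hinj : Function.Injective
        ((Tw.mk (D.shn 1) : N ≃ₗ[K] Tw (D.shn 1) N).toLinearMap.lTensor M) :=
      (LinearEquiv.lTensor M (Tw.mk (D.shn 1) : N ≃ₗ[K] Tw (D.shn 1) N)).injective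
    have P0 : ∀ (b : KLRAlg D) (w : List Bool), Conv.cf hb hM hN (true :: w) (b • z) = 0 := by
      intro b
      have h3 : ρ (b • z) = 0 := by
        apply ih M (Tw (D.shn 1) N) hM hN'
        intro a
        have h4 : Conv.Tp hb hM hN' (a • ρ (b • z)) =
            (Tw.mk (D.shn 1) : N ≃ₗ[K] Tw (D.shn 1) N).toLinearMap.lTensor M
              (Conv.Tp hb hM hN ((D.shn 1 a * b) • z)) := by
          rw [← h1, ← mul_smul]
          exact h2 (List.replicate n true ++ List.replicate m false) _
        rw [h4, hz, map_zero]
      intro w
      apply hinj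
      rw [← h2, h3, map_zero, map_zero]
    have P : ∀ (k : ℕ) (b : KLRAlg D) (w : List Bool),
        Conv.cf hb hM hN (List.replicate k false ++ true :: w) (b • z) = 0 := by
      intro k
      induction k using Nat.strong_induction_on with
      | _ k IH =>
        cases k with
        | zero => exact P0
        | succ k =>
          intro b w
          have h5 := hT hb m (n + 1) M N hM hN k (b • z)
            (fun j hj w' => IH j (by omega) b w') w
          rw [← h5, ← mul_smul]
          exact IH k (by omega) (D.t k * b) (false :: w)
    apply Conv.cf_ext hb hM hN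
    intro w
    rw [map_zero]
    by_cases h : w.count false = m ∧ w.count true = n + 1
    · obtain ⟨k, w', rfl⟩ := XTPND.exists_first w (by omega)
      have h6 := P k 1 w'
      rw [one_smul] at h6
      exact h6
    · exact Conv.cf_out hb hM hN h z

end Pool.Agent.KLR
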