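import Pool.Agent.Work.MP_e487d8_al.Mo.Cf
import Pool.Agent.Work.MP_e487d8_al.Conv.Fin

/-! MP_e487d8_al, module side, item TPSHN: the top coefficient and the last strands. -/

set_option autoImplicit false
set_option linter.unusedSectionVars false

open scoped TensorProduct

namespace Pool.Agent.KLR

variable {K I : Type} [Field K] [Fintype I] [DecidableEq I] (D : Datum K I)

namespace XTPSHN

variable {D}

theorem strandTw {n : ℕ} {M : Type} [AddCommGroup M] [Module K M] [Module (KLRAlg D) M]
    [IsScalarTower K (KLRAlg D) M] (hM : IsStrand D (n + 1) M) :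
    IsStrand D n (Tw (D.shn 1) M) where
  one k hk v := by
    obtain ⟨v, rfl⟩ := (Tw.mk (D.shn 1)).surjective v
    rw [Tw.smul_mk, D.shn_E, hM.one (1 + k) (by omega)]
  zero k hk j v := by
    obtain ⟨v, rfl⟩ := (Tw.mk (D.shn 1)).surjective v
    rw [Tw.smul_mk, D.shn_e, hM.zero (1 + k) (by omega), map_zero]

theorem aL_tmul (M N : Type) [AddCommGroup M] [Module K M] [AddCommGroup N]
    [Module K N] [Module (KLRAlg D) M] [IsScalarTower K (KLRAlg D) M] (a : KLRAlg D) (u : M)
    (v : N) : aL D M N a (u ⊗ₜ v) = (a • u) ⊗ₜ v := rfl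

/-- the case `n = 0` -/
theorem zero (hb : S_basis D) (m : ℕ) (M N : Type)
    [AddCommGroup M] [Module K M] [Module (KLRAlg D) M] [IsScalarTower K (KLRAlg D) M]
    [AddCommGroup N] [Module K N] [Module (KLRAlg D) N] [IsScalarTower K (KLRAlg D) N]
    (hM : IsStrand D m M) (hN : IsStrand D 0 N) (a : KLRAlg D) (z : Conv D m M N) :
    Conv.Tp hb hM hN (D.shn 0 a • z) = aL D M N a (Conv.Tp hb hM hN z) := by
  have hw : ∀ w : Shf m 0, w = Shf.one m 0 := by
    rintro ⟨w, h1, h2⟩
    apply Subtype.ext
    change w = List.replicate m false ++ List.replicate 0 true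
    rw [List.replicate_zero, List.append_nil]
    rw [List.eq_replicate_iff]
    refine ⟨?_, ?_⟩
    · have h3 := List.count_false_add_count_true w
      omega
    · intro b hb'
      cases b
      · rfl
      · exact absurd (List.count_pos_iff.2 hb') (by omega)
  have key : ∀ (u : M) (v : N), Conv.Tp hb hM hN (Conv.mk D m M N u v) = u ⊗ₜ v := by
    intro u v
    have h1 := Conv.cf_tw hb hM hN (Shf.one m 0) (List.replicate 0 true ++ List.replicate m false)
      u v
    rw [D.tw_one, one_smul] at h1
    unfold Conv.Tp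
    rw [h1, if_pos]
    change List.replicate 0 true ++ List.replicate m false =
      List.replicate m false ++ List.replicate 0 true
    rw [List.replicate_zero, List.append_nil, List.nil_append]
  rw [D.shn_zero]
  induction z using Conv.ind_tw hb hM hN with
  | h0 => rw [smul_zero, map_zero, map_zero]
  | h w u v =>
    rw [hw w, D.tw_one, one_smul, key, aL_tmul]
    have h1 := Conv.tr_smul_mk (D := D) (m := m) a u v
    rw [(Conv.isStrand hM hN).tr_smul (m := m) (by omega)] at h1
    rw [h1, key]
  | hadd y z hy hz => rw [smul_add, map_add, map_add, map_add, hy, hz]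

end XTPSHN

open XTPSHN in
theorem Mo.I_TPSHN (hR : StRho D) : StTpShn D := by
  intro hb m n M N _ _ _ _ _ _ _ _ hM hN a z
  induction n generalizing N with
  | zero => exact XTPSHN.zero hb m M N hM hN a z
  | succ n ih =>
    have hN' : IsStrand D n (Tw (D.shn 1) N) := strandTw hN
    obtain ⟨ρ, h1, h2⟩ := hR hb m n M N hM hN hN'
    have h3 : ∀ z : Conv D m M N, Conv.Tp hb hM hN' (ρ z) =
        (Tw.mk (D.shn 1) : N ≃ₗ[K] Tw (D.shn 1) N).toLinearMap.lTensor M
          (Conv.Tp hb hM hN z) := fun z => h2 _ z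
    have hinj : Function.Injective
        ((Tw.mk (D.shn 1) : N ≃ₗ[K] Tw (D.shn 1) N).toLinearMap.lTensor M) :=
      (LinearEquiv.lTensor M (Tw.mk (D.shn 1) : N ≃ₗ[K] Tw (D.shn 1) N)).injective
    have h4 : ∀ t : M ⊗[K] N, aL D M (Tw (D.shn 1) N) a
        ((Tw.mk (D.shn 1) : N ≃ₗ[K] Tw (D.shn 1) N).toLinearMap.lTensor M t) =
        (Tw.mk (D.shn 1) : N ≃ₗ[K] Tw (D.shn 1) N).toLinearMap.lTensor M (aL D M N a t) := by
      intro t
      induction t using TensorProduct.induction_on with
      | zero => rw [map_zero, map_zero, map_zero, map_zero]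
      | tmul u v => rfl
      | add s t hs ht => rw [map_add, map_add, map_add, map_add, hs, ht]
    apply hinj
    rw [← h3, ← h4, ← h3, show n + 1 = 1 + n by omega, ← D.shn_shn, h1]
    exact ih (Tw (D.shn 1) N) hN' (ρ z)

end Pool.Agent.KLR
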