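import Pool.Agent.Work.MP_e487d8_al.Mo.Cf

/-! MP_e487d8_al, module side, item TPTR: the top coefficient and the first strands. -/

set_option autoImplicit false
set_option linter.unusedSectionVars false

open scoped TensorProduct

namespace Pool.Agent.KLR

variable {K I : Type} [Field K] [Fintype I] [DecidableEq I] (D : Datum K I)

namespace XTPTR

section

variable (M N : Type) [AddCommGroup M] [Module K M] [AddCommGroup N] [Module K N]
  [Module (KLRAlg D) N] [IsScalarTower K (KLRAlg D) N]

theorem aR_tmul (a : KLRAlg D) (u : M) (v : N) :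
    aR D M N a (u ⊗ₜ[K] v) = u ⊗ₜ[K] (a • v) := by
  unfold aR
  rw [LinearMap.lTensor_tmul]
  rfl

theorem aR_mul (a b : KLRAlg D) (y : M ⊗[K] N) :
    aR D M N (a * b) y = aR D M N a (aR D M N b y) := by
  induction y using TensorProduct.induction_on with
  | zero => rw [map_zero, map_zero, map_zero]
  | tmul u v => rw [aR_tmul, aR_tmul, aR_tmul, mul_smul]
  | add y z hy hz => rw [map_add, hy, hz, map_add, map_add]

theorem aR_add (a b : KLRAlg D) (y : M ⊗[K] N) :
    aR D M N (a + b) y = aR D M N a y + aR D M N b y := by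
  induction y using TensorProduct.induction_on with
  | zero => rw [map_zero, map_zero, map_zero, add_zero]
  | tmul u v => rw [aR_tmul, aR_tmul, aR_tmul, add_smul, TensorProduct.tmul_add]
  | add y z hy hz => rw [map_add, hy, hz, map_add, map_add]; abel

theorem aR_algebraMap (r : K) (y : M ⊗[K] N) :
    aR D M N (algebraMap K _ r) y = r • y := by
  induction y using TensorProduct.induction_on with
  | zero => rw [map_zero, smul_zero]
  | tmul u v => rw [aR_tmul, algebraMap_smul, TensorProduct.tmul_smul]
  | add y z hy hz => rw [map_add, hy, hz, smul_add]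

theorem aR_zero {a : KLRAlg D} (h : ∀ v : N, a • v = 0) (y : M ⊗[K] N) :
    aR D M N a y = 0 := by
  induction y using TensorProduct.induction_on with
  | zero => rw [map_zero]
  | tmul u v => rw [aR_tmul, h, TensorProduct.tmul_zero]
  | add y z hy hz => rw [map_add, hy, hz, add_zero]

theorem aR_shn (b : KLRAlg D) (y : M ⊗[K] N) :
    aR D M (Tw (D.shn 1) N) b
        ((Tw.mk (D.shn 1) : N ≃ₗ[K] Tw (D.shn 1) N).toLinearMap.lTensor M y) =
      (Tw.mk (D.shn 1) : N ≃ₗ[K] Tw (D.shn 1) N).toLinearMap.lTensor M
        (aR D M N (D.shn 1 b) y) := by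
  induction y using TensorProduct.induction_on with
  | zero => rw [map_zero, map_zero, map_zero, map_zero]
  | tmul u v =>
    rw [LinearMap.lTensor_tmul, aR_tmul, aR_tmul, LinearMap.lTensor_tmul]
    rfl
  | add y z hy hz => rw [map_add, map_add, hy, hz, map_add, map_add]

theorem mk_injective : Function.Injective
    ((Tw.mk (D.shn 1) : N ≃ₗ[K] Tw (D.shn 1) N).toLinearMap.lTensor M) :=
  (LinearEquiv.lTensor M (Tw.mk (D.shn 1) : N ≃ₗ[K] Tw (D.shn 1) N)).injective

theorem isStrand_tw {n : ℕ} (hN : IsStrand D (n + 1) N) : IsStrand D n (Tw (D.shn 1) N) where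
  one k hk u := by
    obtain ⟨u, rfl⟩ := (Tw.mk (D.shn 1)).surjective u
    rw [Tw.smul_mk, D.shn_E, hN.one (1 + k) (by omega)]
  zero k hk i u := by
    obtain ⟨u, rfl⟩ := (Tw.mk (D.shn 1)).surjective u
    rw [Tw.smul_mk, D.shn_e, hN.zero (1 + k) (by omega), map_zero]

end

/-- the induction step -/
theorem step (hR : StRho D) (hb : S_basis D) (m n : ℕ) (M N : Type)
    [AddCommGroup M] [Module K M] [Module (KLRAlg D) M] [IsScalarTower K (KLRAlg D) M]
    [AddCommGroup N] [Module K N] [Module (KLRAlg D) N] [IsScalarTower K (KLRAlg D) N]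
    (hM : IsStrand D m M) (hN : IsStrand D (n + 1) N)
    (ih : ∀ (hN' : IsStrand D n (Tw (D.shn 1) N)) (b : KLRAlg D)
      (z : Conv D m M (Tw (D.shn 1) N)),
      Conv.Tp hb hM hN' (D.tr n b • z) = aR D M (Tw (D.shn 1) N) b (Conv.Tp hb hM hN' z))
    (b : KLRAlg D) (z : Conv D m M N) :
    Conv.Tp hb hM hN (D.tr (n + 1) (D.shn 1 b) • z) =
      aR D M N (D.shn 1 b) (Conv.Tp hb hM hN z) := by
  have hN' := isStrand_tw D N hN
  obtain ⟨ρ, h1, h2⟩ := hR hb m n M N hM hN hN'
  apply mk_injective D M N
  have h3 : D.tr (n + 1) (D.shn 1 b) = D.shn 1 (D.tr n b) := by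
    rw [add_comm n 1, D.tr_shn]
  have h4 : ∀ y : Conv D m M N, Conv.Tp hb hM hN' (ρ y) =
      (Tw.mk (D.shn 1) : N ≃ₗ[K] Tw (D.shn 1) N).toLinearMap.lTensor M
        (Conv.Tp hb hM hN y) := fun y => h2 _ y
  rw [← h4, h3, h1, ih hN', h4, aR_shn]

theorem main (hR : StRho D) (hX : StX0 D) (hT : StT0 D) (hb : S_basis D) (n : ℕ) :
    ∀ (m : ℕ) (M N : Type)
    [AddCommGroup M] [Module K M] [Module (KLRAlg D) M] [IsScalarTower K (KLRAlg D) M]
    [AddCommGroup N] [Module K N] [Module (KLRAlg D) N] [IsScalarTower K (KLRAlg D) N]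
    (hM : IsStrand D m M) (hN : IsStrand D n N) (a : KLRAlg D) (z : Conv D m M N),
    Conv.Tp hb hM hN (D.tr n a • z) = aR D M N a (Conv.Tp hb hM hN z) := by
  induction n with
  | zero =>
    intro m M N _ _ _ _ _ _ _ _ hM hN a
    induction a using KLRAlg.induction with
    | hs r =>
      intro z
      rw [AlgHom.commutes, algebraMap_smul, map_smul, aR_algebraMap]
    | he k i =>
      intro z
      rw [D.tr_e, if_neg (by omega), zero_smul, map_zero,
        aR_zero D M N (fun v => hN.zero k (by omega) i v)]
    | hx k =>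
      intro z
      rw [D.tr_x, if_neg (by omega), zero_smul, map_zero,
        aR_zero D M N (fun v => hN.x_smul_zero (by omega) v)]
    | ht k =>
      intro z
      rw [D.tr_t, if_neg (by omega), zero_smul, map_zero,
        aR_zero D M N (fun v => hN.t_smul_zero (by omega) v)]
    | hadd a b ha hb' =>
      intro z
      rw [map_add, add_smul, map_add, ha, hb', aR_add]
    | hmul a b ha hb' =>
      intro z
      rw [map_mul, mul_smul, ha, hb', aR_mul]
  | succ n ih =>
    intro m M N _ _ _ _ _ _ _ _ hM hN a
    have hs : ∀ (b : KLRAlg D) (z : Conv D m M N),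
        Conv.Tp hb hM hN (D.tr (n + 1) (D.shn 1 b) • z) =
          aR D M N (D.shn 1 b) (Conv.Tp hb hM hN z) := fun b z =>
      step D hR hb m n M N hM hN (fun hN' => ih m M (Tw (D.shn 1) N) hM hN') b z
    have htp : Conv.Tp hb hM hN = Conv.cf hb hM hN
        (true :: (List.replicate n true ++ List.replicate m false)) := rfl
    induction a using KLRAlg.induction with
    | hs r =>
      intro z
      rw [AlgHom.commutes, algebraMap_smul, map_smul, aR_algebraMap]
    | he k i =>
      intro z
      rcases k with _ | k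
      · rw [D.tr_e, if_pos (by omega), htp]
        exact (hX hb m (n + 1) M N hM hN _ z).2 i
      · have h := hs (D.e k i) z
        rw [D.shn_e, add_comm 1 k] at h
        exact h
    | hx k =>
      intro z
      rcases k with _ | k
      · rw [D.tr_x, if_pos (by omega), htp]
        exact (hX hb m (n + 1) M N hM hN _ z).1
      · have h := hs (D.x k) z
        rw [D.shn_x, add_comm 1 k] at h
        exact h
    | ht k =>
      intro z
      rcases k with _ | k
      · rcases n with _ | n
        · rw [D.tr_t, if_neg (by omega), zero_smul, map_zero,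
            aR_zero D M N (fun v => hN.t_smul_zero (by omega) v)]
        · rw [D.tr_t, if_pos (by omega), htp]
          exact hT hb m (n + 1 + 1) M N hM hN
            (List.replicate n true ++ List.replicate m false) z
      · have h := hs (D.t k) z
        rw [D.shn_t, add_comm 1 k] at h
        exact h
    | hadd a b ha hb' =>
      intro z
      rw [map_add, add_smul, map_add, ha, hb', aR_add]
    | hmul a b ha hb' =>
      intro z
      rw [map_mul, mul_smul, ha, hb', aR_mul]

end XTPTR

theorem Mo.I_TPTR (hR : StRho D) (hX : StX0 D) (hT : StT0 D) : StTpTr D :=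
  fun hb m n M N _ _ _ _ _ _ _ _ hM hN a z => XTPTR.main D hR hX hT hb n m M N hM hN a z

end Pool.Agent.KLR
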