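import Pool.Agent.Work.MP_e487d8_al.Mo.Cf
import Pool.Agent.Work.MP_e487d8_al.Pbw.W
import Pool.Agent.Work.MP_e487d8_al.Mod.Word

/-! MP_e487d8_al, module side, item X0: the first dot and the first idempotent on the coefficients
of the shuffles which start with `true`. -/

set_option autoImplicit false
set_option linter.unusedSectionVars false

open scoped TensorProduct

namespace Pool.Agent.KLR

variable {K I : Type} [Field K] [Fintype I] [DecidableEq I]

namespace XX0

section

variable {D : Datum K I} {m n : ℕ} {M N : Type}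
  [AddCommGroup M] [Module K M] [Module (KLRAlg D) M] [IsScalarTower K (KLRAlg D) M]
  [AddCommGroup N] [Module K N] [Module (KLRAlg D) N] [IsScalarTower K (KLRAlg D) N]

theorem isStrand_tw (hM : IsStrand D (m + 1) M) : IsStrand D m (Tw (D.shn 1) M) where
  one k hk u := by
    obtain ⟨u, rfl⟩ := (Tw.mk (D.shn 1)).surjective u
    rw [Tw.smul_mk, D.shn_E, hM.one (1 + k) (by omega)]
  zero k hk i u := by
    obtain ⟨u, rfl⟩ := (Tw.mk (D.shn 1)).surjective u
    rw [Tw.smul_mk, D.shn_e, hM.zero (1 + k) (by omega), map_zero]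

/-- the bilinear map behind `Phi` -/
noncomputable def beta (D : Datum K I) (m : ℕ) (M N : Type)
    [AddCommGroup M] [Module K M] [Module (KLRAlg D) M] [IsScalarTower K (KLRAlg D) M]
    [AddCommGroup N] [Module K N] [Module (KLRAlg D) N] [IsScalarTower K (KLRAlg D) N] :
    Tw (D.shn 1) M →ₗ[K] N →ₗ[K] Tw (D.shn 1) (Conv D (m + 1) M N) :=
  (Conv.mk D (m + 1) M N).compr₂ (Tw.mk (D.shn 1)).toLinearMap ∘ₗ
    (Tw.mk (D.shn 1) : M ≃ₗ[K] Tw (D.shn 1) M).symm.toLinearMap

theorem beta_mk (u : M) (v : N) :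
    beta D m M N (Tw.mk (D.shn 1) u) v = Tw.mk (D.shn 1) (Conv.mk D (m + 1) M N u v) := rfl

theorem beta_balanced : Balanced D m (beta D m M N) where
  left a u v := by
    obtain ⟨u, rfl⟩ := (Tw.mk (D.shn 1)).surjective u
    rw [Tw.smul_mk, beta_mk, beta_mk, Tw.smul_mk, ← D.tr_shn, Nat.add_comm 1 m,
      Conv.tr_smul_mk]
  right a u v := by
    obtain ⟨u, rfl⟩ := (Tw.mk (D.shn 1)).surjective u
    rw [beta_mk, beta_mk, Tw.smul_mk, D.shn_shn, Nat.add_comm 1 m, Conv.shn_smul_mk]

/-- the strands `1, 2, ...` of `M ∘ N` when `M` has a first strand -/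
noncomputable def Phi (D : Datum K I) (m : ℕ) (M N : Type)
    [AddCommGroup M] [Module K M] [Module (KLRAlg D) M] [IsScalarTower K (KLRAlg D) M]
    [AddCommGroup N] [Module K N] [Module (KLRAlg D) N] [IsScalarTower K (KLRAlg D) N] :
    Conv D m (Tw (D.shn 1) M) N →ₗ[KLRAlg D] Tw (D.shn 1) (Conv D (m + 1) M N) :=
  Conv.lift (beta D m M N) beta_balanced

theorem Phi_mk (u : M) (v : N) :
    Phi D m M N (Conv.mk D m _ N (Tw.mk (D.shn 1) u) v) =
      Tw.mk (D.shn 1) (Conv.mk D (m + 1) M N u v) := by
  unfold Phi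
  rw [Conv.lift_mk, beta_mk]

/-- the coefficients at `true :: w` vanish on the image of the strands `1, 2, ...` -/
theorem cf_Phi (hb : S_basis D) (hM : IsStrand D (m + 1) M) (hN : IsStrand D n N)
    (w : List Bool) (y : Conv D m (Tw (D.shn 1) M) N) :
    Conv.cf hb hM hN (true :: w) ((Tw.mk (D.shn 1)).symm (Phi D m M N y)) = 0 := by
  induction y using Conv.ind_tw hb (isStrand_tw hM) hN with
  | h0 => rw [map_zero, map_zero, map_zero]
  | hadd y z hy hz => rw [map_add, map_add, map_add, hy, hz, add_zero]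
  | h w' u v =>
    obtain ⟨u, rfl⟩ := (Tw.mk (D.shn 1)).surjective u
    rw [map_smul, Phi_mk, Tw.smul_mk, LinearEquiv.symm_apply_apply]
    have hw : (false :: w'.1).count false = m + 1 ∧ (false :: w'.1).count true = n := by
      rw [List.count_cons_self, List.count_cons_of_ne (by decide), w'.2.1, w'.2.2]
      exact ⟨rfl, rfl⟩
    have h1 := Conv.cf_tw hb hM hN ⟨false :: w'.1, hw⟩ (true :: w) u v
    rw [if_neg (by simp)] at h1
    exact h1

theorem cf_shn (hb : S_basis D) (hM : IsStrand D (m + 1) M) (hN : IsStrand D n N)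
    (w : List Bool) (a : KLRAlg D) (u : M) (v : N) :
    Conv.cf hb hM hN (true :: w) (D.shn 1 a • Conv.mk D (m + 1) M N u v) = 0 := by
  have h := cf_Phi hb hM hN w (a • Conv.mk D m _ N (Tw.mk (D.shn 1) u) v)
  rw [map_smul, Phi_mk, Tw.smul_mk, LinearEquiv.symm_apply_apply] at h
  exact h

/-- error terms have no coefficients at `true :: w` -/
theorem cf_W (hb : S_basis D) (hM : IsStrand D m M) (hN : IsStrand D n N)
    (w : List Bool) (c : KLRAlg D) {z : KLRAlg D} (hz : z ∈ Pbw.W D m) (u : M) (v : N) :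
    Conv.cf hb hM hN (true :: w) (D.shn 1 c • z • Conv.mk D m M N u v) = 0 := by
  unfold Pbw.W at hz
  induction hz using Submodule.span_induction with
  | mem z hz =>
    obtain ⟨hm, a, b, rfl⟩ := hz
    obtain ⟨m, rfl⟩ : ∃ q, m = q + 1 := ⟨m - 1, by omega⟩
    rw [mul_smul, Conv.tr_smul_mk, ← mul_smul, ← map_mul]
    exact cf_shn hb hM hN w _ _ _
  | zero => rw [zero_smul, smul_zero, map_zero]
  | add x y _ _ hx hy => rw [add_smul, smul_add, map_add, hx, hy, add_zero]
  | smul r x _ hx =>
    rw [smul_assoc, smul_algebra_smul_comm, map_smul, hx, smul_zero]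

theorem x0_shn (D : Datum K I) (a : KLRAlg D) : D.x 0 * D.shn 1 a = D.shn 1 a * D.x 0 := by
  have h := D.tr_mul_shn (le_refl 1) (D.x 0) a
  rwa [D.tr_x, if_pos Nat.zero_lt_one] at h

end

end XX0

open XX0

theorem Mo.I_X0 (D : Datum K I) : StX0 D := by
  intro hb m n M N _ _ _ _ _ _ _ _ hM hN w z
  induction z using Conv.ind_tw hb hM hN with
  | h0 =>
    refine ⟨?_, fun i => ?_⟩
    · rw [smul_zero, map_zero, map_zero]
    · rw [smul_zero, map_zero, map_zero]
  | hadd y z hy hz =>
    refine ⟨?_, fun i => ?_⟩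
    · rw [smul_add, map_add, map_add, map_add, hy.1, hz.1]
    · rw [smul_add, map_add, map_add, map_add, hy.2 i, hz.2 i]
  | h w0 u v =>
    obtain ⟨w0, hw0⟩ := w0
    match w0, hw0 with
    | [], hw0 =>
      have h1 : m = 0 := by rw [← hw0.1, List.count_nil]
      have h2 : n = 0 := by rw [← hw0.2, List.count_nil]
      have hS : IsStrand D (m + n) (Conv D m M N) := Conv.isStrand hM hN
      have h3 := Conv.cf_tw hb hM hN ⟨[], hw0⟩ (true :: w) u v
      rw [if_neg (by simp)] at h3
      rw [h3]
      refine ⟨?_, fun i => ?_⟩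
      · rw [hS.x_smul_zero (by omega), map_zero, map_zero]
      · rw [hS.zero 0 (by omega), map_zero, map_zero]
    | false :: w1, hw0 =>
      have h30 := Conv.cf_tw hb hM hN ⟨false :: w1, hw0⟩ (true :: w) u v
      rw [if_neg (by simp)] at h30
      rw [h30]
      have hm : 0 < m := by
        rw [← hw0.1, List.count_cons_self]
        omega
      refine ⟨?_, fun i => ?_⟩
      · have h1 : D.x 0 • D.tw (false :: w1) • Conv.mk D m M N u v =
            D.tw (false :: w1) • Conv.mk D m M N (D.x 0 • u) v := by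
          have h2 := Conv.tr_smul_mk (D := D) (m := m) (D.x 0) u v
          rw [D.tr_x, if_pos hm] at h2
          rw [← h2, ← mul_smul, ← mul_smul]
          congr 1
          exact x0_shn D _
        have h3 := Conv.cf_tw hb hM hN ⟨false :: w1, hw0⟩ (true :: w) (D.x 0 • u) v
        rw [if_neg (by simp)] at h3
        rw [map_zero]
        change Conv.cf hb hM hN (true :: w) (D.x 0 • D.tw (false :: w1) • Conv.mk D m M N u v) = 0
        rw [h1]
        exact h3
      · have h1 : D.e 0 i • D.tw (false :: w1) • Conv.mk D m M N u v =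
            D.tw (false :: w1) • Conv.mk D m M N (D.e 0 i • u) v := by
          have h2 := Conv.tr_smul_mk (D := D) (m := m) (D.e 0 i) u v
          rw [D.tr_e, if_pos hm] at h2
          rw [← h2, ← mul_smul, ← mul_smul]
          congr 1
          exact D.e0_shn i _
        have h3 := Conv.cf_tw hb hM hN ⟨false :: w1, hw0⟩ (true :: w) (D.e 0 i • u) v
        rw [if_neg (by simp)] at h3
        rw [map_zero]
        change Conv.cf hb hM hN (true :: w) (D.e 0 i • D.tw (false :: w1) • Conv.mk D m M N u v) = 0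
        rw [h1]
        exact h3
    | true :: w1, hw0 =>
      have hc : w1.count false = m := by
        rw [← hw0.1, List.count_cons_of_ne (by decide)]
      have htw : D.tw (true :: w1) = D.shn 1 (D.tw w1) * D.chain m := by
        rw [Datum.tw, hc]
      have hcf : ∀ v' : N, Conv.cf hb hM hN (true :: w)
          (D.shn 1 (D.tw w1) • D.chain m • Conv.mk D m M N u v') =
          if true :: w = true :: w1 then u ⊗ₜ v' else 0 := by
        intro v'
        have h3 := Conv.cf_tw hb hM hN ⟨true :: w1, hw0⟩ (true :: w) u v'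
        rw [← h3]
        change _ = Conv.cf hb hM hN (true :: w) (D.tw (true :: w1) • Conv.mk D m M N u v')
        rw [htw, mul_smul]
      change Conv.cf hb hM hN (true :: w) (D.x 0 • D.tw (true :: w1) • Conv.mk D m M N u v) =
        aR D M N (D.x 0) (Conv.cf hb hM hN (true :: w)
          (D.tw (true :: w1) • Conv.mk D m M N u v)) ∧
        ∀ i, Conv.cf hb hM hN (true :: w) (D.e 0 i • D.tw (true :: w1) • Conv.mk D m M N u v) =
        aR D M N (D.e 0 i) (Conv.cf hb hM hN (true :: w)
          (D.tw (true :: w1) • Conv.mk D m M N u v))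
      rw [htw, mul_smul, hcf v]
      refine ⟨?_, fun i => ?_⟩
      · have h1 : D.x 0 • D.shn 1 (D.tw w1) • D.chain m • Conv.mk D m M N u v =
            D.shn 1 (D.tw w1) • D.chain m • Conv.mk D m M N u (D.x 0 • v) +
            D.shn 1 (D.tw w1) • (D.x 0 * D.chain m - D.chain m * D.x m) •
              Conv.mk D m M N u v := by
          have h2 := Conv.shn_smul_mk (D := D) (m := m) (D.x 0) u v
          rw [D.shn_x, Nat.add_zero] at h2
          rw [← h2, ← smul_add, ← mul_smul, ← mul_smul, ← mul_smul, ← add_smul, add_sub_cancel,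
            ← mul_smul, x0_shn, mul_assoc]
        rw [h1, map_add, cf_W hb hM hN w _ (Pbw.prf_W2 D m), add_zero, hcf]
        split_ifs
        · rfl
        · rw [map_zero]
      · have h1 : D.e 0 i • D.shn 1 (D.tw w1) • D.chain m • Conv.mk D m M N u v =
            D.shn 1 (D.tw w1) • D.chain m • Conv.mk D m M N u (D.e 0 i • v) := by
          have h2 := Conv.shn_smul_mk (D := D) (m := m) (D.e 0 i) u v
          rw [D.shn_e, Nat.add_zero] at h2
          rw [← h2, ← mul_smul, ← mul_smul, ← mul_smul, ← mul_smul, D.e0_shn, mul_assoc,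
            D.e0_chain, mul_assoc]
        rw [h1, hcf]
        split_ifs
        · rfl
        · rw [map_zero]

end Pool.Agent.KLR
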