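import Pool.Agent.Work.MP_e487d8_al.Mo.Dual

/-! MP_e487d8_al, module side: coefficients with respect to the shuffle basis, statements of the
duality block. -/

set_option autoImplicit false
set_option linter.unusedSectionVars false

open scoped TensorProduct

namespace Pool.Agent.KLR

variable {K I : Type} [Field K] [Fintype I] [DecidableEq I] {D : Datum K I}

namespace Conv

section

variable {m n : ℕ} {M N : Type} [AddCommGroup M] [Module K M] [Module (KLRAlg D) M]
  [IsScalarTower K (KLRAlg D) M] [AddCommGroup N] [Module K N] [Module (KLRAlg D) N]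
  [IsScalarTower K (KLRAlg D) N]

/-- all coefficients -/
noncomputable def csE (hb : S_basis D) (hM : IsStrand D m M) (hN : IsStrand D n N) :
    Conv D m M N ≃ₗ[K] (Shf m n →₀ (M ⊗[K] N)) :=
  (LinearEquiv.ofBijective (convSum D m n M N) (hb m n M N hM hN)).symm

/-- the coefficient of `tw w` in an element of `M ∘ N` (zero if `w` is not a shuffle of `m` and
`n` strands) -/
noncomputable def cf (hb : S_basis D) (hM : IsStrand D m M) (hN : IsStrand D n N)
    (w : List Bool) : Conv D m M N →ₗ[K] M ⊗[K] N :=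
  if h : w.count false = m ∧ w.count true = n then
    (Finsupp.lapply (⟨w, h⟩ : Shf m n)).comp (csE hb hM hN).toLinearMap else 0

variable (hb : S_basis D) (hM : IsStrand D m M) (hN : IsStrand D n N)

theorem cf_shf (w : Shf m n) (z : Conv D m M N) : cf hb hM hN w.1 z = csE hb hM hN z w := by
  unfold cf
  rw [dif_pos w.2]
  rfl

theorem cf_out {w : List Bool} (h : ¬ (w.count false = m ∧ w.count true = n))
    (z : Conv D m M N) : cf hb hM hN w z = 0 := by
  unfold cf
  rw [dif_neg h]
  rfl

/-- an element is determined by its coefficients -/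
theorem cf_ext {y z : Conv D m M N} (h : ∀ w, cf hb hM hN w y = cf hb hM hN w z) : y = z := by
  apply (csE hb hM hN).injective
  ext w
  rw [← cf_shf, ← cf_shf, h]

theorem cf_tw (w : Shf m n) (w' : List Bool) (u : M) (v : N) :
    cf hb hM hN w' (D.tw w.1 • mk D m M N u v) = if w' = w.1 then u ⊗ₜ v else 0 := by
  classical
  have h1 : csE hb hM hN (D.tw w.1 • mk D m M N u v) = Finsupp.single w (u ⊗ₜ v) := by
    rw [← convSum_single]
    exact LinearEquiv.symm_apply_apply _ _
  by_cases h : w'.count false = m ∧ w'.count true = n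
  · obtain ⟨w1, rfl⟩ : ∃ w1 : Shf m n, w1.1 = w' := ⟨⟨w', h⟩, rfl⟩
    rw [cf_shf, h1, Finsupp.single_apply]
    by_cases h3 : w1 = w
    · rw [if_pos h3.symm, if_pos (congrArg Subtype.val h3)]
    · rw [if_neg (Ne.symm h3), if_neg (fun h4 => h3 (Subtype.ext h4))]
  · rw [cf_out hb hM hN h, if_neg]
    rintro rfl
    exact h w.2

/-- induction on elements of `M ∘ N` -/
theorem ind_tw {p : Conv D m M N → Prop} (hb : S_basis D) (hM : IsStrand D m M)
    (hN : IsStrand D n N) (z : Conv D m M N) (h0 : p 0)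
    (h : ∀ (w : Shf m n) (u : M) (v : N), p (D.tw w.1 • mk D m M N u v))
    (hadd : ∀ y z, p y → p z → p (y + z)) : p z := by
  obtain ⟨f, rfl⟩ := (hb m n M N hM hN).2 z
  induction f using Finsupp.induction_linear with
  | zero => rwa [map_zero]
  | add f g hf hg => rw [map_add]; exact hadd _ _ hf hg
  | single w t =>
    induction t using TensorProduct.induction_on with
    | zero => rwa [Finsupp.single_zero, map_zero]
    | tmul u v => rw [convSum_single]; exact h w u v
    | add s t hs ht => rw [Finsupp.single_add, map_add]; exact hadd _ _ hs ht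

/-- the top coefficient -/
noncomputable def Tp (hb : S_basis D) (hM : IsStrand D m M) (hN : IsStrand D n N) :
    Conv D m M N →ₗ[K] M ⊗[K] N :=
  cf hb hM hN (List.replicate n true ++ List.replicate m false)

end

end Conv

/-- `1 ⊗ a` on `M ⊗ N` -/
noncomputable def aR (D : Datum K I) (M N : Type) [AddCommGroup M] [Module K M] [AddCommGroup N]
    [Module K N] [Module (KLRAlg D) N] [IsScalarTower K (KLRAlg D) N] (a : KLRAlg D) :
    M ⊗[K] N →ₗ[K] M ⊗[K] N := (Algebra.lsmul K K N a).lTensor M

/-- `a ⊗ 1` on `M ⊗ N` -/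
noncomputable def aL (D : Datum K I) (M N : Type) [AddCommGroup M] [Module K M] [AddCommGroup N]
    [Module K N] [Module (KLRAlg D) M] [IsScalarTower K (KLRAlg D) M] (a : KLRAlg D) :
    M ⊗[K] N →ₗ[K] M ⊗[K] N := (Algebra.lsmul K K M a).rTensor N

/-! ### statements: the top coefficient -/

variable (D)

/-- RHO: the coefficients of the shuffles which start with `true` form a module over the strands
`1, 2, ...`, namely `M ∘ N'` where `N'` is `N` without its first strand -/
def StRho : Prop := ∀ (hb : S_basis D) (m n : ℕ) (M N : Type)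
  [AddCommGroup M] [Module K M] [Module (KLRAlg D) M] [IsScalarTower K (KLRAlg D) M]
  [AddCommGroup N] [Module K N] [Module (KLRAlg D) N] [IsScalarTower K (KLRAlg D) N]
  (hM : IsStrand D m M) (hN : IsStrand D (n + 1) N) (hN' : IsStrand D n (Tw (D.shn 1) N)),
  ∃ ρ : Conv D m M N →ₗ[K] Conv D m M (Tw (D.shn 1) N),
    (∀ (a : KLRAlg D) (z : Conv D m M N), ρ (D.shn 1 a • z) = a • ρ z) ∧
    ∀ (w : List Bool) (z : Conv D m M N), Conv.cf hb hM hN' w (ρ z) =
      (Tw.mk (D.shn 1) : N ≃ₗ[K] Tw (D.shn 1) N).toLinearMap.lTensor M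
        (Conv.cf hb hM hN (true :: w) z)

/-- X0: the first dot and the first idempotent on coefficients of `true :: w` -/
def StX0 : Prop := ∀ (hb : S_basis D) (m n : ℕ) (M N : Type)
  [AddCommGroup M] [Module K M] [Module (KLRAlg D) M] [IsScalarTower K (KLRAlg D) M]
  [AddCommGroup N] [Module K N] [Module (KLRAlg D) N] [IsScalarTower K (KLRAlg D) N]
  (hM : IsStrand D m M) (hN : IsStrand D n N) (w : List Bool) (z : Conv D m M N),
  Conv.cf hb hM hN (true :: w) (D.x 0 • z) = aR D M N (D.x 0) (Conv.cf hb hM hN (true :: w) z) ∧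
  ∀ i, Conv.cf hb hM hN (true :: w) (D.e 0 i • z) =
    aR D M N (D.e 0 i) (Conv.cf hb hM hN (true :: w) z)

/-- T0: the first crossing on coefficients of `true :: true :: w` -/
def StT0 : Prop := ∀ (hb : S_basis D) (m n : ℕ) (M N : Type)
  [AddCommGroup M] [Module K M] [Module (KLRAlg D) M] [IsScalarTower K (KLRAlg D) M]
  [AddCommGroup N] [Module K N] [Module (KLRAlg D) N] [IsScalarTower K (KLRAlg D) N]
  (hM : IsStrand D m M) (hN : IsStrand D n N) (w : List Bool) (z : Conv D m M N),
  Conv.cf hb hM hN (true :: true :: w) (D.t 0 • z) =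
    aR D M N (D.t 0) (Conv.cf hb hM hN (true :: true :: w) z)

/-- TK: if all coefficients of `false^j true ..`, `j ≤ k`, vanish, then the coefficient of
`false^k true false w` in `t k • z` is the coefficient of `false^(k+1) true w` in `z` -/
def StTk : Prop := ∀ (hb : S_basis D) (m n : ℕ) (M N : Type)
  [AddCommGroup M] [Module K M] [Module (KLRAlg D) M] [IsScalarTower K (KLRAlg D) M]
  [AddCommGroup N] [Module K N] [Module (KLRAlg D) N] [IsScalarTower K (KLRAlg D) N]
  (hM : IsStrand D m M) (hN : IsStrand D n N) (k : ℕ) (z : Conv D m M N),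
  (∀ j ≤ k, ∀ w, Conv.cf hb hM hN (List.replicate j false ++ true :: w) z = 0) →
  ∀ w, Conv.cf hb hM hN (List.replicate k false ++ true :: false :: w) (D.t k • z) =
    Conv.cf hb hM hN (List.replicate (k + 1) false ++ true :: w) z

/-- TPTR: the top coefficient and the first `n` strands -/
def StTpTr : Prop := ∀ (hb : S_basis D) (m n : ℕ) (M N : Type)
  [AddCommGroup M] [Module K M] [Module (KLRAlg D) M] [IsScalarTower K (KLRAlg D) M]
  [AddCommGroup N] [Module K N] [Module (KLRAlg D) N] [IsScalarTower K (KLRAlg D) N]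
  (hM : IsStrand D m M) (hN : IsStrand D n N) (a : KLRAlg D) (z : Conv D m M N),
  Conv.Tp hb hM hN (D.tr n a • z) = aR D M N a (Conv.Tp hb hM hN z)

/-- TPSHN: the top coefficient and the last `m` strands -/
def StTpShn : Prop := ∀ (hb : S_basis D) (m n : ℕ) (M N : Type)
  [AddCommGroup M] [Module K M] [Module (KLRAlg D) M] [IsScalarTower K (KLRAlg D) M]
  [AddCommGroup N] [Module K N] [Module (KLRAlg D) N] [IsScalarTower K (KLRAlg D) N]
  (hM : IsStrand D m M) (hN : IsStrand D n N) (a : KLRAlg D) (z : Conv D m M N),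
  Conv.Tp hb hM hN (D.shn n a • z) = aL D M N a (Conv.Tp hb hM hN z)

/-- TPND: the top coefficient is non degenerate -/
def StTpNd : Prop := ∀ (hb : S_basis D) (m n : ℕ) (M N : Type)
  [AddCommGroup M] [Module K M] [Module (KLRAlg D) M] [IsScalarTower K (KLRAlg D) M]
  [AddCommGroup N] [Module K N] [Module (KLRAlg D) N] [IsScalarTower K (KLRAlg D) N]
  (hM : IsStrand D m M) (hN : IsStrand D n N) (z : Conv D m M N),
  (∀ a : KLRAlg D, Conv.Tp hb hM hN (a • z) = 0) → z = 0

/-! ### statements: duality -/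

/-- DUCONV: the dual of a convolution product -/
def StDuConv : Prop := ∀ (_ : S_basis D) (m n : ℕ) (M N : Type)
  [AddCommGroup M] [Module K M] [Module (KLRAlg D) M] [IsScalarTower K (KLRAlg D) M]
  [AddCommGroup N] [Module K N] [Module (KLRAlg D) N] [IsScalarTower K (KLRAlg D) N],
  IsStrand D m M → IsStrand D n N → FiniteDimensional K M → FiniteDimensional K N →
  Nonempty (Conv D n (Du D N) (Du D M) ≃ₗ[KLRAlg D] Du D (Conv D m M N))

/-- DUCHR: the character of the dual -/
def StDuChr : Prop := ∀ (n : ℕ) (M : Type)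
  [AddCommGroup M] [Module K M] [Module (KLRAlg D) M] [IsScalarTower K (KLRAlg D) M],
  FdMod D n M → FdMod D n (Du D M) ∧ ∀ ν, chr D n (Du D M) ν = chr D n M ν

/-- DUSMP: the dual of a simple module is simple -/
def StDuSmp : Prop := ∀ (n : ℕ) (M : Type)
  [AddCommGroup M] [Module K M] [Module (KLRAlg D) M] [IsScalarTower K (KLRAlg D) M],
  Smp D n M → Smp D n (Du D M)

/-- DUISO: a simple module is isomorphic to its dual -/
def StDuIso : Prop := ∀ (Lp : I → ℕ → SMod D), CFacts D Lp → ∀ X : SMod D,
  Nonempty (Du D X.M ≃ₗ[KLRAlg D] X.M)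

/-- SWAP: the quotients of `X ∘ Y` are the submodules of `Y ∘ X` -/
def StSwap : Prop := ∀ (_ : S_basis D) (Lp : I → ℕ → SMod D), CFacts D Lp → ∀ X Y Z : SMod D,
  Quo D Z.M (X.conv Y) ↔ Sub D Z.M (Y.conv X)

end Pool.Agent.KLR
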