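import Pool.Agent.Work.MP_e487d8_al.Fin.Cls

/-! MP_e487d8_al, module side: the anti-involution and the dual module. -/

set_option autoImplicit false
set_option linter.unusedSectionVars false

open MulOpposite

namespace Pool.Agent.KLR

variable {K I : Type} [Field K] [Fintype I] [DecidableEq I]

namespace Datum

variable (D : Datum K I)

theorem op_mul_comm {B : Type*} [Mul B] {a b : B} (h : a * b = b * a) :
    op (a * b) = op a * op b := by
  rw [h, op_mul]

theorem anti_rels : Rels D (B := (KLRAlg D)ᵐᵒᵖ) (fun k i => op (D.e k i)) (fun k => op (D.x k))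
    (fun k => op (D.t k)) where
  ee k i j := by
    rw [← op_mul, D.e_mul_e]
    by_cases h : i = j
    · subst h; simp
    · rw [if_neg h, if_neg (Ne.symm h), op_zero]
  ee_comm k l i j := by rw [← op_mul, ← op_mul, D.e_comm]
  xx k l := by rw [← op_mul, ← op_mul, D.x_comm]
  xe k l i := by rw [← op_mul, ← op_mul, D.x_e]
  xE k := by
    rw [← Finset.op_sum, ← op_mul]
    exact congrArg op ((D.E_comm k (D.x k)).trans (D.x_E k))
  tE k := by
    rw [← Finset.op_sum, ← op_mul]
    exact congrArg op ((D.E_comm k (D.t k)).trans (D.t_E k))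
  tE' k := by
    rw [← Finset.op_sum, ← op_mul]
    exact congrArg op ((D.E_comm (k + 1) (D.t k)).trans (D.t_E' k))
  te0 k i := by rw [← op_mul, ← op_mul, D.t_e1]
  te1 k i := by rw [← op_mul, ← op_mul, D.t_e0]
  te k l i h h' := by rw [← op_mul, ← op_mul, D.t_e k l i h h']
  tx k l h h' := by rw [← op_mul, ← op_mul, D.t_x k l h h']
  tx0 k := by
    have h1 : (∑ i, op (D.e k i) * op (D.e (k + 1) i)) = op (D.dl k) := by
      unfold Datum.dl
      rw [Finset.op_sum]
      refine Finset.sum_congr rfl fun i _ => ?_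
      rw [← op_mul, D.e_comm]
    rw [h1, ← op_mul, ← op_mul, ← op_sub, D.t_x1 k, add_sub_cancel_right]
  tx1 k := by
    have h1 : (∑ i, op (D.e k i) * op (D.e (k + 1) i)) = op (D.dl k) := by
      unfold Datum.dl
      rw [Finset.op_sum]
      refine Finset.sum_congr rfl fun i _ => ?_
      rw [← op_mul, D.e_comm]
    rw [h1, ← op_mul, ← op_mul, ← op_add, D.t_x0 k, sub_add_cancel]
  tt k := by
    rw [← op_mul, D.t_t, Finset.op_sum]
    refine Finset.sum_congr rfl fun i _ => ?_
    rw [Finset.op_sum]
    refine Finset.sum_congr rfl fun j _ => ?_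
    by_cases hij : i = j
    · rw [if_pos hij, if_pos hij, op_zero]
    · rw [if_neg hij, if_neg hij, op_smul, op_mul_comm (a := (D.x k - D.x (k + 1)) ^ D.q i j),
        op_mul_comm (D.e_comm k (k + 1) i j), op_pow, op_sub]
      have h1 : ∀ (l : ℕ) (i : I), Commute (D.x l) (D.e k i * D.e (k + 1) j) := fun l i =>
        Commute.mul_right (D.x_e l k i) (D.x_e l (k + 1) j)
      exact ((h1 k i).sub_left (h1 (k + 1) i)).pow_left _
  far k l h := by rw [← op_mul, ← op_mul, D.t_far k l h]
  braid k := by
    have h0 : op (D.t (k + 1)) * op (D.t k) * op (D.t (k + 1)) -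
        op (D.t k) * op (D.t (k + 1)) * op (D.t k) =
        op (D.t (k + 1) * D.t k * D.t (k + 1) - D.t k * D.t (k + 1) * D.t k) := by
      rw [op_sub, op_mul, op_mul, op_mul, op_mul, mul_assoc, mul_assoc]
    rw [h0, D.t_braid, Finset.op_sum]
    refine Finset.sum_congr rfl fun i _ => ?_
    rw [Finset.op_sum]
    refine Finset.sum_congr rfl fun j _ => ?_
    by_cases hij : i = j
    · rw [if_pos hij, if_pos hij, op_zero]
    · have hx : ∀ a b : ℕ, Commute (D.x a) (D.x b) := fun a b => D.x_comm a b
      have he : ∀ (l : ℕ), Commute (D.x l) (D.e k i * D.e (k + 1) j * D.e (k + 2) i) := fun l =>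
        Commute.mul_right (Commute.mul_right (D.x_e l k i) (D.x_e l (k + 1) j))
          (D.x_e l (k + 2) i)
      have hee : ∀ a b i j, Commute (D.e a i) (D.e b j) := fun a b i j => D.e_comm a b i j
      have hxx : Commute (D.x k - D.x (k + 1)) (D.x (k + 2) - D.x (k + 1)) :=
        ((hx _ _).sub_right (hx _ _)).sub_left ((hx _ _).sub_right (hx _ _))
      rw [if_neg hij, if_neg hij, op_smul, op_mul_comm, op_mul_comm (a := D.e k i * D.e (k + 1) j),
        op_mul_comm (D.e_comm k (k + 1) i j), Finset.op_sum]
      · congr 2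
        refine Finset.sum_congr rfl fun p _ => ?_
        rw [op_mul_comm (hxx.pow_pow p (D.q i j - 1 - p)), op_pow, op_pow, op_sub, op_sub]
      · exact (Commute.mul_left (hee _ _ _ _) (hee _ _ _ _))
      · exact Commute.sum_left _ _ _ fun p _ =>
          (((he _).sub_left (he _)).pow_left _).mul_left (((he _).sub_left (he _)).pow_left _)

/-- the anti-involution which fixes the generators -/
noncomputable def anti : KLRAlg D →ₐ[K] (KLRAlg D)ᵐᵒᵖ := liftHom D.anti_rels

/-- the anti-involution which fixes the generators, as a linear map -/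
noncomputable def an : KLRAlg D →ₗ[K] KLRAlg D :=
  (opLinearEquiv K).symm.toLinearMap ∘ₗ D.anti.toLinearMap

theorem an_def (a : KLRAlg D) : D.an a = unop (D.anti a) := rfl

theorem an_e (k : ℕ) (i : I) : D.an (D.e k i) = D.e k i := by
  rw [an_def, anti, liftHom_e]; rfl
theorem an_x (k : ℕ) : D.an (D.x k) = D.x k := by
  rw [an_def, anti, liftHom_x]; rfl
theorem an_t (k : ℕ) : D.an (D.t k) = D.t k := by
  rw [an_def, anti, liftHom_t]; rfl
theorem an_mul (a b : KLRAlg D) : D.an (a * b) = D.an b * D.an a := by
  rw [an_def, map_mul]; rfl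
theorem an_one : D.an 1 = 1 := by
  rw [an_def, map_one]; rfl
theorem an_algebraMap (r : K) : D.an (algebraMap K _ r) = algebraMap K _ r := by
  rw [an_def, AlgHom.commutes]; rfl
theorem an_E (k : ℕ) : D.an (D.E k) = D.E k := by
  unfold Datum.E
  rw [map_sum]
  exact Finset.sum_congr rfl fun i _ => D.an_e k i

theorem an_an (a : KLRAlg D) : D.an (D.an a) = a := by
  induction a using KLRAlg.induction with
  | hs r => rw [an_algebraMap, an_algebraMap]
  | he k i => rw [an_e, an_e]
  | hx k => rw [an_x, an_x]
  | ht k => rw [an_t, an_t]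
  | hadd a b ha hb => rw [map_add, map_add, ha, hb]
  | hmul a b ha hb => rw [an_mul, an_mul, ha, hb]

theorem an_shn (m : ℕ) (a : KLRAlg D) : D.an (D.shn m a) = D.shn m (D.an a) := by
  induction a using KLRAlg.induction with
  | hs r => rw [AlgHom.commutes, an_algebraMap, AlgHom.commutes]
  | he k i => rw [shn_e, an_e, an_e, shn_e]
  | hx k => rw [shn_x, an_x, an_x, shn_x]
  | ht k => rw [shn_t, an_t, an_t, shn_t]
  | hadd a b ha hb => rw [map_add, map_add, ha, hb, map_add, map_add]
  | hmul a b ha hb => rw [map_mul, an_mul, ha, hb, an_mul, map_mul]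

theorem an_tr (m : ℕ) (a : KLRAlg D) : D.an (D.tr m a) = D.tr m (D.an a) := by
  induction a using KLRAlg.induction with
  | hs r => rw [AlgHom.commutes, an_algebraMap, AlgHom.commutes]
  | he k i =>
    rw [an_e, tr_e]
    split_ifs
    · exact D.an_e k i
    · exact map_zero _
  | hx k =>
    rw [an_x, tr_x]
    split_ifs
    · exact D.an_x k
    · exact map_zero _
  | ht k =>
    rw [an_t, tr_t]
    split_ifs
    · exact D.an_t k
    · exact map_zero _
  | hadd a b ha hb => rw [map_add, map_add, ha, hb, map_add, map_add]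
  | hmul a b ha hb => rw [map_mul, an_mul, ha, hb, an_mul, map_mul]

theorem an_eW (ν : List I) : D.an (D.eW ν) = D.eW ν := by
  induction ν with
  | nil => exact D.an_one
  | cons i ν ih =>
    rw [D.eW_cons, an_mul, an_shn, ih, an_e, ← D.e0_shn]

end Datum

/-- the dual vector space of a module -/
@[nolint unusedArguments]
def Du (_D : Datum K I) (M : Type) [AddCommGroup M] [Module K M] : Type := Module.Dual K M

namespace Du

section

variable (D : Datum K I) (M : Type) [AddCommGroup M] [Module K M]

noncomputable instance : AddCommGroup (Du D M) := inferInstanceAs (AddCommGroup (Module.Dual K M))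
noncomputable instance : Module K (Du D M) := inferInstanceAs (Module K (Module.Dual K M))
instance [FiniteDimensional K M] : FiniteDimensional K (Du D M) :=
  inferInstanceAs (FiniteDimensional K (Module.Dual K M))

/-- the identity map -/
noncomputable def mk : Module.Dual K M ≃ₗ[K] Du D M := LinearEquiv.refl K _

end

section

variable {D : Datum K I} {M N P : Type} [AddCommGroup M] [Module K M] [Module (KLRAlg D) M]
  [IsScalarTower K (KLRAlg D) M] [AddCommGroup N] [Module K N] [Module (KLRAlg D) N]
  [IsScalarTower K (KLRAlg D) N]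

/-- evaluation -/
noncomputable def ev (φ : Du D M) : M →ₗ[K] K := (mk D M).symm φ

theorem ext {φ ψ : Du D M} (h : ∀ u, ev φ u = ev ψ u) : φ = ψ :=
  (mk D M).symm.injective (LinearMap.ext h)

noncomputable instance : SMul (KLRAlg D) (Du D M) where
  smul a φ := mk D M ((ev φ).comp (Algebra.lsmul K K M (D.an a)))

theorem ev_smul (a : KLRAlg D) (φ : Du D M) (u : M) : ev (a • φ) u = ev φ (D.an a • u) := rfl

theorem ev_add (φ ψ : Du D M) (u : M) : ev (φ + ψ) u = ev φ u + ev ψ u := rfl

theorem ev_zero (u : M) : ev (0 : Du D M) u = 0 := rfl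

theorem ev_smulK (r : K) (φ : Du D M) (u : M) : ev (r • φ) u = r • ev φ u := rfl

noncomputable instance : Module (KLRAlg D) (Du D M) where
  one_smul φ := ext fun u => by rw [ev_smul, D.an_one, one_smul]
  mul_smul a b φ := ext fun u => by rw [ev_smul, ev_smul, ev_smul, D.an_mul, mul_smul]
  smul_zero a := ext fun u => by rw [ev_smul, ev_zero, ev_zero]
  smul_add a φ ψ := ext fun u => by rw [ev_smul, ev_add, ev_add, ev_smul, ev_smul]
  add_smul a b φ := ext fun u => by
    rw [ev_smul, ev_add, ev_smul, ev_smul, map_add, add_smul, map_add]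
  zero_smul φ := ext fun u => by rw [ev_smul, map_zero, zero_smul, map_zero, ev_zero]

instance : IsScalarTower K (KLRAlg D) (Du D M) where
  smul_assoc r a φ := ext fun u => by
    rw [ev_smulK, ev_smul, ev_smul, (D.an).map_smul r a, smul_assoc, (ev φ).map_smul]

theorem isStrand {n : ℕ} (h : IsStrand D n M) : IsStrand D n (Du D M) where
  one k hk φ := ext fun u => by rw [ev_smul, D.an_E, h.one k hk]
  zero k hk i φ := ext fun u => by rw [ev_smul, D.an_e, h.zero k hk, map_zero, ev_zero]

/-- the dual map -/
noncomputable def map (f : M →ₗ[KLRAlg D] N) : Du D N →ₗ[KLRAlg D] Du D M where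
  toFun φ := mk D M ((ev φ).comp (Conv.toK f))
  map_add' φ ψ := rfl
  map_smul' a φ := ext fun u => by
    change ev (a • φ) (f u) = ev φ (f (D.an a • u))
    rw [ev_smul, f.map_smul]

theorem ev_map (f : M →ₗ[KLRAlg D] N) (φ : Du D N) (u : M) : ev (map f φ) u = ev φ (f u) := rfl

theorem map_injective {f : M →ₗ[KLRAlg D] N} (h : Function.Surjective f) :
    Function.Injective (map f) := by
  intro φ ψ hφ
  refine ext fun u => ?_
  obtain ⟨u, rfl⟩ := h u
  rw [← ev_map, ← ev_map, hφ]

theorem map_surjective {f : M →ₗ[KLRAlg D] N} (h : Function.Injective f) :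
    Function.Surjective (map f) := by
  intro φ
  obtain ⟨g, hg⟩ := LinearMap.exists_leftInverse_of_injective (Conv.toK f)
    (LinearMap.ker_eq_bot.2 h)
  refine ⟨mk D N ((ev φ).comp g), ext fun u => ?_⟩
  rw [ev_map]
  change ev φ (g (Conv.toK f u)) = ev φ u
  rw [← LinearMap.comp_apply g, hg]
  rfl

/-- a finite dimensional module is isomorphic to its double dual -/
noncomputable def dd [FiniteDimensional K M] : M ≃ₗ[KLRAlg D] Du D (Du D M) :=
  { (Module.evalEquiv K M) with
    map_smul' := fun a u => by
      refine ext (D := D) (M := Du D M) fun φ => ?_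
      change ev φ (a • u) = ev (D.an a • φ) u
      rw [ev_smul, D.an_an] }

theorem ev_dd [FiniteDimensional K M] (u : M) (φ : Du D M) : ev (dd u) φ = ev φ u := rfl

end

end Du

/-- `Z` is a submodule of `M` -/
def Sub (D : Datum K I) (Z M : Type) [AddCommGroup Z] [Module (KLRAlg D) Z] [AddCommGroup M]
    [Module (KLRAlg D) M] : Prop := ∃ f : Z →ₗ[KLRAlg D] M, Function.Injective f

end Pool.Agent.KLR
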