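import Pool.Agent.Work.MP_e487d8_al.Mo.Cf
import Pool.Agent.Work.MP_e487d8_al.Fin.Inst
import Pool.Agent.Work.MP_e487d8_al.Fin.Crys

/-! MP_e487d8_al, module side: statements on heads of convolution products, strongly real modules,
K1, K4, (S2), (DS), (LBF). No R-matrices, no gradings. -/

set_option autoImplicit false
set_option linter.unusedSectionVars false

open scoped TensorProduct

open Pool.Agent.E487.Hopf

namespace Pool.Agent.KLR

variable {K I : Type} [Field K] [Fintype I] [DecidableEq I] (D : Datum K I)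

/-- the basis theorem and the modules `L(i^a)` (used everywhere) -/
def Base (Lp : I → ℕ → SMod D) : Prop := S_basis D ∧ CFacts D Lp

section hom

variable {D} {M N : Type} [AddCommGroup M] [Module K M] [Module (KLRAlg D) M]
  [IsScalarTower K (KLRAlg D) M] [AddCommGroup N] [Module K N] [Module (KLRAlg D) N]
  [IsScalarTower K (KLRAlg D) N]

/-- a homomorphism as a linear map -/
noncomputable def homK : (M →ₗ[KLRAlg D] N) →ₗ[K] (M →ₗ[K] N) where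
  toFun f := Conv.toK f
  map_add' _ _ := rfl
  map_smul' _ _ := rfl

theorem homK_injective : Function.Injective (homK : (M →ₗ[KLRAlg D] N) →ₗ[K] (M →ₗ[K] N)) := by
  intro f g h
  ext u
  exact LinearMap.congr_fun h u

/-- homomorphism spaces are finite dimensional -/
theorem homFin [FiniteDimensional K M] [FiniteDimensional K N] :
    FiniteDimensional K (M →ₗ[KLRAlg D] N) := Module.Finite.of_injective _ homK_injective

theorem homK_smul_apply (c : K) (f : M →ₗ[KLRAlg D] N) (u : M) : (c • f) u = c • f u := rfl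

end hom

/-! ### constituents -/

/-- MSUB: multiplicities are additive -/
def StMsub : Prop := ∀ (Lp : I → ℕ → SMod D) (h : Base D Lp) (n : ℕ) (M : Type)
  [AddCommGroup M] [Module K M] [Module (KLRAlg D) M] [IsScalarTower K (KLRAlg D) M]
  (hM : FdMod D n M) (P : Submodule (KLRAlg D) M),
  Sm.mult h.2 hM = Sm.mult h.2 (hM.sub P) + Sm.mult h.2 (hM.quot P)

/-- MSQ: the constituents are the simple subquotients -/
def StMsq : Prop := ∀ (Lp : I → ℕ → SMod D) (h : Base D Lp) (n : ℕ) (M : Type)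
  [AddCommGroup M] [Module K M] [Module (KLRAlg D) M] [IsScalarTower K (KLRAlg D) M]
  (hM : FdMod D n M) (Z : SMod D), SubQ D Z.M M ↔ Sm.mult h.2 hM (Sm.cls Z) ≠ 0

/-- SSUB: a simple submodule of `U ∘ C` is a submodule of `V ∘ C` for a constituent `V` of `U` -/
def StSsub : Prop := ∀ (Lp : I → ℕ → SMod D), Base D Lp → ∀ (n : ℕ) (U : Type)
  [AddCommGroup U] [Module K U] [Module (KLRAlg D) U] [IsScalarTower K (KLRAlg D) U],
  FdMod D n U → ∀ C S : SMod D, Sub D S.M (Conv D n U C.M) →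
  ∃ V : SMod D, SubQ D V.M U ∧ Sub D S.M (V.conv C)

/-- AS: if `W` is a quotient of `B ∘ C` and `S` of `A ∘ W` then `S` is a quotient of `AB ∘ C` -/
def StAs : Prop := ∀ (Lp : I → ℕ → SMod D), Base D Lp → ∀ A B AB C W S : SMod D,
  A.chq * B.chq = AB.chq → Quo D W.M (B.conv C) → Quo D S.M (A.conv W) → Quo D S.M (AB.conv C)

/-- ASM, the mirror of AS -/
def StAsm : Prop := ∀ (Lp : I → ℕ → SMod D), Base D Lp → ∀ A B AB C W S : SMod D,
  A.chq * B.chq = AB.chq → Quo D W.M (C.conv A) → Quo D S.M (W.conv B) → Quo D S.M (C.conv AB)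

/-- S2: a product with simple head `T` and simple socle `T` of multiplicity one is simple -/
def StS2 : Prop := ∀ (Lp : I → ℕ → SMod D) (h : Base D Lp) (hconv : S_conv D) (X Y T : Sm D),
  (∀ Z : SMod D, Quo D Z.M (X.rep.conv Y.rep) → Z.Iso T.rep) →
  (∀ Z : SMod D, Quo D Z.M (Y.rep.conv X.rep) → Z.Iso T.rep) →
  Sm.co h.2 hconv X Y T = 1 → X.rep.Comm Y.rep

/-- LPHD: the simple quotients of `L(i^a) ∘ M` if `ε_i(M) = 0` -/
def StLphd : Prop := ∀ (Lp : I → ℕ → SMod D), Base D Lp → ∀ (i : I) (a n : ℕ) (M : Type)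
  [AddCommGroup M] [Module K M] [Module (KLRAlg D) M] [IsScalarTower K (KLRAlg D) M],
  FdMod D n M → (∀ ν, chr D n M (i :: ν) = 0) → ∀ Z : SMod D,
  Quo D Z.M (Conv D a (Lp i a).M M) →
  ∃ Q : SMod D, Quo D Q.M M ∧ SMod.Emax i a Z Q ∧ Quo D Z.M ((Lp i a).conv Q)

/-- `X ∘ Y ≅ Y ∘ X` -/
def SMod.IC {D : Datum K I} (X Y : SMod D) : Prop :=
  Nonempty (X.conv Y ≃ₗ[KLRAlg D] Y.conv X)

/-- ICC: commuting simple modules -/
def StIcc : Prop := ∀ (Lp : I → ℕ → SMod D), Base D Lp → ∀ X Y : SMod D, X.Comm Y → X.IC Y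

/-- ICM: `IC` and products -/
def StIcm : Prop := ∀ (Lp : I → ℕ → SMod D), Base D Lp → ∀ X A B AB : SMod D,
  A.chq * B.chq = AB.chq → X.IC A → X.IC B → X.IC AB

/-- LPIC: if `L(i) ∘ C ≅ C ∘ L(i)` then `L(i^a) ∘ C ≅ C ∘ L(i^a)` -/
def StLpic : Prop := ∀ (Lp : I → ℕ → SMod D), Base D Lp → ∀ (i : I) (C : SMod D),
  (Lp i 1).IC C → ∀ a, (Lp i a).IC C

/-- HDC: `C` commutes with `L(i)`; then `ε_i` is additive on the quotients of `C ∘ X` -/
def StHdc : Prop := ∀ (Lp : I → ℕ → SMod D), Base D Lp → ∀ (i : I) (a b : ℕ)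
  (C C' X X' Z : SMod D), (Lp i 1).IC C → SMod.Emax i a C C' → SMod.Emax i b X X' →
  Quo D Z.M (C.conv X) → ∃ Z' : SMod D, SMod.Emax i (a + b) Z Z' ∧ Quo D Z'.M (C'.conv X')

/-! ### powers, strong commutation -/

/-- `T` is the `n`-th power of `C` -/
def SMod.Pw {D : Datum K I} (C : SMod D) (n : ℕ) (T : SMod D) : Prop := T.chq = C.chq ^ n

/-- all powers of `C` are simple -/
def SMod.SR {D : Datum K I} (C : SMod D) : Prop := ∀ n, ∃ T, C.Pw n T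

/-- `C^n ∘ X` is simple for all `n` -/
def SMod.SC {D : Datum K I} (C X : SMod D) : Prop := ∀ n, ∃ T : SMod D, T.chq = C.chq ^ n * X.chq

/-- for every simple `X` some simple quotient of some `C^n ∘ X` strongly commutes with `C` -/
def SMod.Dag {D : Datum K I} (C : SMod D) : Prop := ∀ X : SMod D, ∃ (n : ℕ) (T S : SMod D),
  C.Pw n T ∧ Quo D S.M (T.conv X) ∧ C.SC S

/-- the mirror of `Dag` -/
def SMod.Dagm {D : Datum K I} (C : SMod D) : Prop := ∀ X : SMod D, ∃ (n : ℕ) (T S : SMod D),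
  C.Pw n T ∧ Quo D S.M (X.conv T) ∧ C.SC S

/-- K0N: the composition `N ∘ A → N ∘ C ∘ M → E ∘ M` is not zero if `C` is simple -/
def StK0n : Prop := ∀ (_ : S_basis D) (n m l p q : ℕ) (A M C N E : Type)
  [AddCommGroup A] [Module K A] [Module (KLRAlg D) A] [IsScalarTower K (KLRAlg D) A]
  [AddCommGroup M] [Module K M] [Module (KLRAlg D) M] [IsScalarTower K (KLRAlg D) M]
  [AddCommGroup C] [Module K C] [Module (KLRAlg D) C] [IsScalarTower K (KLRAlg D) C]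
  [AddCommGroup N] [Module K N] [Module (KLRAlg D) N] [IsScalarTower K (KLRAlg D) N]
  [AddCommGroup E] [Module K E] [Module (KLRAlg D) E] [IsScalarTower K (KLRAlg D) E]
  (_ : IsStrand D p A) (_ : IsStrand D m M) (_ : IsStrand D l C) (_ : IsStrand D n N)
  (_ : IsStrand D q E) (_ : p = l + m) (hq : n + l = q), IsSimpleModule (KLRAlg D) C →
  ∀ (f : A →ₗ[KLRAlg D] Conv D l C M) (g : Conv D n N C →ₗ[KLRAlg D] E), f ≠ 0 → g ≠ 0 →
  (Conv.map hq g (LinearMap.id : M →ₗ[KLRAlg D] M)) ∘ₗ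
    (Conv.assoc D n l N C M).symm.toLinearMap ∘ₗ
      (Conv.map (rfl : n = n) (LinearMap.id : N →ₗ[KLRAlg D] N) f) ≠ 0

/-- INJ: linearly independent homomorphisms from a simple module -/
def StInj : Prop := ∀ (_ : S_basis D) (P : SMod D) (M : Type)
  [AddCommGroup M] [Module K M] [Module (KLRAlg D) M] [IsScalarTower K (KLRAlg D) M] (h : ℕ)
  (f : Fin h → (P.M →ₗ[KLRAlg D] M)), LinearIndependent K f →
  ∀ u : Fin h → P.M, ∑ i, f i (u i) = 0 → u = 0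

/-- K1C: a bound for the dimension of `Hom(P, M)` -/
def StK1c : Prop := ∀ (_ : S_basis D) (P : SMod D) (n : ℕ) (M : Type)
  [AddCommGroup M] [Module K M] [Module (KLRAlg D) M] [IsScalarTower K (KLRAlg D) M],
  FdMod D n M → Module.finrank K (P.M →ₗ[KLRAlg D] M) * Module.finrank K P.M ≤
    Module.finrank K M

/-- K1P: `Hom(G, B ∘ R) → Hom(QX ∘ G, QS ∘ R)`, along `X ∘ B → S` -/
def StK1p : Prop := ∀ (_ : S_basis D) (B S P X Q R G Y : SMod D),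
  Nonempty (Q.conv S ≃ₗ[KLRAlg D] P.M) → Quo D S.M (X.conv B) →
  Nonempty (Q.conv X ≃ₗ[KLRAlg D] Y.M) →
  ∃ ψ : (G.M →ₗ[KLRAlg D] B.conv R) →ₗ[K] (Y.conv G →ₗ[KLRAlg D] P.conv R),
    Function.Injective ψ

/-- K1S: `⊕ Hom(A, P ∘ R₂) → Hom(A, B ∘ R₁ ∘ R₂)`, along independent homomorphisms
`P → B ∘ R₁` -/
def StK1s : Prop := ∀ (_ : S_basis D) (B P R₁ R₂ Z : SMod D) (h : ℕ)
  (f : Fin h → (P.M →ₗ[KLRAlg D] B.conv R₁)), LinearIndependent K f →
  Nonempty (R₁.conv R₂ ≃ₗ[KLRAlg D] Z.M) → ∀ (A : Type)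
  [AddCommGroup A] [Module K A] [Module (KLRAlg D) A] [IsScalarTower K (KLRAlg D) A],
  ∃ θ : (Fin h → (A →ₗ[KLRAlg D] P.conv R₂)) →ₗ[K] (A →ₗ[KLRAlg D] B.conv Z),
    Function.Injective θ

/-- K1A: the inequality `h_m h_m' ≤ h_(m+m'+n)` -/
def StK1a : Prop := ∀ (_ : S_basis D) (B S P X Q R₁ R₂ G Y Z : SMod D),
  Nonempty (Q.conv S ≃ₗ[KLRAlg D] P.M) → Quo D S.M (X.conv B) →
  Nonempty (Q.conv X ≃ₗ[KLRAlg D] Y.M) → Nonempty (R₁.conv R₂ ≃ₗ[KLRAlg D] Z.M) →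
  Module.finrank K (P.M →ₗ[KLRAlg D] B.conv R₁) * Module.finrank K (G.M →ₗ[KLRAlg D] B.conv R₂) ≤
    Module.finrank K (Y.conv G →ₗ[KLRAlg D] B.conv Z)

/-- K1B: monotonicity, `h_m ≤ h_(m+1)` -/
def StK1b : Prop := ∀ (_ : S_basis D) (B C P P' R R' : SMod D),
  Nonempty (P.conv C ≃ₗ[KLRAlg D] P'.M) → Nonempty (R.conv C ≃ₗ[KLRAlg D] R'.M) →
  Module.finrank K (P.M →ₗ[KLRAlg D] B.conv R) ≤
    Module.finrank K (P'.M →ₗ[KLRAlg D] B.conv R')

/-- K1D: `dim Hom(C^m ∘ S, B ∘ C^(m+n)) ≤ 1` for a simple quotient `S` of `C^n ∘ B` which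
strongly commutes with `C` -/
def StK1d : Prop := ∀ (Lp : I → ℕ → SMod D), Base D Lp → ∀ (B C S T : SMod D) (n : ℕ),
  C.SR → C.Pw n T → Quo D S.M (T.conv B) → C.SC S → ∀ (m : ℕ) (P R : SMod D),
  P.chq = C.chq ^ m * S.chq → C.Pw (m + n) R →
  Module.finrank K (P.M →ₗ[KLRAlg D] B.conv R) ≤ 1

/-- K1E: `dim Hom(C^m ∘ B, B ∘ C^m) ≤ 1` -/
def StK1e : Prop := ∀ (Lp : I → ℕ → SMod D), Base D Lp → ∀ (B C T : SMod D) (m : ℕ),
  C.SR → C.Dag → C.Pw m T → Module.finrank K (T.conv B →ₗ[KLRAlg D] B.conv T) ≤ 1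

/-- K1: `C^m ∘ B` has exactly one maximal submodule -/
def StK1 : Prop := ∀ (Lp : I → ℕ → SMod D), Base D Lp → ∀ (B C T : SMod D) (m : ℕ),
  C.SR → C.Dag → C.Pw m T → ∃ (S : SMod D) (f : T.conv B →ₗ[KLRAlg D] S.M),
  Function.Surjective f ∧ ∀ N : Submodule (KLRAlg D) (T.conv B), N ≠ ⊤ → N ≤ LinearMap.ker f

/-- K1M: the mirror of K1 -/
def StK1m : Prop := ∀ (Lp : I → ℕ → SMod D), Base D Lp → ∀ (B C T : SMod D) (m : ℕ),
  C.SR → C.Dagm → C.Pw m T → ∃ (S : SMod D) (f : B.conv T →ₗ[KLRAlg D] S.M),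
  Function.Surjective f ∧ ∀ N : Submodule (KLRAlg D) (B.conv T), N ≠ ⊤ → N ≤ LinearMap.ker f

/-- K4A: the diagonal argument -/
def StK4a : Prop := ∀ (Lp : I → ℕ → SMod D), Base D Lp → ∀ X Y T S : SMod D,
  Quo D S.M (T.conv X) → Quo D S.M (T.conv Y) →
  Module.finrank K (T.conv S →ₗ[KLRAlg D] S.conv T) ≤ 1 → X.Iso Y

/-- K4: injectivity of `X ↦ hd(C^n ∘ X)` -/
def StK4 : Prop := ∀ (Lp : I → ℕ → SMod D), Base D Lp → ∀ (X Y C T H : SMod D) (n : ℕ),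
  C.SR → C.Dag → C.Pw n T → Quo D H.M (T.conv X) → Quo D H.M (T.conv Y) → X.Iso Y

/-- K4M: the mirror of K4 -/
def StK4m : Prop := ∀ (Lp : I → ℕ → SMod D), Base D Lp → ∀ (X Y C T H : SMod D) (n : ℕ),
  C.SR → C.Dagm → C.Pw n T → Quo D H.M (X.conv T) → Quo D H.M (Y.conv T) → X.Iso Y

/-! ### DS and LBF -/

/-- DS: if `C ∘ S` is not simple for a simple quotient `S` of `T ∘ B` then the kernel of
`C ∘ S → S'` contains a simple quotient `Y` of `T ∘ B'` for a constituent `B'` of `C ∘ B` -/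
def StDs : Prop := ∀ (Lp : I → ℕ → SMod D) (h : Base D Lp) (hconv : S_conv D)
  (T B C S S' : Sm D), Quo D S.rep.M (T.rep.conv B.rep) → Quo D S'.rep.M (C.rep.conv S.rep) →
  ¬ C.rep.Comm S.rep → ∃ (B' Y : Sm D) (Q : Sm D →₀ ℕ), Sm.co h.2 hconv C B B' ≠ 0 ∧
    Quo D Y.rep.M (T.rep.conv B'.rep) ∧
    Sm.co h.2 hconv C S = Finsupp.single S' 1 + Finsupp.single Y 1 + Q

/-- LBF: `[y][F] + [g][F₀] ≤ [Y] + [y][L(i)]^a [F₀]` where `F₀ = f_i^b k`, `F = f_i^(a+b) k`,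
`Y = f_i^(a+b) (y ∘ k)`, `g = f_i^a y` commutes with `L(i)` -/
def StLbf : Prop := ∀ (Lp : I → ℕ → SMod D) (h : Base D Lp) (i : I)
  (y k yk g F F₀ Y : Sm D) (a b : ℕ),
  Sm.eps h.2 i y = 0 → Sm.eps h.2 i k = 0 → Sm.chq y * Sm.chq k = Sm.chq yk →
  Sm.eps h.2 i g = a → Sm.E h.2 i g = y → (Lp i 1).IC g.rep →
  Sm.eps h.2 i F₀ = b → Sm.E h.2 i F₀ = k → Sm.eps h.2 i F = a + b → Sm.E h.2 i F = k →
  Sm.eps h.2 i Y = a + b → Sm.E h.2 i Y = yk →
  ∃ Q : Sm D →₀ ℕ, Sm.chq Y + Sm.chq y * Sm.chq (Sm.lt Lp i) ^ a * Sm.chq F₀ =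
    Sm.chq y * Sm.chq F + Sm.chq g * Sm.chq F₀ + Sm.comb Q

end Pool.Agent.KLR
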