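import Pool.Agent.Work.MP_e487d8_al.Mo.Head
import Pool.Agent.Work.MP_e487d8_al.Mod.Fd

/-! MP_e487d8_al, item AS: quotients of `A ∘ (B ∘ C)`. -/

set_option autoImplicit false
set_option linter.unusedSectionVars false

open scoped TensorProduct

open Pool.Agent.E487.Hopf

namespace Pool.Agent.KLR

namespace XAS

variable {K I : Type} [Field K] [Fintype I] [DecidableEq I] {D : Datum K I}

theorem sConv (hb : S_basis D) : S_conv D := fun _ _ _ _ _ _ _ _ _ _ _ _ hM hN =>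
  Conv.fdMod_chrQ hb hM hN

theorem nontriv (X : SMod D) : Nontrivial X.M := by
  have := X.smp.simple
  exact IsSimpleModule.nontrivial (KLRAlg D) X.M

/-- the number of strands of a quotient -/
theorem n_quo (hb : S_basis D) {X Y Z : SMod D} (h : Quo D Z.M (X.conv Y)) : Z.n = X.n + Y.n :=
  quo_strand (Sm.fd_conv (sConv hb) X Y) h

end XAS

open XAS in
theorem Mo.I_AS {K I : Type} [Field K] [Fintype I] [DecidableEq I] (D : Datum K I) : StAs D := by
  intro Lp hB A B AB C W S hAB hW hS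
  obtain ⟨hb, hC⟩ := hB
  have hconv := sConv hb
  obtain ⟨e⟩ := Sm.iso_conv' hC hconv hAB
  have hn : AB.n = A.n + B.n := n_quo hb ⟨e.toLinearMap, e.surjective⟩
  obtain ⟨g, hg⟩ := hW
  obtain ⟨f, hf⟩ := hS
  have s1 : Function.Surjective
      (Conv.map hn e.symm.toLinearMap (LinearMap.id : C.M →ₗ[KLRAlg D] C.M)) :=
    Conv.map_surjective hn _ _ e.symm.surjective Function.surjective_id
  have s2 := (Conv.assoc D A.n B.n A.M B.M C.M).surjective
  have s3 : Function.Surjective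
      (Conv.map (rfl : A.n = A.n) (LinearMap.id : A.M →ₗ[KLRAlg D] A.M) g) :=
    Conv.map_surjective rfl _ _ Function.surjective_id hg
  refine ⟨f ∘ₗ (Conv.map (rfl : A.n = A.n) (LinearMap.id : A.M →ₗ[KLRAlg D] A.M) g) ∘ₗ
    (Conv.assoc D A.n B.n A.M B.M C.M).toLinearMap ∘ₗ
    (Conv.map hn e.symm.toLinearMap (LinearMap.id : C.M →ₗ[KLRAlg D] C.M)), ?_⟩
  intro z
  obtain ⟨z, rfl⟩ := hf z
  obtain ⟨z, rfl⟩ := s3 z
  obtain ⟨z, rfl⟩ := s2 z
  obtain ⟨z, rfl⟩ := s1 z
  exact ⟨z, rfl⟩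

end Pool.Agent.KLR
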