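import Pool.Agent.Work.MP_e487d8_al.Mo.Head
import Pool.Agent.Work.MP_e487d8_al.Cry.Facts

/-! MP_e487d8_al, module side, item INJ: linearly independent homomorphisms from a simple module. -/

set_option autoImplicit false
set_option linter.unusedSectionVars false

namespace Pool.Agent.KLR

namespace XINJ

section abs

variable {K R P M : Type} [Field K] [Ring R] [Algebra K R]
  [AddCommGroup P] [Module K P] [Module R P] [IsScalarTower K R P]
  [AddCommGroup M] [Module K M] [Module R M] [IsScalarTower K R M]

/-- the sum of the maps of a family -/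
noncomputable def tot {h : ℕ} (f : Fin h → (P →ₗ[R] M)) : (Fin h → P) →ₗ[R] M :=
  ∑ i, (f i).comp (LinearMap.proj i)

theorem tot_apply {h : ℕ} (f : Fin h → (P →ₗ[R] M)) (u : Fin h → P) :
    tot f u = ∑ i, f i (u i) := by
  simp [tot, LinearMap.sum_apply]

theorem main [IsSimpleModule R P] (hs : ∀ φ : P →ₗ[R] P, ∃ c : K, ∀ u, φ u = c • u) :
    ∀ (h : ℕ) (f : Fin h → (P →ₗ[R] M)), LinearIndependent K f →
      ∀ u : Fin h → P, ∑ i, f i (u i) = 0 → u = 0 := by
  intro h
  induction h with
  | zero => intro f _ u _; exact Subsingleton.elim _ _
  | succ h ih =>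
    intro f hf u hu
    have hf' := linearIndependent_finSucc'.1 hf
    have hinj : Function.Injective (tot (Fin.init f)) := by
      rw [← LinearMap.ker_eq_bot, LinearMap.ker_eq_bot']
      intro w hw
      rw [tot_apply] at hw
      exact ih _ hf'.1 w hw
    rw [Fin.sum_univ_castSucc] at hu
    have hlast : u (Fin.last h) = 0 := by
      by_contra hne
      let N : Submodule R P := (LinearMap.range (tot (Fin.init f))).comap (f (Fin.last h))
      have hN : u (Fin.last h) ∈ N := by
        refine ⟨-(fun i => u (Fin.castSucc i)), ?_⟩
        rw [map_neg, tot_apply]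
        exact neg_eq_of_add_eq_zero_right hu
      have hN2 : N = ⊤ := by
        rcases eq_bot_or_eq_top N with h1 | h1
        · rw [h1] at hN
          exact absurd ((Submodule.mem_bot R).1 hN) hne
        · exact h1
      have hall : ∀ p : P, f (Fin.last h) p ∈ LinearMap.range (tot (Fin.init f)) := by
        intro p
        have : p ∈ N := by rw [hN2]; trivial
        exact this
      let g : P →ₗ[R] (Fin h → P) :=
        (LinearEquiv.ofInjective (tot (Fin.init f)) hinj).symm.toLinearMap.comp
          ((f (Fin.last h)).codRestrict _ hall)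
      have hg : ∀ p, tot (Fin.init f) (g p) = f (Fin.last h) p := by
        intro p
        have h1 := (LinearEquiv.ofInjective (tot (Fin.init f)) hinj).apply_symm_apply
          ((f (Fin.last h)).codRestrict _ hall p)
        exact congrArg Subtype.val h1
      have hc : ∀ i : Fin h, ∃ c : K, ∀ p, g p i = c • p := by
        intro i
        exact hs ((LinearMap.proj i).comp g)
      choose c hc using hc
      apply hf'.2
      have hlin : f (Fin.last h) = ∑ i, c i • (Fin.init f) i := by
        ext p
        rw [← hg p, tot_apply, LinearMap.sum_apply]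
        refine Finset.sum_congr rfl fun i _ => ?_
        rw [hc i p, LinearMap.map_smul_of_tower, LinearMap.smul_apply]
      rw [hlin]
      exact Submodule.sum_mem _ fun i _ =>
        Submodule.smul_mem _ _ (Submodule.subset_span ⟨i, rfl⟩)
    rw [hlast, map_zero, add_zero] at hu
    have hinit := ih _ hf'.1 (fun i => u (Fin.castSucc i)) hu
    funext i
    refine Fin.lastCases ?_ (fun j => ?_) i
    · exact hlast
    · exact congrFun hinit j

end abs

end XINJ

variable {K I : Type} [Field K] [Fintype I] [DecidableEq I] (D : Datum K I)

theorem Mo.I_INJ : StInj D := by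
  intro hb P M _ _ _ _ h f hf u hu
  have := P.smp.simple
  exact XINJ.main (K := K) (R := KLRAlg D) (end_scalar hb _ _ P.smp) h f hf u hu

end Pool.Agent.KLR
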