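import Pool.Agent.Work.MP_e487d8_al.Mo.Head

/-! MP_e487d8_al, block MO, item K4: injectivity of `X ↦ hd(C^n ∘ X)`. -/

set_option autoImplicit false

namespace Pool.Agent.KLR

variable {K I : Type} [Field K] [Fintype I] [DecidableEq I] (D : Datum K I)

theorem Mo.I_K4 (hE : StK1e D) (hA : StK4a D) : StK4 D :=
  fun Lp h X Y C T H n hSR hDag hT hX hY =>
    hA Lp h X Y T H hX hY (hE Lp h H C T n hSR hDag hT)

end Pool.Agent.KLR
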