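import Pool.Agent.Work.MP_e487d8_al.Mo.Cf
import Pool.Agent.Work.MP_e487d8_al.Conv.Exact

/-! MP_e487d8_al, module side, item SWAP: the quotients of `X ∘ Y` are the submodules of
`Y ∘ X`. -/

set_option autoImplicit false
set_option linter.unusedSectionVars false

namespace Pool.Agent.KLR

variable {K I : Type} [Field K] [Fintype I] [DecidableEq I] (D : Datum K I)

theorem Mo.I_SWAP (h1 : StDuConv D) (h2 : StDuIso D) : StSwap D := by
  intro hb Lp hC X Y Z
  obtain ⟨dX⟩ := h2 Lp hC X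
  obtain ⟨dY⟩ := h2 Lp hC Y
  obtain ⟨dZ⟩ := h2 Lp hC Z
  have hX := X.smp.strand
  have hY := Y.smp.strand
  haveI hXf := X.smp.fd
  haveI hYf := Y.smp.fd
  constructor
  · rintro ⟨f, hf⟩
    obtain ⟨e⟩ := h1 hb X.n Y.n X.M Y.M hX hY hXf hYf
    refine ⟨(Conv.map (rfl : Y.n = Y.n) dY.toLinearMap dX.toLinearMap) ∘ₗ e.symm.toLinearMap ∘ₗ
      (Du.map f) ∘ₗ dZ.symm.toLinearMap, ?_⟩
    have h3 : Function.Injective
        (Conv.map (rfl : Y.n = Y.n) dY.toLinearMap dX.toLinearMap) :=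
      Conv.map_injective hb rfl (Du.isStrand hY) (Du.isStrand hX) hY hX _ _ dY.injective
        dX.injective
    exact h3.comp (e.symm.injective.comp ((Du.map_injective hf).comp dZ.symm.injective))
  · rintro ⟨g, hg⟩
    obtain ⟨e⟩ := h1 hb Y.n X.n Y.M X.M hY hX hYf hXf
    refine ⟨dZ.toLinearMap ∘ₗ (Du.map g) ∘ₗ e.toLinearMap ∘ₗ
      (Conv.map (rfl : X.n = X.n) dX.symm.toLinearMap dY.symm.toLinearMap), ?_⟩
    have h3 : Function.Surjective
        (Conv.map (rfl : X.n = X.n) dX.symm.toLinearMap dY.symm.toLinearMap) :=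
      Conv.map_surjective rfl _ _ dX.symm.surjective dY.symm.surjective
    exact dZ.surjective.comp ((Du.map_surjective hg).comp (e.surjective.comp h3))

end Pool.Agent.KLR
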